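import Pool.Agent.Helper21.V2.AR1
import Pool.Agent.Helper21.V2.AR5

/-!
# Project SB: limits of Weil functions along a generic sequence (after helper21's blocks AR1, AR5)
-/

set_option autoImplicit false

namespace Pool.Agent.Helper36.SB

open NumberField Filter MvPolynomial
open Pool.Agent.Helper64.Vojta (Pl nv nv_nonneg nv_mul nv_one nv_zero nv_pos)
open Pool.Agent.V2

variable {k : Type*} [Field k] [NumberField k] {d : ℕ}

/-- `N log |x|_v - log |s(x)|_v`. -/
noncomputable def wf (v : Pl k) (N : ℕ) (s : MvPolynomial (Fin d) k) (x : Fin d → k) : ℝ :=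
  N * Real.log (vn v x) - Real.log (nv v (eval x s))

/-- The limit along `U` of `wf v N s (F n) / vH (F n)`, `N = s.totalDegree`. -/
noncomputable def lw (U : Ultrafilter ℕ) (F : ℕ → Fin d → k) (v : Pl k) (s : MvPolynomial (Fin d) k) : ℝ :=
  limUnder (U : Filter ℕ) fun n => wf v s.totalDegree s (F n) / vH (F n)

/-- A sequence of points which is not on a hypersurface along `U`. -/
def Gen (U : Ultrafilter ℕ) (F : ℕ → Fin d → k) : Prop :=
  ∀ (N : ℕ) (s : MvPolynomial (Fin d) k), s.IsHomogeneous N → s ≠ 0 → ∀ᶠ n in (U : Filter ℕ), eval (F n) s ≠ 0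

theorem Gen.ne_zero {U : Ultrafilter ℕ} {F : ℕ → Fin d → k} (hd : 0 < d) (h : Gen U F) :
    ∀ᶠ n in (U : Filter ℕ), F n ≠ 0 := by
  filter_upwards [h 1 (X ⟨0, hd⟩) (isHomogeneous_X _ _) (X_ne_zero _)] with n hn h0
  apply hn
  rw [eval_X, h0]
  rfl

theorem nv_monomial_le' (v : Pl k) {s : MvPolynomial (Fin d) k} {N : ℕ} (hs : s.IsHomogeneous N)
    (x : Fin d → k) {e : Fin d →₀ ℕ} (hd : e ∈ s.support) :
    nv v (s.coeff e * ∏ i, x i ^ e i) ≤ pn v s * vn v x ^ N := by
  rw [nv_mul, nv_prod_pow]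
  refine mul_le_mul (le_pn v s e) ?_ (Finset.prod_nonneg fun i _ => pow_nonneg (nv_nonneg v _) _)
    ((nv_nonneg v _).trans (le_pn v s e))
  have h1 : ∑ i, e i = N := by
    have := hs (mem_support_iff.1 hd)
    rw [Finsupp.weight_apply, Finsupp.sum_fintype _ _ (by simp)] at this
    simpa using this
  rw [← h1, ← Finset.prod_pow_eq_pow_sum]
  exact Finset.prod_le_prod (fun i _ => pow_nonneg (nv_nonneg v _) _)
    fun i _ => pow_le_pow_left₀ (nv_nonneg v _) (le_vn v x i) _

/-- The exponent of the local constant. -/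
noncomputable def lb (s : MvPolynomial (Fin d) k) (v : Pl k) : ℝ :=
  |Real.log (pn v s)| + match v with
    | .inl v => v.mult * Real.log (s.support.card)
    | .inr _ => 0

theorem lb_nonneg (s : MvPolynomial (Fin d) k) (v : Pl k) : 0 ≤ lb s v := by
  unfold lb
  refine add_nonneg (abs_nonneg _) ?_
  rcases v with v | v
  · exact mul_nonneg (Nat.cast_nonneg _) (Real.log_natCast_nonneg _)
  · exact le_rfl

theorem finS_lb {s : MvPolynomial (Fin d) k} (hs : s ≠ 0) : FinS (lb s) := by
  refine Set.Finite.subset (finS_pn hs) fun v hv => ?_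
  rw [Function.mem_support] at hv ⊢
  intro h
  apply hv
  simp only [lb, h, abs_zero, add_zero]

theorem log_nv_eval_le' {s : MvPolynomial (Fin d) k} {N : ℕ} (hs : s.IsHomogeneous N)
    (x : Fin d → k) (hx0 : x ≠ 0) (hx : eval x s ≠ 0) (v : Pl k) :
    Real.log (nv v (eval x s)) ≤ N * Real.log (vn v x) + lb s v := by
  have hs0 : s ≠ 0 := by
    rintro rfl
    simp at hx
  have hcard : 1 ≤ s.support.card := by
    rw [Nat.one_le_iff_ne_zero, Finset.card_ne_zero]
    exact support_nonempty.mpr hs0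
  have hcard' : (0 : ℝ) < s.support.card := by exact_mod_cast hcard
  have hpn := pn_pos v hs0
  have hvnN : 0 < vn v x ^ N := pow_pos (vn_pos v hx0) N
  have hB : 0 ≤ pn v s * vn v x ^ N := by positivity
  have hev : eval x s = ∑ e ∈ s.support, s.coeff e * ∏ i, x i ^ e i := by
    rw [eval_eq']
  have hlog : Real.log (vn v x ^ N) = N * Real.log (vn v x) := Real.log_pow _ _
  have hnvpos := nv_pos v hx
  rcases v with v | v
  · have h1 : nv (.inl v) (eval x s) ≤ (s.support.card : ℝ) ^ v.mult * (pn (.inl v) s * vn (.inl v) x ^ N) := by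
      rw [hev]
      exact nv_sum_inl v _ _ hB fun d hd => nv_monomial_le' (.inl v) hs x hd
    refine (Real.log_le_log hnvpos h1).trans ?_
    rw [Real.log_mul (by positivity) (by positivity), Real.log_mul hpn.ne' hvnN.ne', hlog, Real.log_pow]
    unfold lb
    have := le_abs_self (Real.log (pn (.inl v) s))
    linarith
  · have h1 : nv (.inr v) (eval x s) ≤ pn (.inr v) s * vn (.inr v) x ^ N := by
      rw [hev]
      exact nv_sum_inr v _ _ hB fun d hd => nv_monomial_le' (.inr v) hs x hd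
    refine (Real.log_le_log hnvpos h1).trans ?_
    rw [Real.log_mul hpn.ne' hvnN.ne', hlog]
    unfold lb
    have := le_abs_self (Real.log (pn (.inr v) s))
    linarith

theorem wf_bounds' (s : MvPolynomial (Fin d) k) (N : ℕ) (hs : s.IsHomogeneous N) :
    ∃ C : ℝ, ∀ x : Fin d → k, x ≠ 0 → eval x s ≠ 0 →
      (∀ v, -C ≤ wf v N s x) ∧ ∀ v, wf v N s x ≤ N * vH x + C := by
  classical
  by_cases hs0 : s = 0
  · subst hs0
    exact ⟨0, fun x _ hx => absurd (by simp) hx⟩
  · refine ⟨gsum (lb s), fun x hx0 hx => ?_⟩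
    have hnn : ∀ v, 0 ≤ wf v N s x + lb s v := by
      intro v
      have := log_nv_eval_le' hs x hx0 hx v
      unfold wf
      linarith
    have hf1 : FinS (fun v => (N : ℝ) * Real.log (vn v x)) := (finS_vn' x).const_mul _
    have hf2 : FinS (fun v => -Real.log (nv v (eval x s))) := (finS_nv hx).neg
    have hfw : FinS (fun v => wf v N s x) := by
      have := hf1.add hf2
      simpa [wf, sub_eq_add_neg] using this
    have hg : gsum (fun v => wf v N s x) = N * vH x := by
      have h1 : (fun v => wf v N s x) = fun v => (N : ℝ) * Real.log (vn v x) + -Real.log (nv v (eval x s)) := by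
        funext v; unfold wf; ring
      rw [h1, gsum_add hf1 hf2, gsum_const_mul, gsum_neg, gsum_nv hx, neg_zero, add_zero]
      rfl
    constructor
    · intro v
      have h1 := single_le_gsum (finS_lb hs0) (lb_nonneg s) v
      have h2 := hnn v
      linarith
    · intro v
      calc wf v N s x ≤ wf v N s x + lb s v := by have := lb_nonneg s v; linarith
        _ ≤ gsum (fun v => wf v N s x + lb s v) := single_le_gsum (hfw.add (finS_lb hs0)) hnn v
        _ = N * vH x + gsum (lb s) := by rw [gsum_add hfw (finS_lb hs0), hg]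

section limits

variable {U : Ultrafilter ℕ} {F : ℕ → Fin d → k}

/-- the limits exist -/
theorem lw_tendsto' (hd : 0 < d) (hG : Gen U F)
    (hH : Tendsto (fun n => vH (F n)) (U : Filter ℕ) atTop) (v : Pl k)
    {s : MvPolynomial (Fin d) k} {N : ℕ} (hs : s.IsHomogeneous N) (hs0 : s ≠ 0) :
    Tendsto (fun n => wf v N s (F n) / vH (F n)) (U : Filter ℕ) (nhds (lw U F v s)) := by
  have hN : s.totalDegree = N := hs.totalDegree hs0
  unfold lw
  rw [hN]
  apply tendsto_nhds_limUnder
  obtain ⟨C, hC⟩ := wf_bounds' s N hs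
  have hmem : ∀ᶠ n in (U : Filter ℕ), wf v N s (F n) / vH (F n) ∈ Set.Icc (-|C|) (N + |C|) := by
    filter_upwards [hG N s hs hs0, hG.ne_zero hd, hH.eventually_ge_atTop 1] with n h1 h0 h2
    obtain ⟨h3, h4⟩ := hC (F n) h0 h1
    have h5 := h3 v
    have h6 := h4 v
    have hp : 0 < vH (F n) := by linarith
    have hc1 := le_abs_self C
    have hc0 := abs_nonneg C
    constructor
    · rw [le_div_iff₀ hp]
      nlinarith
    · rw [div_le_iff₀ hp]
      nlinarith
  obtain ⟨a, _, ha⟩ := isCompact_Icc.ultrafilter_le_nhds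
    (U.map fun n => wf v N s (F n) / vH (F n)) (by
      rw [le_principal_iff]
      exact hmem)
  exact ⟨a, ha⟩

theorem lw_unique (hd : 0 < d) (hG : Gen U F)
    (hH : Tendsto (fun n => vH (F n)) (U : Filter ℕ) atTop) (v : Pl k)
    {s : MvPolynomial (Fin d) k} {N : ℕ} (hs : s.IsHomogeneous N) (hs0 : s ≠ 0) {a : ℝ}
    (ha : Tendsto (fun n => wf v N s (F n) / vH (F n)) (U : Filter ℕ) (nhds a)) : lw U F v s = a :=
  tendsto_nhds_unique (lw_tendsto' hd hG hH v hs hs0) ha

theorem lw_nonneg (hd : 0 < d) (hG : Gen U F)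
    (hH : Tendsto (fun n => vH (F n)) (U : Filter ℕ) atTop) (v : Pl k)
    {s : MvPolynomial (Fin d) k} {N : ℕ} (hs : s.IsHomogeneous N) (hs0 : s ≠ 0) : 0 ≤ lw U F v s := by
  obtain ⟨C, hC⟩ := wf_bounds' s N hs
  refine le_of_tendsto_of_tendsto (tendsto_const_nhds.div_atTop hH : Tendsto (fun n => (-C) / vH (F n))
    (U : Filter ℕ) (nhds 0)) (lw_tendsto' hd hG hH v hs hs0) ?_
  filter_upwards [hG N s hs hs0, hG.ne_zero hd, hH.eventually_gt_atTop 0] with n h1 h0 h2
  exact div_le_div_of_nonneg_right ((hC (F n) h0 h1).1 v) h2.le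

theorem lw_mul (hd : 0 < d) (hG : Gen U F)
    (hH : Tendsto (fun n => vH (F n)) (U : Filter ℕ) atTop) (v : Pl k)
    {s t : MvPolynomial (Fin d) k} {M N : ℕ} (hs : s.IsHomogeneous M) (ht : t.IsHomogeneous N)
    (hs0 : s ≠ 0) (ht0 : t ≠ 0) : lw U F v (s * t) = lw U F v s + lw U F v t := by
  apply lw_unique hd hG hH v (hs.mul ht) (mul_ne_zero hs0 ht0)
  refine ((lw_tendsto' hd hG hH v hs hs0).add (lw_tendsto' hd hG hH v ht ht0)).congr' ?_
  filter_upwards [hG M s hs hs0, hG N t ht ht0] with n h1 h2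
  rw [← add_div]
  congr 1
  unfold wf
  rw [map_mul, nv_mul, Real.log_mul (nv_pos v h1).ne' (nv_pos v h2).ne']
  push_cast
  ring

theorem lw_const (hd : 0 < d) (hG : Gen U F)
    (hH : Tendsto (fun n => vH (F n)) (U : Filter ℕ) atTop) (v : Pl k) {a : k} (ha : a ≠ 0) :
    lw U F v (C a) = 0 := by
  apply lw_unique hd hG hH v (isHomogeneous_C _ a) (by rwa [Ne, C_eq_zero])
  refine (tendsto_const_nhds.div_atTop hH : Tendsto (fun n => (-Real.log (nv v a)) / vH (F n))
    (U : Filter ℕ) (nhds 0)).congr fun n => ?_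
  unfold wf
  rw [eval_C]
  simp

theorem nv_add_le (v : Pl k) (a b : k) : nv v (a + b) ≤ 4 * max (nv v a) (nv v b) := by
  have h0 : 0 ≤ max (nv v a) (nv v b) := (nv_nonneg v a).trans (le_max_left _ _)
  rcases v with v | v
  · have h := nv_sum_inl v (Finset.univ : Finset (Fin 2)) ![a, b] h0 (fun i _ => by
      fin_cases i
      · exact le_max_left _ _
      · exact le_max_right _ _)
    have h2 : ∑ i : Fin 2, ![a, b] i = a + b := by rw [Fin.sum_univ_two]; rfl
    rw [h2] at h
    refine h.trans (mul_le_mul_of_nonneg_right ?_ h0)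
    have hm : v.mult = 1 ∨ v.mult = 2 := by
      unfold InfinitePlace.mult; split_ifs <;> simp
    simp only [Finset.card_univ, Fintype.card_fin]
    rcases hm with hm | hm <;> rw [hm] <;> norm_num
  · have h := nv_sum_inr v (Finset.univ : Finset (Fin 2)) ![a, b] h0 (fun i _ => by
      fin_cases i
      · exact le_max_left _ _
      · exact le_max_right _ _)
    have h2 : ∑ i : Fin 2, ![a, b] i = a + b := by rw [Fin.sum_univ_two]; rfl
    rw [h2] at h
    linarith

theorem lw_add (hd : 0 < d) (hG : Gen U F)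
    (hH : Tendsto (fun n => vH (F n)) (U : Filter ℕ) atTop) (v : Pl k)
    {s t : MvPolynomial (Fin d) k} {N : ℕ} (hs : s.IsHomogeneous N) (ht : t.IsHomogeneous N)
    (hs0 : s ≠ 0) (ht0 : t ≠ 0) (hst : s + t ≠ 0) : min (lw U F v s) (lw U F v t) ≤ lw U F v (s + t) := by
  have h0 : Tendsto (fun n => Real.log 4 / vH (F n)) (U : Filter ℕ) (nhds 0) :=
    tendsto_const_nhds.div_atTop hH
  have h1 := ((lw_tendsto' hd hG hH v hs hs0).min (lw_tendsto' hd hG hH v ht ht0)).sub h0
  rw [sub_zero] at h1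
  refine le_of_tendsto_of_tendsto h1 (lw_tendsto' hd hG hH v (hs.add ht) hst) ?_
  filter_upwards [hG N s hs hs0, hG N t ht ht0, hG N _ (hs.add ht) hst, hH.eventually_gt_atTop 0]
    with n h2 h3 h4 h5
  rw [min_div_div_right h5.le, ← sub_div]
  apply div_le_div_of_nonneg_right _ h5.le
  have h6 := nv_add_le v (eval (F n) s) (eval (F n) t)
  rw [← map_add] at h6
  have h7 := Real.log_le_log (nv_pos v h4) h6
  have hm : 0 < max (nv v (eval (F n) s)) (nv v (eval (F n) t)) := lt_max_of_lt_left (nv_pos v h2)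
  rw [Real.log_mul (by norm_num) hm.ne'] at h7
  unfold wf
  rcases le_total (nv v (eval (F n) s)) (nv v (eval (F n) t)) with h8 | h8
  · rw [max_eq_right h8] at h7
    have h9 := Real.log_le_log (nv_pos v h2) h8
    have := min_le_right ((N : ℝ) * Real.log (vn v (F n)) - Real.log (nv v (eval (F n) s)))
      ((N : ℝ) * Real.log (vn v (F n)) - Real.log (nv v (eval (F n) t)))
    linarith
  · rw [max_eq_left h8] at h7
    have := min_le_left ((N : ℝ) * Real.log (vn v (F n)) - Real.log (nv v (eval (F n) s)))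
      ((N : ℝ) * Real.log (vn v (F n)) - Real.log (nv v (eval (F n) t)))
    linarith

theorem lw_coord (hd : 0 < d) (hG : Gen U F)
    (hH : Tendsto (fun n => vH (F n)) (U : Filter ℕ) atTop) (v : Pl k) : ∃ i, lw U F v (X i) = 0 := by
  have : Nonempty (Fin d) := ⟨⟨0, hd⟩⟩
  have h1 : ∀ n, ∃ i, vn v (F n) = nv v (F n i) := by
    intro n
    obtain ⟨i, hi⟩ := exists_eq_ciSup_of_finite (f := fun i => nv v (F n i))
    exact ⟨i, hi.symm⟩
  have h2 : ∀ᶠ n in (U : Filter ℕ), ∃ i, vn v (F n) = nv v (F n i) := Eventually.of_forall h1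
  rw [Ultrafilter.eventually_exists_iff] at h2
  obtain ⟨i, hi⟩ := h2
  refine ⟨i, lw_unique hd hG hH v (isHomogeneous_X _ i) (X_ne_zero i) ?_⟩
  refine tendsto_const_nhds.congr' ?_
  filter_upwards [hi] with n hn
  unfold wf
  rw [eval_X, ← hn]
  simp

end limits

end Pool.Agent.Helper36.SB
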