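import Pool.Agent.Helper36.SB.Link

/-!
# Project SB: Vojta's inequality for a point of degree `r` in terms of the local heights of its form
-/

set_option autoImplicit false

namespace Pool.Agent.Helper36.SB

open NumberField Filter Polynomial Module
open Pool.Agent.Helper64.Vojta (Pl nv sn above mem_above above_unique nv_nonneg nv_mul nv_one nv_zero nv_pos)
open Pool.Agent.V2 (vn vH vn_pos vH_eq gsum FinS finS_vn gsum_le gsum_add gsum_neg gsum_sum)
open Pool.Agent.Helper61.AD (cf)

universe u

section galois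

variable {k K : Type u} [Field k] [NumberField k] [Field K] [NumberField K] [Algebra k K] [IsGalois k K]

theorem gal_log {ν : Pl k} {w₀ : Pl K} (hw₀ : w₀ ∈ above K ν) (z : k) :
    ((above K ν).card : ℝ) / finrank k K * Real.log (nv w₀ (algebraMap k K z)) = Real.log (nv ν z) := by
  have hfr : (0 : ℝ) < finrank k K := by exact_mod_cast finrank_pos
  have h1 := Pool.Agent.Helper52.Vojta.sum_log_nv (L' := K) ν z
  have h2 : ∀ w ∈ above K ν, Real.log (nv w (algebraMap k K z)) = Real.log (nv w₀ (algebraMap k K z)) := by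
    intro w hw
    obtain ⟨σ, hσ⟩ := exists_gal hw₀ hw
    rw [← hσ, σ.commutes]
  rw [Finset.sum_congr rfl h2, Finset.sum_const, nsmul_eq_mul] at h1
  rw [div_mul_eq_mul_div, h1, mul_div_assoc, mul_comm, div_mul_cancel₀ _ hfr.ne']

theorem gal_log_sn {ν : Pl k} {w₀ : Pl K} (hw₀ : w₀ ∈ above K ν) {m : ℕ} (x : Fin (m + 1) → k) :
    ((above K ν).card : ℝ) / finrank k K * Real.log (sn w₀ (fun i => algebraMap k K (x i))) =
      Real.log (sn ν x) := by
  have hfr : (0 : ℝ) < finrank k K := by exact_mod_cast finrank_pos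
  have h1 := Pool.Agent.Helper52.Vojta.sum_log_sn (L' := K) (Nat.succ_pos m) ν x
  have h2 : ∀ w ∈ above K ν, Real.log (sn w (fun i => algebraMap k K (x i))) =
      Real.log (sn w₀ (fun i => algebraMap k K (x i))) := by
    intro w hw
    obtain ⟨σ, hσ⟩ := exists_gal hw₀ hw
    congr 1
    unfold sn
    congr 1
    funext i
    rw [← hσ, σ.commutes]
  rw [Finset.sum_congr rfl h2, Finset.sum_const, nsmul_eq_mul] at h1
  rw [div_mul_eq_mul_div, h1, mul_div_assoc, mul_comm, div_mul_cancel₀ _ hfr.ne']

end galois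

theorem nv_pow' {K : Type*} [Field K] [NumberField K] (w : Pl K) (x : K) (n : ℕ) :
    nv w (x ^ n) = nv w x ^ n := by
  induction n with
  | zero => rw [pow_zero, pow_zero, nv_one]
  | succ n ih => rw [pow_succ, pow_succ, nv_mul, ih]

theorem nv_neg_one_pow' {K : Type*} [Field K] [NumberField K] (w : Pl K) (n : ℕ) :
    nv w ((-1 : K) ^ n) = 1 := by
  have h : nv w (-1 : K) = 1 := by
    have h1 : nv w (-1 : K) * nv w (-1 : K) = 1 := by
      rw [← nv_mul, neg_one_mul, neg_neg, nv_one]
    have h2 := nv_nonneg w (-1 : K)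
    nlinarith
  induction n with
  | zero => rw [pow_zero, nv_one]
  | succ n ih => rw [pow_succ, nv_mul, ih, h, one_mul]

theorem log_nv_prod {K : Type*} [Field K] [NumberField K] (w : Pl K) {ι : Type*} (s : Finset ι) (f : ι → K)
    (hf : ∀ i ∈ s, f i ≠ 0) : Real.log (nv w (∏ i ∈ s, f i)) = ∑ i ∈ s, Real.log (nv w (f i)) := by
  classical
  induction s using Finset.induction_on with
  | empty => rw [Finset.prod_empty, Finset.sum_empty, nv_one, Real.log_one]
  | insert a s ha ih =>
    rw [Finset.prod_insert ha, Finset.sum_insert ha, nv_mul,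
      Real.log_mul (nv_pos w (hf a (Finset.mem_insert_self _ _))).ne'
        (nv_pos w (Finset.prod_ne_zero_iff.2 fun i hi => hf i (Finset.mem_insert_of_mem hi))).ne',
      ih fun i hi => hf i (Finset.mem_insert_of_mem hi)]

theorem sum_log_norm {k L : Type u} [Field k] [NumberField k] [Field L] [NumberField L] [Algebra k L]
    (z : L) (hz : z ≠ 0) (ν : Pl k) :
    ∑ w ∈ above L ν, Real.log (nv w z) = Real.log (nv ν (Algebra.norm k z)) := by
  rw [Pool.Agent.Helper52.Vojta.nv_norm, Real.log_prod fun w _ => (nv_pos w hz).ne']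

theorem norm_eval {k L K : Type u} [Field k] [NumberField k] [Field L] [NumberField L] [Algebra k L]
    [Field K] [Algebra k K] {g : k[X]} (hg : Squarefree g) (hs : (g.map (algebraMap k K)).Splits)
    {r : ℕ} (hL : finrank k L = r) (y : L) (hy : (minpoly k y).natDegree = r) :
    algebraMap k K (Algebra.norm k (aeval y g)) = (algebraMap k K g.leadingCoeff) ^ r *
      ∏ a ∈ pts g K, ((-1) ^ r * ((minpoly k y).map (algebraMap k K)).eval a) := by
  classical
  have hfd : FiniteDimensional k L := FiniteDimensional.right ℚ k L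
  have hint : IsIntegral k y := IsIntegral.of_finite k y
  have htop : Algebra.adjoin k {y} = ⊤ := by
    have h1 : IntermediateField.adjoin k {y} = ⊤ :=
      (Field.primitive_element_iff_minpoly_natDegree_eq k y).mpr (by rw [hy, hL])
    rw [← IntermediateField.adjoin_simple_toSubalgebra_of_isAlgebraic hint.isAlgebraic, h1,
      IntermediateField.top_toSubalgebra]
  set pb : PowerBasis k L := PowerBasis.ofAdjoinEqTop hint htop with hpb
  have hgen : pb.gen = y := PowerBasis.ofAdjoinEqTop_gen hint htop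
  have hdim : pb.dim = r := by rw [← pb.finrank, hL]
  have hsep : g.Separable := PerfectField.separable_iff_squarefree.2 hg
  have hnd : (g.aroots K).Nodup := Polynomial.nodup_roots hsep.map
  have e := (pts g K).equivFin
  have hprod : g.map (algebraMap k K) = C (algebraMap k K g.leadingCoeff) *
      ∏ i, (X - C ((e.symm i : K))) := by
    have h1 := hs.eq_prod_roots
    rw [Polynomial.leadingCoeff_map] at h1
    conv_lhs => rw [h1]
    congr 1
    rw [Equiv.prod_comp e.symm (fun a => X - C (a : K)), Finset.prod_coe_sort (pts g K) (fun a => X - C a)]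
    unfold pts
    rw [Finset.prod_eq_multiset_prod, Multiset.toFinset_val, Multiset.dedup_eq_self.2 hnd]
  have h := Pool.Agent.Helper52.Vojta.norm_aeval pb g (fun i => (e.symm i : K)) hprod
  rw [hgen, hdim] at h
  rw [h]
  congr 1
  rw [Equiv.prod_comp e.symm (fun a => (-1) ^ r * ((minpoly k y).map (algebraMap k K)).eval (a : K)),
    Finset.prod_coe_sort (pts g K) (fun a => (-1) ^ r * ((minpoly k y).map (algebraMap k K)).eval a)]

/-- The coefficient vector over an extension field. -/
theorem eval_ev {k K : Type*} [Field k] [Field K] [Algebra k K] {r : ℕ} (P : k[X]) (hP : P.natDegree ≤ r) (a : K) :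
    MvPolynomial.eval (fun i => algebraMap k K (cf r P i)) (ev r a) = (P.map (algebraMap k K)).eval a := by
  have h1 := Polynomial.as_sum_range' (P.map (algebraMap k K)) (r + 1)
    (Nat.lt_succ_of_le (natDegree_map_le.trans hP))
  rw [h1, Polynomial.eval_finsetSum, Finset.sum_range]
  unfold ev
  rw [map_sum]
  refine Finset.sum_congr rfl fun i _ => ?_
  rw [map_mul, MvPolynomial.eval_C, MvPolynomial.eval_X, Polynomial.eval_monomial, Polynomial.coeff_map,
    mul_comm]
  rfl

theorem eval_disc {k K : Type*} [Field k] [Field K] [Algebra k K] {r : ℕ} (hr : 0 < r) (P : k[X])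
    (hP : P.Monic) (hd : P.natDegree = r) :
    MvPolynomial.eval (fun i => algebraMap k K (cf r P i)) (disc K r) = algebraMap k K P.discr := by
  have h1 := discr_map (MvPolynomial.eval (fun i => algebraMap k K (cf r P i))) (gen K r)
    (by rw [gen_natDegree]; exact hr) (by
      rw [gen_leadingCoeff, MvPolynomial.eval_X]
      show algebraMap k K (P.coeff r) ≠ 0
      rw [← hd, hP.coeff_natDegree, map_one]
      exact one_ne_zero)
  have h2 := discr_map (algebraMap k K) P (by rw [hd]; exact hr) (by
      rw [hP.leadingCoeff, map_one]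
      exact one_ne_zero)
  unfold disc
  rw [h1, h2]
  congr 1
  ext n
  rw [Polynomial.coeff_map, Polynomial.coeff_map]
  by_cases hn : n ≤ r
  · have h3 := gen_coeff K r ⟨n, Nat.lt_succ_of_le hn⟩
    simp only at h3
    rw [h3, MvPolynomial.eval_X]
    rfl
  · push Not at hn
    rw [gen_coeff_of_gt K r hn, map_zero, Polynomial.coeff_eq_zero_of_natDegree_lt (by omega), map_zero]

/-- The height and the part of the discriminant outside `S`. -/
theorem fo_eq {k : Type u} [Field k] [NumberField k] (S : Finset (Pl k))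
    (hS : ∀ v : InfinitePlace k, Sum.inl v ∈ S) (r : ℕ) (P : k[X]) (hcf : cf r P ≠ 0) (hdisc : P.discr ≠ 0) :
    (2 * (r : ℝ) - 2) * vH (cf r P) = (∑ᶠ (v : FinitePlace k) (_ : Sum.inr v ∉ S),
      ((2 * r - 2) * Real.log (vn (.inr v) (cf r P)) - Real.log (nv (.inr v) P.discr))) +
      ∑ ν ∈ S, ((2 * r - 2) * Real.log (vn ν (cf r P)) - Real.log (nv ν P.discr)) := by
  classical
  set g : Pl k → ℝ := fun ν => (2 * (r : ℝ) - 2) * Real.log (vn ν (cf r P)) - Real.log (nv ν P.discr) with hg
  have hs1 : (Function.support fun v : FinitePlace k => Real.log (sn (.inr v) (cf r P))).Finite :=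
    Pool.Agent.Helper64.Vojta.log_support _ (Pool.Agent.Helper64.Vojta.fin_support_sn hcf)
  have hs2 : (Function.support fun v : FinitePlace k => Real.log (nv (.inr v) P.discr)).Finite :=
    Pool.Agent.Helper64.Vojta.log_support _ (Pool.Agent.Helper64.Vojta.fin_support_nv hdisc)
  have hgs : (Function.support fun v : FinitePlace k => g (.inr v)).Finite := by
    refine (hs1.union hs2).subset ?_
    intro v hv
    by_contra hcon
    simp only [Set.mem_union, Function.mem_support, not_or, not_not] at hcon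
    apply hv
    change (2 * (r : ℝ) - 2) * Real.log (sn (.inr v) (cf r P)) - Real.log (nv (.inr v) P.discr) = 0
    rw [hcon.1, hcon.2]; ring
  have htot : (2 * (r : ℝ) - 2) * vH (cf r P)
      = ∑ v : InfinitePlace k, g (.inl v) + ∑ᶠ v : FinitePlace k, g (.inr v) := by
    have hpf := Pool.Agent.Helper64.Vojta.product_formula_log hdisc
    have e1 : ∑ v : InfinitePlace k, g (.inl v)
        = (2 * (r : ℝ) - 2) * ∑ v : InfinitePlace k, Real.log (vn (.inl v) (cf r P))
          - ∑ v : InfinitePlace k, Real.log (nv (.inl v) P.discr) := by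
      rw [hg, Finset.sum_sub_distrib, Finset.mul_sum]
    have e2 : ∑ᶠ v : FinitePlace k, g (.inr v)
        = (2 * (r : ℝ) - 2) * ∑ᶠ v : FinitePlace k, Real.log (vn (.inr v) (cf r P))
          - ∑ᶠ v : FinitePlace k, Real.log (nv (.inr v) P.discr) := by
      rw [hg, finsum_sub_distrib ?_ hs2, mul_finsum]
      · refine Set.Finite.subset hs1 ?_
        intro v hv
        rw [Function.mem_support] at hv ⊢
        intro h0
        apply hv
        change (2 * (r : ℝ) - 2) * Real.log (sn (.inr v) (cf r P)) = 0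
        rw [h0, mul_zero]
    rw [e1, e2]
    change (2 * (r : ℝ) - 2) * (∑ v : InfinitePlace k, Real.log (vn (.inl v) (cf r P))
      + ∑ᶠ v : FinitePlace k, Real.log (vn (.inr v) (cf r P))) = _
    linear_combination hpf
  rw [htot, Pool.Agent.Helper61.AD.Fin2.finsum_split S hS g hgs]

/-- The local height of the form `f` at the place `v`, as it is used in the definition of the limit profile. -/
noncomputable def lch {k K : Type u} [Field k] [NumberField k] [Field K] [NumberField K] [Algebra k K]
    {r : ℕ} (P : Fin (r + 1) → k) (v : Pl k) (w₀ : Pl K) (m : ℕ) (f : MvPolynomial (Fin (r + 1)) K) : ℝ :=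
  ((above K v).card : ℝ) / Module.finrank k K *
    (m * Real.log (sn w₀ (fun i => algebraMap k K (P i))) -
      Real.log (nv w₀ (MvPolynomial.eval (fun i => algebraMap k K (P i)) f)))

/-- The two sides of Vojta's inequality in terms of local heights of the form. -/
theorem link {k K : Type u} [Field k] [NumberField k] [Field K] [NumberField K] [Algebra k K] [IsGalois k K]
    (g : k[X]) (hg : Squarefree g) (hs : (g.map (algebraMap k K)).Splits) (S : Finset (Pl k))
    (hS : ∀ v : InfinitePlace k, Sum.inl v ∈ S) (w₀ : S → Pl K) (hw₀ : ∀ v : S, w₀ v ∈ above K v.1)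
    (r : ℕ) (hr : 0 < r) :
    ∃ c : ℝ, ∀ (L : Type u) [Field L] [NumberField L] [Algebra k L], finrank k L = r → ∀ y : L,
      (minpoly k y).natDegree = r → aeval y g ≠ 0 →
      |(-(2 * Height.logHeight ![y, 1]) +
          ∑ ν ∈ S, ∑ w ∈ above L ν, (g.natDegree * Real.log (sn w ![y, 1]) - Real.log (nv w (aeval y g))) -
          ∑ᶠ (v : FinitePlace k) (_ : Sum.inr v ∉ S), ((2 * r - 2) * Real.log (vn (.inr v) (cf r (minpoly k y))) -
            Real.log (nv (.inr v) (minpoly k y).discr))) -
        (∑ v : S, (∑ a ∈ pts g K, lch (cf r (minpoly k y)) v.1 (w₀ v) 1 (ev r a) +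
          lch (cf r (minpoly k y)) v.1 (w₀ v) (2 * r - 2) (disc K r)) -
          2 * r * vH (cf r (minpoly k y)))| ≤ c := by
  classical
  obtain ⟨c1, hc1, h1⟩ := local_gauss.{u} r hr
  obtain ⟨c2, h2⟩ := ht_abs (k := k) r hr
  refine ⟨2 * c2 + S.card * (g.natDegree * c1) + |∑ ν ∈ S, (r : ℝ) * Real.log (nv ν g.leadingCoeff)|, ?_⟩
  intro L _ _ _ hL y hy hgy
  have hfd : FiniteDimensional k L := FiniteDimensional.right ℚ k L
  have hint : IsIntegral k y := IsIntegral.of_finite k y
  have hmon : (minpoly k y).Monic := minpoly.monic hint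
  set P : k[X] := minpoly k y with hP
  have hcf : cf r P ≠ 0 := cf_ne hmon hy
  have hdisc : P.discr ≠ 0 := by
    obtain ⟨N, iF, iN, iA, hsp⟩ := exists_splitting P
    obtain ⟨x, -, hx, -⟩ := Pool.Agent.Helper61.AD.exists_enum (N := N) P hmon
      (minpoly.irreducible hint) hsp hy
    exact (Pool.Agent.Helper61.AD.discr_eq hr P hmon (minpoly.irreducible hint) hy x hx).1
  have hlc : g.leadingCoeff ≠ 0 := leadingCoeff_ne_zero.2 hg.ne_zero
  have hevne : ∀ a ∈ pts g K, (P.map (algebraMap k K)).eval a ≠ 0 := by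
    intro a ha h0
    apply hgy
    unfold pts at ha
    rw [Multiset.mem_toFinset, mem_aroots] at ha
    rw [eval_map_algebraMap] at h0
    have h3 : P = minpoly k a := minpoly.eq_of_irreducible_of_monic (minpoly.irreducible hint) h0 hmon
    have h4 : P ∣ g := by
      rw [h3]
      exact minpoly.dvd k a ha.2
    exact (minpoly.dvd_iff).1 h4
  -- the local comparison
  have hloc : ∀ v : S, ∑ a ∈ pts g K, lch (cf r P) v.1 (w₀ v) 1 (ev r a) +
      lch (cf r P) v.1 (w₀ v) (2 * r - 2) (disc K r) =
      g.natDegree * Real.log (vn v.1 (cf r P)) - Real.log (nv v.1 (Algebra.norm k (aeval y g))) +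
        r * Real.log (nv v.1 g.leadingCoeff) +
        ((2 * r - 2) * Real.log (vn v.1 (cf r P)) - Real.log (nv v.1 P.discr)) := by
    intro v
    have e1 := gal_log_sn (hw₀ v) (cf r P)
    have e2 : lch (cf r P) v.1 (w₀ v) (2 * r - 2) (disc K r) =
        (2 * r - 2) * Real.log (vn v.1 (cf r P)) - Real.log (nv v.1 P.discr) := by
      unfold lch
      rw [eval_disc hr P hmon hy, mul_sub, gal_log (hw₀ v), mul_left_comm, e1,
        Nat.cast_sub (by omega)]
      push_cast
      rfl
    have e3 : Real.log (nv v.1 (Algebra.norm k (aeval y g))) = r * Real.log (nv v.1 g.leadingCoeff) +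
        ∑ a ∈ pts g K, ((above K v.1).card : ℝ) / finrank k K *
          Real.log (nv (w₀ v) ((P.map (algebraMap k K)).eval a)) := by
      have hlc' : algebraMap k K g.leadingCoeff ≠ 0 := (_root_.map_ne_zero _).2 hlc
      have hne : ∀ a ∈ pts g K, ((-1 : K) ^ r * (P.map (algebraMap k K)).eval a) ≠ 0 := fun a ha =>
        mul_ne_zero (pow_ne_zero _ (neg_ne_zero.2 one_ne_zero)) (hevne a ha)
      rw [← gal_log (hw₀ v), norm_eval hg hs hL y hy, nv_mul,
        Real.log_mul (nv_pos _ (pow_ne_zero _ hlc')).ne' (nv_pos _ (Finset.prod_ne_zero_iff.2 hne)).ne',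
        log_nv_prod _ _ _ hne, mul_add, Finset.mul_sum]
      congr 1
      · rw [nv_pow', Real.log_pow, mul_left_comm, gal_log (hw₀ v)]
      · refine Finset.sum_congr rfl fun a ha => ?_
        rw [nv_mul, nv_neg_one_pow', one_mul]
    have e4 : ∑ a ∈ pts g K, lch (cf r P) v.1 (w₀ v) 1 (ev r a) = g.natDegree * Real.log (vn v.1 (cf r P)) -
        ∑ a ∈ pts g K, ((above K v.1).card : ℝ) / finrank k K *
          Real.log (nv (w₀ v) ((P.map (algebraMap k K)).eval a)) := by
      unfold lch
      simp only [mul_sub]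
      rw [Finset.sum_sub_distrib, Finset.sum_const, card_pts hg hs, nsmul_eq_mul, Nat.cast_one, one_mul, e1]
      congr 1
      refine Finset.sum_congr rfl fun a _ => ?_
      rw [eval_ev P hy.le]
    rw [e2, e4, e3]
    ring
  have hsumL : ∀ ν ∈ S, ∑ w ∈ above L ν, (g.natDegree * Real.log (sn w ![y, 1]) - Real.log (nv w (aeval y g))) =
      g.natDegree * ∑ w ∈ above L ν, Real.log (sn w ![y, 1]) - Real.log (nv ν (Algebra.norm k (aeval y g))) := by
    intro ν _
    rw [Finset.sum_sub_distrib, ← Finset.mul_sum, sum_log_norm _ hgy]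
  have hfo := fo_eq S hS r P hcf hdisc
  rw [Finset.sum_congr rfl hsumL, Finset.sum_congr rfl fun v _ => hloc v]
  rw [Finset.sum_coe_sort S (fun v => g.natDegree * Real.log (vn v (cf r P)) -
    Real.log (nv v (Algebra.norm k (aeval y g))) + r * Real.log (nv v g.leadingCoeff) +
        ((2 * r - 2) * Real.log (vn v (cf r P)) - Real.log (nv v P.discr)))]
  simp only [Finset.sum_sub_distrib, Finset.sum_add_distrib] at hfo ⊢
  set Fo := ∑ᶠ (v : FinitePlace k) (_ : Sum.inr v ∉ S),
      ((2 * (r : ℝ) - 2) * Real.log (vn (.inr v) (cf r P)) - Real.log (nv (.inr v) P.discr)) with hFo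
  have e5 : |∑ ν ∈ S, (∑ w ∈ above L ν, Real.log (sn w ![y, 1]) - Real.log (vn ν (cf r P)))| ≤ S.card * c1 := by
    refine (Finset.abs_sum_le_sum_abs _ _).trans ?_
    refine (Finset.sum_le_sum fun ν _ => h1 k L hL y hy ν).trans ?_
    rw [Finset.sum_const, nsmul_eq_mul]
  have e6 := h2 L hL y hy
  rw [Finset.sum_sub_distrib] at e5
  set q : ℝ := (g.natDegree : ℝ) with hq
  have hq0 : 0 ≤ q := Nat.cast_nonneg _
  rw [← Finset.mul_sum, ← Finset.mul_sum, ← Finset.mul_sum, ← Finset.mul_sum]
  rw [← Finset.mul_sum] at hfo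
  rw [← hP] at e6
  set A := ∑ ν ∈ S, ∑ w ∈ above L ν, Real.log (sn w ![y, 1])
  set B := ∑ ν ∈ S, Real.log (vn ν (cf r P))
  set Nn := ∑ ν ∈ S, Real.log (nv ν (Algebra.norm k (aeval y g)))
  set Dd := ∑ ν ∈ S, Real.log (nv ν P.discr)
  set Lc := ∑ ν ∈ S, Real.log (nv ν g.leadingCoeff)
  have e7 : |q * (A - B)| ≤ S.card * (q * c1) := by
    rw [abs_mul, abs_of_nonneg hq0]
    calc q * |A - B| ≤ q * (S.card * c1) := mul_le_mul_of_nonneg_left e5 hq0
      _ = _ := by ring
  rw [abs_le] at e6 e7
  have e8 := le_abs_self (r * Lc)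
  have e9 := neg_abs_le (r * Lc)
  have e10 : q * (A - B) = q * A - q * B := mul_sub _ _ _
  have e11 : 2 * (r : ℝ) * vH (cf r P) = (2 * r - 2) * vH (cf r P) + 2 * vH (cf r P) := by ring
  rw [e10] at e7
  rw [abs_le, e11]
  constructor <;> linarith

end Pool.Agent.Helper36.SB
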