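import Mathlib
import Pool.Agent.Helper52.Vojta.BaseChange

/-!
# Project SB: the Galois group permutes the places above a given place transitively
-/

set_option autoImplicit false

namespace Pool.Agent.Helper36.SB

open NumberField Finset
open Pool.Agent.Helper64.Vojta (Pl nv sn above mem_above)
open Pool.Agent.Helper52.Vojta (ldeg nv_above sum_ldeg)

/-- Under an isomorphism the normalised absolute values correspond to each other. -/
theorem nv_of_degree_one {L L' : Type*} [Field L] [NumberField L] [Field L'] [NumberField L'] [Algebra L L']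
    (h1 : Module.finrank L L' = 1) {ν : Pl L} {w : Pl L'} (h : w ∈ above L' ν) (y : L) :
    nv w (algebraMap L L' y) = nv ν y := by
  have h2 := sum_ldeg (L' := L') ν
  have h3 : ldeg ν w ≤ 1 := by
    rw [← h1, ← h2]
    exact Finset.single_le_sum (f := fun w => ldeg ν w) (fun _ _ => Nat.zero_le _) h
  have h4 : ldeg ν w ≠ 0 := by
    intro h0
    have h5 := nv_above h (0 : L)
    rw [h0, pow_zero, map_zero, Helper64.Vojta.nv_zero] at h5
    exact zero_ne_one h5
  have h5 : ldeg ν w = 1 := by omega
  rw [nv_above h, h5, pow_one]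

/-- Finite places which correspond to each other under an isomorphism. -/
theorem nv_equiv {L L' : Type*} [Field L] [NumberField L] [Field L'] [NumberField L'] (e : L ≃+* L')
    (w : FinitePlace L) (w' : FinitePlace L')
    (h : ∀ x : 𝓞 L, x ∈ w.maximalIdeal.asIdeal ↔
      RingOfIntegers.mapRingHom (e : L →+* L') x ∈ w'.maximalIdeal.asIdeal) (x : L) :
    nv (.inr w') (e x) = nv (.inr w) x := by
  let alg : Algebra L L' := (e : L →+* L').toAlgebra
  have hfr : Module.finrank L L' = 1 := by
    have hb : Function.Bijective (Algebra.linearMap L L') := e.bijective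
    exact (LinearEquiv.ofBijective (Algebra.linearMap L L') hb).finrank_eq.symm.trans (Module.finrank_self L)
  have hab : (Sum.inr w' : Pl L') ∈ above L' (Sum.inr w : Pl L) := by
    rw [mem_above]
    refine (Ideal.liesOver_iff _ _).2 ?_
    ext x
    exact h x
  exact nv_of_degree_one hfr hab x

/-- The Galois group acts transitively on the places above `v`. -/
theorem exists_gal {k L : Type*} [Field k] [NumberField k] [Field L] [NumberField L] [Algebra k L]
    [IsGalois k L] {v : Pl k} {w w' : Pl L} (hw : w ∈ above L v) (hw' : w' ∈ above L v) :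
    ∃ σ : L ≃ₐ[k] L, ∀ x, nv w' (σ x) = nv w x := by
  rw [mem_above] at hw hw'
  rcases v with v | v <;> rcases w with w | w <;> rcases w' with w' | w'
  · have a1 : w.comap (algebraMap k L) = v := @InfinitePlace.LiesOver.comap_eq k L _ _ _ w v hw
    have a2 : w'.comap (algebraMap k L) = v := @InfinitePlace.LiesOver.comap_eq k L _ _ _ w' v hw'
    obtain ⟨σ, hσ⟩ := InfinitePlace.exists_smul_eq_of_comap_eq (k := k) (w := w) (w' := w') (a1.trans a2.symm)
    refine ⟨σ, fun x => ?_⟩
    have hm : w'.mult = w.mult := by
      rw [← hσ]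
      have h0 : InfinitePlace.IsReal (σ • w) ↔ InfinitePlace.IsReal w := InfinitePlace.isReal_smul_iff
      unfold InfinitePlace.mult
      by_cases h : InfinitePlace.IsReal w
      · rw [if_pos h, if_pos (h0.2 h)]
      · rw [if_neg h, if_neg (fun h' => h (h0.1 h'))]
    have h1 : w' (σ x) = w x := by
      rw [← hσ, InfinitePlace.smul_apply]
      congr 1
      exact σ.symm_apply_apply x
    show w' (σ x) ^ w'.mult = w x ^ w.mult
    rw [h1, hm]
  · exact absurd hw' id
  · exact absurd hw id
  · exact absurd hw id
  · exact absurd hw id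
  · exact absurd hw id
  · exact absurd hw' id
  · have a1 : w.maximalIdeal.asIdeal.LiesOver v.maximalIdeal.asIdeal := hw
    have a2 : w'.maximalIdeal.asIdeal.LiesOver v.maximalIdeal.asIdeal := hw'
    have : w.maximalIdeal.asIdeal.IsPrime := w.maximalIdeal.isPrime
    have : w'.maximalIdeal.asIdeal.IsPrime := w'.maximalIdeal.isPrime
    obtain ⟨σ, hσ⟩ := Ideal.exists_smul_eq_of_isGaloisGroup v.maximalIdeal.asIdeal w.maximalIdeal.asIdeal
      w'.maximalIdeal.asIdeal Gal(L/k)
    refine ⟨σ, nv_equiv (σ : L ≃+* L) w w' fun x => ?_⟩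
    have h1 : RingOfIntegers.mapRingHom ((σ : L ≃+* L) : L →+* L) x = σ • x := by
      ext
      rfl
    rw [h1, ← hσ]
    exact Ideal.smul_mem_pointwise_smul_iff.symm

end Pool.Agent.Helper36.SB
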