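import Pool.Agent.Helper36.SB.Disc

/-!
# Project SB: affine coordinates `y_i = P(p_i)` on the space of monic polynomials of degree `r`
-/

set_option autoImplicit false

namespace Pool.Agent.Helper36.SB

open MvPolynomial

/-- The monic polynomial of degree `r` with `Py (p_i) = y_i`. -/
noncomputable def Py {K : Type*} [Field K] {r : ℕ} (p : Fin r → K) : Polynomial (MvPolynomial (Fin r) K) :=
  (∏ i, (Polynomial.X - Polynomial.C (C (p i)))) +
    ∑ i, Polynomial.C (X i) * (Lagrange.basis Finset.univ p i).map C

/-- Substitution of the coefficients of `Py`. -/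
noncomputable def th {K : Type*} [Field K] {r : ℕ} (p : Fin r → K) :
    MvPolynomial (Fin (r + 1)) K →ₐ[K] MvPolynomial (Fin r) K :=
  aeval (fun i : Fin (r + 1) => (Py p).coeff (i : ℕ))

/-- The discriminant in the coordinates `y`. -/
noncomputable def dl {K : Type*} [Field K] {r : ℕ} (p : Fin r → K) : MvPolynomial (Fin r) K := (Py p).discr

section

variable {K : Type*} [Field K] {r : ℕ} {p : Fin r → K}

lemma Py_sum_degree (hr : 0 < r) (hp : Function.Injective p) :
    (∑ i, Polynomial.C (X i) * (Lagrange.basis Finset.univ p i).map (C : K →+* MvPolynomial (Fin r) K)).degree < (r : WithBot ℕ) := by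
  refine (Polynomial.degree_sum_le _ _).trans_lt ?_
  rw [Finset.sup_lt_iff (by exact WithBot.bot_lt_coe r)]
  intro i _
  have h1 : (Lagrange.basis Finset.univ p i).degree < (r : WithBot ℕ) := by
    rw [Lagrange.degree_basis (fun a _ b _ h => hp h) (Finset.mem_univ i)]
    simp only [Finset.card_univ, Fintype.card_fin]
    exact_mod_cast Nat.sub_lt hr one_pos
  refine lt_of_le_of_lt ?_ h1
  rw [Polynomial.degree_C_mul (X_ne_zero i)]
  exact Polynomial.degree_map_le

lemma prod_natDegree : (∏ i, (Polynomial.X - Polynomial.C (C (p i) : MvPolynomial (Fin r) K))).degree = (r : WithBot ℕ) := by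
  rw [Polynomial.degree_prod]
  simp

lemma Py_monic (hp : Function.Injective p) : (Py p).Monic := by
  rcases Nat.eq_zero_or_pos r with h | hr
  · subst h
    unfold Py
    simp
  · unfold Py
    refine Polynomial.Monic.add_of_left (Polynomial.monic_prod_of_monic _ _ fun j _ => Polynomial.monic_X_sub_C _) ?_
    rw [prod_natDegree]
    exact Py_sum_degree hr hp

lemma Py_natDegree (hp : Function.Injective p) : (Py p).natDegree = r := by
  rcases Nat.eq_zero_or_pos r with h | hr
  · subst h
    unfold Py
    simp
  · have : (Py p).degree = (r : WithBot ℕ) := by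
      unfold Py
      rw [Polynomial.degree_add_eq_left_of_degree_lt, prod_natDegree]
      rw [prod_natDegree]
      exact Py_sum_degree hr hp
    exact Polynomial.natDegree_eq_of_degree_eq_some this

lemma Py_eval (hp : Function.Injective p) (i : Fin r) : (Py p).eval (C (p i)) = X i := by
  unfold Py
  rw [Polynomial.eval_add, Polynomial.eval_prod, Finset.prod_eq_zero (Finset.mem_univ i) (by simp), zero_add,
    Polynomial.eval_finsetSum, Finset.sum_eq_single i]
  · rw [Polynomial.eval_mul, Polynomial.eval_C, Polynomial.eval_map, Polynomial.eval₂_at_apply,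
      Lagrange.eval_basis_self (fun a _ b _ h => hp h) (Finset.mem_univ i)]
    simp
  · intro j _ hj
    rw [Polynomial.eval_mul, Polynomial.eval_C, Polynomial.eval_map, Polynomial.eval₂_at_apply,
      Lagrange.eval_basis_of_ne hj (Finset.mem_univ i)]
    simp
  · simp

/-- Uniqueness: a monic polynomial of degree `r` over a domain is determined by its values at the `p_i`. -/
lemma eq_map_Py {B : Type*} [CommRing B] [IsDomain B] (hp : Function.Injective p)
    (φ : MvPolynomial (Fin r) K →+* B) (Q : Polynomial B) (hQ : Q.Monic) (hd : Q.natDegree = r)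
    (h : ∀ i, Q.eval (φ (C (p i))) = φ (X i)) : Q = (Py p).map φ := by
  have hinj : Function.Injective (fun i => φ (C (p i))) := by
    intro i j hij
    have h1 : Function.Injective (φ.comp C : K →+* B) := (φ.comp C).injective
    exact hp (h1 hij)
  have hm : ((Py p).map φ).Monic := (Py_monic hp).map φ
  have hdm : ((Py p).map φ).natDegree = r := by
    rw [(Py_monic hp).natDegree_map, Py_natDegree hp]
  rcases Nat.eq_zero_or_pos r with h0 | hr
  · subst h0
    rw [hQ.natDegree_eq_zero.1 hd, hm.natDegree_eq_zero.1 hdm]
  · have hdeg : (Q - (Py p).map φ).degree < (Finset.univ : Finset (Fin r)).card := by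
      have h1 : Q.degree = ((Py p).map φ).degree := by
        rw [Polynomial.degree_eq_natDegree hQ.ne_zero, Polynomial.degree_eq_natDegree hm.ne_zero, hd, hdm]
      have h2 := Polynomial.degree_sub_lt_left h1 hQ.ne_zero (by rw [hQ.leadingCoeff, hm.leadingCoeff])
      rw [Polynomial.degree_eq_natDegree hQ.ne_zero, hd] at h2
      simpa using h2
    have := Polynomial.eq_of_degree_sub_lt_of_eval_index_eq (s := Finset.univ) (v := fun i => φ (C (p i)))
      (f := Q) (g := (Py p).map φ) (fun a _ b _ hab => hinj hab) hdeg ?_
    · exact this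
    · intro i _
      rw [h i, Polynomial.eval_map, Polynomial.eval₂_at_apply, Py_eval hp i]

lemma gen_map_th (hp : Function.Injective p) :
    (gen K r).map (th p : MvPolynomial (Fin (r + 1)) K →+* MvPolynomial (Fin r) K) = Py p := by
  ext1 n
  rw [Polynomial.coeff_map]
  by_cases h : r < n
  · rw [gen_coeff_of_gt K r h, map_zero, Polynomial.coeff_eq_zero_of_natDegree_lt]
    rw [Py_natDegree hp]; exact h
  · have := gen_coeff K r ⟨n, by omega⟩
    simp only at this
    rw [this]
    simp [th]

lemma th_last (hp : Function.Injective p) : th p (X (Fin.last r)) = 1 := by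
  unfold th
  rw [aeval_X, Fin.val_last]
  have := Py_monic hp
  rw [Polynomial.Monic, Polynomial.leadingCoeff, Py_natDegree hp] at this
  exact this

lemma th_ev (hp : Function.Injective p) (i : Fin r) : th p (ev r (p i)) = X i := by
  rw [← gen_eval, ← Py_eval hp i, ← gen_map_th hp, Polynomial.eval_map]
  have h1 : (C (p i) : MvPolynomial (Fin r) K) =
      (th p : MvPolynomial (Fin (r + 1)) K →+* MvPolynomial (Fin r) K) (C (p i)) := by
    simp
  rw [h1, Polynomial.eval₂_at_apply]
  rfl

lemma th_disc (hr : 0 < r) (hp : Function.Injective p) : th p (disc K r) = dl p := by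
  unfold disc dl
  have h := discr_map (th p : MvPolynomial (Fin (r + 1)) K →+* MvPolynomial (Fin r) K) (gen K r)
    (by rw [gen_natDegree]; exact hr) (by
      rw [gen_leadingCoeff]
      have := th_last hp
      simp only [RingHom.coe_coe]
      rw [this]; exact one_ne_zero)
  rw [gen_map_th hp] at h
  exact h

/-- `th` is injective on forms. -/
lemma th_ne_zero [Infinite K] (hp : Function.Injective p) {m : ℕ} {f : MvPolynomial (Fin (r + 1)) K}
    (hf : f.IsHomogeneous m) (h0 : f ≠ 0) : th p f ≠ 0 := by
  intro h
  apply h0
  have key : X (Fin.last r) * f = 0 := by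
    apply MvPolynomial.funext
    intro c
    rw [map_mul, eval_X, map_zero]
    by_cases hu : c (Fin.last r) = 0
    · rw [hu, zero_mul]
    · set u := c (Fin.last r) with hudef
      -- the polynomial with coefficients `c`
      set Q : Polynomial K := (gen K r).map (eval c) with hQ
      have hQc : ∀ i : Fin (r + 1), Q.coeff (i : ℕ) = c i := by
        intro i
        rw [hQ, Polynomial.coeff_map, gen_coeff, eval_X]
      have hQd : Q.natDegree = r := by
        rw [hQ, Polynomial.natDegree_map_of_leadingCoeff_ne_zero, gen_natDegree]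
        rw [gen_leadingCoeff, eval_X]
        exact hu
      have hQl : Q.leadingCoeff = u := by
        rw [Polynomial.leadingCoeff, hQd]
        have := hQc (Fin.last r)
        rwa [Fin.val_last] at this
      set Q1 : Polynomial K := Polynomial.C u⁻¹ * Q with hQ1
      have hu' : u⁻¹ ≠ 0 := inv_ne_zero hu
      have hQ1m : Q1.Monic := by
        rw [hQ1, Polynomial.Monic, Polynomial.leadingCoeff_mul, Polynomial.leadingCoeff_C, hQl,
          inv_mul_cancel₀ hu]
      have hQ1d : Q1.natDegree = r := by
        rw [hQ1, Polynomial.natDegree_C_mul hu', hQd]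
      have h1 := eq_map_Py hp (eval (fun i => Q1.eval (p i))) Q1 hQ1m hQ1d (by
        intro i
        simp)
      have h2 : ∀ i : Fin (r + 1), eval (fun i => Q1.eval (p i)) ((Py p).coeff (i : ℕ)) = u⁻¹ * c i := by
        intro i
        rw [← Polynomial.coeff_map, ← h1, hQ1, Polynomial.coeff_C_mul, hQc]
      have h3 : eval (fun i => Q1.eval (p i)) (th p f) = eval (fun i => u⁻¹ * c i) f := by
        unfold th
        rw [← aeval_eq_eval, ← aeval_eq_eval, ← AlgHom.comp_apply, comp_aeval]
        congr 2
        funext i
        exact h2 i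
      rw [h, map_zero] at h3
      have h4 : eval (fun i => u⁻¹ * c i) f = u⁻¹ ^ m * eval c f := by
        rw [eval_eq, eval_eq, Finset.mul_sum]
        refine Finset.sum_congr rfl fun d hd => ?_
        have hdm : d.degree = m := by
          by_contra hne
          exact (mem_support_iff.1 hd) (hf.coeff_eq_zero hne)
        rw [Finset.prod_congr rfl (fun i _ => mul_pow u⁻¹ (c i) (d i)), Finset.prod_mul_distrib,
          Finset.prod_pow_eq_pow_sum]
        have hsum : ∑ i ∈ d.support, d i = m := by
          rw [← hdm]
          rfl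
        rw [hsum]; ring
      rw [h4] at h3
      have h5 : eval c f = 0 := by
        rcases mul_eq_zero.1 h3.symm with h6 | h6
        · exact absurd h6 (pow_ne_zero _ hu')
        · exact h6
      rw [h5, mul_zero]
  exact (mul_eq_zero.1 key).resolve_left (X_ne_zero _)

end

end Pool.Agent.Helper36.SB
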