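import Mathlib

/-!
# Project SB (MP_71c16a_nt): the strength of the subspace theorem for points of degree `r` of the
projective line, definitions

A point of degree `r` of the projective line over `k` gives its binary form of degree `r`, i.e. a
point `(c_0, ..., c_r)` of `Sym^r P^1 = P^r`. `gen` is the form with indeterminate coefficients
(dehomogenised), `ev p` its value at `p` and `disc` its discriminant.
-/

set_option autoImplicit false

namespace Pool.Agent.Helper36.SB

open MvPolynomial

/-- The polynomial `c_0 + c_1 T + ... + c_r T^r` with indeterminate coefficients. -/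
noncomputable def gen (K : Type*) [Field K] (r : ℕ) : Polynomial (MvPolynomial (Fin (r + 1)) K) :=
  ∑ i : Fin (r + 1), Polynomial.monomial (i : ℕ) (X i)

/-- The linear form `c_0 + c_1 p + ... + c_r p^r` in the coefficients. -/
noncomputable def ev {K : Type*} [Field K] (r : ℕ) (p : K) : MvPolynomial (Fin (r + 1)) K :=
  ∑ i : Fin (r + 1), C (p ^ (i : ℕ)) * X i

/-- The discriminant of `c_0 + c_1 T + ... + c_r T^r` as a polynomial in the coefficients. -/
noncomputable def disc (K : Type*) [Field K] (r : ℕ) : MvPolynomial (Fin (r + 1)) K := (gen K r).discr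

/-- The points, with coordinates in `K`, of the divisor `g = 0` of the projective line. -/
noncomputable def pts {k : Type*} [Field k] (g : Polynomial k) (K : Type*) [Field K] [Algebra k K] :
    Finset K := by
  classical
  exact (g.aroots K).toFinset

/-- A profile: a family of valuations `w v` of the homogeneous forms over `K` in the coordinates `c_0, ..., c_r`,
indexed by the finite set `ι` (the places in `S`), which satisfies all inequalities which the subspace
theorem gives: for all `n`-dimensional linear systems of forms `f j` of all degrees `m` over `k` and, for each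
place `v`, all systems of `n` independent linear forms over `K` in the `f j`, given by the matrix `M v`. The
value of `w v` at zero plays no role. -/
structure IsProfile (k : Type*) {K : Type*} [Field k] [Field K] [Algebra k K] (r : ℕ) {ι : Type*} [Fintype ι]
    (w : ι → MvPolynomial (Fin (r + 1)) K → ℝ) : Prop where
  nonneg : ∀ v m f, f.IsHomogeneous m → f ≠ 0 → 0 ≤ w v f
  mul : ∀ v m n f g, f.IsHomogeneous m → g.IsHomogeneous n → f ≠ 0 → g ≠ 0 → w v (f * g) = w v f + w v g
  add : ∀ v m f g, f.IsHomogeneous m → g.IsHomogeneous m → f ≠ 0 → g ≠ 0 → f + g ≠ 0 →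
    min (w v f) (w v g) ≤ w v (f + g)
  const : ∀ v (a : K), a ≠ 0 → w v (C a) = 0
  coord : ∀ v, ∃ i, w v (X i) = 0
  subspace : ∀ (m n : ℕ) (f : Fin n → MvPolynomial (Fin (r + 1)) k) (M : ι → Matrix (Fin n) (Fin n) K),
    (∀ j, (f j).IsHomogeneous m) → LinearIndependent k f → (∀ v, (M v).det ≠ 0) →
    ∑ v, ∑ i, w v (∑ j, C (M v i j) * map (algebraMap k K) (f j)) ≤ m * n

end Pool.Agent.Helper36.SB
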