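import Pool.Agent.Helper36.SB.Defs

/-!
# Project SB: the discriminant
-/

set_option autoImplicit false

namespace Pool.Agent.Helper36.SB

open MvPolynomial

section gen

variable (K : Type*) [Field K] (r : ℕ)

lemma gen_coeff (i : Fin (r + 1)) : (gen K r).coeff (i : ℕ) = X i := by
  unfold gen
  rw [Polynomial.finsetSum_coeff]
  rw [Finset.sum_eq_single i]
  · simp
  · intro j _ hj
    rw [Polynomial.coeff_monomial, if_neg]
    intro h
    exact hj (Fin.ext h)
  · simp

lemma gen_coeff_of_gt {n : ℕ} (h : r < n) : (gen K r).coeff n = 0 := by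
  unfold gen
  rw [Polynomial.finsetSum_coeff]
  refine Finset.sum_eq_zero fun i _ => ?_
  rw [Polynomial.coeff_monomial, if_neg]
  have := i.2
  omega

lemma gen_coeff_isHomogeneous (n : ℕ) : ((gen K r).coeff n).IsHomogeneous 1 := by
  by_cases h : r < n
  · rw [gen_coeff_of_gt K r h]; exact isHomogeneous_zero _ _ _
  · have := gen_coeff K r ⟨n, by omega⟩
    simp only at this
    rw [this]; exact isHomogeneous_X _ _

lemma gen_natDegree : (gen K r).natDegree = r := by
  refine le_antisymm ?_ ?_
  · rw [Polynomial.natDegree_le_iff_coeff_eq_zero]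
    intro n hn
    exact gen_coeff_of_gt K r (by exact_mod_cast hn)
  · apply Polynomial.le_natDegree_of_ne_zero
    have := gen_coeff K r (Fin.last r)
    rw [Fin.val_last] at this
    rw [this]
    exact X_ne_zero _

lemma gen_leadingCoeff : (gen K r).leadingCoeff = X (Fin.last r) := by
  unfold Polynomial.leadingCoeff
  rw [gen_natDegree]
  have := gen_coeff K r (Fin.last r)
  rwa [Fin.val_last] at this

lemma gen_eval (p : K) : (gen K r).eval (C p) = ev r p := by
  unfold gen ev
  rw [Polynomial.eval_finsetSum]
  refine Finset.sum_congr rfl fun i _ => ?_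
  rw [Polynomial.eval_monomial, map_pow, mul_comm]

lemma ev_isHomogeneous (p : K) : (ev r p).IsHomogeneous 1 := by
  unfold ev
  refine IsHomogeneous.sum _ _ _ fun i _ => ?_
  exact (isHomogeneous_X _ _).C_mul _

lemma ev_ne_zero (p : K) : ev r p ≠ 0 := by
  intro h
  have h1 : (ev r p).coeff (Finsupp.single 0 1) = 1 := by
    unfold ev
    rw [coeff_sum, Finset.sum_eq_single 0]
    · simp
    · intro j _ hj
      rw [coeff_C_mul, coeff_X, if_neg]
      · simp
      · intro h2
        have := DFunLike.congr_fun h2 j
        simp only [Finsupp.single_apply, if_true] at this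
        split_ifs at this with h3
        · exact hj h3.symm
    · simp
  rw [h] at h1
  simp at h1

/-- The discriminant is homogeneous of degree `2 r - 2`. -/
lemma disc_isHomogeneous (hr : 0 < r) : (disc K r).IsHomogeneous (2 * r - 2) := by
  unfold disc Polynomial.discr
  rw [mul_comm]
  have hsg : ∀ n : ℕ, ((-1 : MvPolynomial (Fin (r + 1)) K)) ^ n = C ((-1) ^ n) := by
    intro n; simp
  rw [hsg]
  refine IsHomogeneous.C_mul ?_ _
  have hdeg := gen_natDegree K r
  rw [Matrix.det_apply']
  refine IsHomogeneous.sum _ _ _ fun σ _ => ?_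
  have hs : ((Equiv.Perm.sign σ : ℤ) : MvPolynomial (Fin (r + 1)) K) = C ((Equiv.Perm.sign σ : ℤ) : K) := by
    simp
  rw [hs]
  refine IsHomogeneous.C_mul ?_ _
  -- entries
  have hent : ∀ i j, ((gen K r).sylvesterDeriv i j).IsHomogeneous (if (i : ℕ) = 2 * r - 2 then 0 else 1) := by
    intro i j
    unfold Polynomial.sylvesterDeriv
    rw [dif_neg (by rw [hdeg]; omega)]
    rw [Matrix.updateRow_apply]
    by_cases hi : (i : ℕ) = 2 * r - 2
    · rw [if_pos hi, if_pos (by ext; simp only [hdeg]; exact hi)]
      split_ifs
      · exact isHomogeneous_one _ _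
      · have : (((gen K r).natDegree : ℕ) : MvPolynomial (Fin (r + 1)) K) = C (((gen K r).natDegree : ℕ) : K) := by simp
        rw [this]
        exact isHomogeneous_C _ _
      · exact isHomogeneous_zero _ _ _
    · rw [if_neg hi, if_neg (fun h => hi (by rw [h]; simp only [hdeg]))]
      unfold Polynomial.sylvester
      rw [Matrix.of_apply]
      refine Fin.addCases (fun j₁ => ?_) (fun j₁ => ?_) j
      · rw [Fin.addCases_left]
        split_ifs
        · exact gen_coeff_isHomogeneous K r _
        · exact isHomogeneous_zero _ _ _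
      · rw [Fin.addCases_right]
        split_ifs
        · rw [Polynomial.coeff_derivative]
          have : ∀ n : ℕ, ((n : MvPolynomial (Fin (r + 1)) K) + 1) = C ((n : K) + 1) := by intro n; simp
          rw [this, mul_comm]
          exact (gen_coeff_isHomogeneous K r _).C_mul _
        · exact isHomogeneous_zero _ _ _
  have hprod := IsHomogeneous.prod Finset.univ (fun i => (gen K r).sylvesterDeriv (σ i) i) _
    (fun i _ => hent (σ i) i)
  convert hprod using 1
  rw [Equiv.sum_comp σ (fun i => if (i : ℕ) = 2 * r - 2 then 0 else 1)]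
  have h1 : ∑ i : Fin ((gen K r).natDegree - 1 + (gen K r).natDegree), (if (i : ℕ) = 2 * r - 2 then 0 else 1) =
      ∑ i ∈ Finset.range ((gen K r).natDegree - 1 + (gen K r).natDegree), (if i = 2 * r - 2 then 0 else 1) :=
    Fin.sum_univ_eq_sum_range (fun i => if i = 2 * r - 2 then 0 else 1) _
  rw [h1, hdeg]
  have h2 : r - 1 + r = (2 * r - 2) + 1 := by omega
  rw [h2, Finset.sum_range_succ, if_pos rfl, add_zero]
  rw [Finset.sum_congr rfl (fun i hi => if_neg (by rw [Finset.mem_range] at hi; omega))]
  simp

end gen

section discr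

/-- The discriminant commutes with homomorphisms which do not kill the leading coefficient. -/
lemma discr_map {A B : Type*} [CommRing A] [CommRing B] [IsDomain B] (φ : A →+* B)
    (f : Polynomial A) (hf : 0 < f.natDegree) (h : φ f.leadingCoeff ≠ 0) :
    φ f.discr = (f.map φ).discr := by
  have hdeg : (f.map φ).natDegree = f.natDegree := Polynomial.natDegree_map_of_leadingCoeff_ne_zero φ h
  have hlc : (f.map φ).leadingCoeff = φ f.leadingCoeff := Polynomial.leadingCoeff_map_of_leadingCoeff_ne_zero φ h
  have h1 := Polynomial.resultant_deriv (f := f) (Polynomial.natDegree_pos_iff_degree_pos.1 hf)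
  have h2 := Polynomial.resultant_deriv (f := f.map φ)
    (Polynomial.natDegree_pos_iff_degree_pos.1 (by rw [hdeg]; exact hf))
  rw [hdeg, Polynomial.derivative_map, Polynomial.resultant_map_map, h1, hlc] at h2
  rw [map_mul, map_mul, map_pow, map_neg, map_one] at h2
  have h3 : (-1 : B) ^ (f.natDegree * (f.natDegree - 1) / 2) * φ f.leadingCoeff ≠ 0 :=
    mul_ne_zero (pow_ne_zero _ (neg_ne_zero.2 one_ne_zero)) h
  exact mul_left_cancel₀ h3 h2

/-- The discriminant of a product of linear factors. -/
lemma discr_prod {B : Type*} [CommRing B] [IsDomain B] {r : ℕ} (hr : 0 < r) (x : Fin r → B) :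
    (-1) ^ (r * (r - 1) / 2) * (∏ j, (Polynomial.X - Polynomial.C (x j))).discr =
      ∏ i, ∏ j ∈ Finset.univ.erase i, (x i - x j) := by
  set f : Polynomial B := ∏ j, (Polynomial.X - Polynomial.C (x j)) with hf
  have hmon : f.Monic := Polynomial.monic_prod_of_monic _ _ fun j _ => Polynomial.monic_X_sub_C _
  have hdeg : f.natDegree = r := by
    rw [hf, Polynomial.natDegree_prod_of_monic _ _ fun j _ => Polynomial.monic_X_sub_C _]
    simp
  have h1 := Polynomial.resultant_deriv (f := f) (Polynomial.natDegree_pos_iff_degree_pos.1 (by rw [hdeg]; exact hr))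
  rw [hmon.leadingCoeff, mul_one, hdeg] at h1
  rw [← h1]
  have h2 : f.derivative.natDegree ≤ r - 1 := by
    have := Polynomial.natDegree_derivative_le f
    rwa [hdeg] at this
  have h3 : f.resultant f.derivative r (r - 1) =
      ∏ j : Fin r, (Polynomial.X - Polynomial.C (x j)).resultant f.derivative
        (Polynomial.X - Polynomial.C (x j)).natDegree (r - 1) := by
    have := Polynomial.resultant_prod_left Finset.univ (fun j : Fin r => Polynomial.X - Polynomial.C (x j))
      f.derivative (r - 1) (by simp) h2
    rw [← hf, hdeg] at this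
    exact this
  rw [h3]
  refine Finset.prod_congr rfl fun i _ => ?_
  rw [Polynomial.natDegree_X_sub_C, Polynomial.resultant_X_sub_C_left _ _ _ h2]
  rw [hf, Polynomial.derivative_prod_finset, Polynomial.eval_finsetSum, Finset.sum_eq_single i]
  · rw [Polynomial.eval_mul, Polynomial.eval_prod]
    simp
  · intro j _ hj
    rw [Polynomial.eval_mul, Polynomial.eval_prod]
    rw [Finset.prod_eq_zero (Finset.mem_erase.2 ⟨hj.symm, Finset.mem_univ i⟩) (by simp), zero_mul]
  · simp

end discr

end Pool.Agent.Helper36.SB
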