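import Pool.Agent.Helper36.SB.Upper

/-!
# Project SB: the maximum over all profiles
-/

set_option autoImplicit false

namespace Pool.Agent.Helper36.SB

open MvPolynomial

section upper

variable {k K : Type*} [Field k] [Field K] [Algebra k K] {r : ℕ} {ι : Type*} [Fintype ι]
  {w : ι → MvPolynomial (Fin (r + 1)) K → ℝ}

lemma IsProfile.sum_ge (h : IsProfile k r w) (v : ι) {m : ℕ} {c : ℝ} {α : Type*} (s : Finset α)
    (f : α → MvPolynomial (Fin (r + 1)) K) (hf : ∀ i, (f i).IsHomogeneous m)
    (hc : ∀ i, f i = 0 ∨ c ≤ w v (f i)) : ∑ i ∈ s, f i = 0 ∨ c ≤ w v (∑ i ∈ s, f i) := by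
  classical
  induction s using Finset.induction_on with
  | empty => left; rfl
  | insert a s ha ih =>
    rw [Finset.sum_insert ha]
    by_cases h0 : f a + ∑ i ∈ s, f i = 0
    · exact Or.inl h0
    · right
      rcases hc a with h1 | h1
      · rw [h1, zero_add] at h0 ⊢
        exact ih.resolve_left h0
      · rcases ih with h2 | h2
        · rw [h2, add_zero]; exact h1
        · by_cases h3 : f a = 0
          · rw [h3, zero_add] at h0 ⊢
            exact h2
          · by_cases h4 : ∑ i ∈ s, f i = 0
            · rw [h4, add_zero]; exact h1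
            · exact (le_min h1 h2).trans (h.add v m _ _ (hf a) (IsHomogeneous.sum _ _ _ fun i _ => hf i) h3 h4 h0)

/-- Among `r + 1` different points one has `w v (ev p) = 0`. -/
lemma IsProfile.exists_zero (h : IsProfile k r w) (v : ι) (a : Fin (r + 1) → K) (ha : Function.Injective a) :
    ∃ j, w v (ev r (a j)) = 0 := by
  by_contra hcon
  push Not at hcon
  have hpos : ∀ j, 0 < w v (ev r (a j)) := fun j =>
    lt_of_le_of_ne (h.nonneg v _ _ (ev_isHomogeneous K r _) (ev_ne_zero K r _)) (hcon j).symm
  obtain ⟨j0, _, hj0⟩ := Finset.exists_min_image Finset.univ (fun j => w v (ev r (a j))) ⟨0, Finset.mem_univ _⟩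
  obtain ⟨i, hi⟩ := h.coord v
  have hV : (Matrix.vandermonde a).det ≠ 0 := Matrix.det_vandermonde_ne_zero_iff.2 ha
  set V : Matrix (Fin (r + 1)) (Fin (r + 1)) K := (Matrix.vandermonde a)⁻¹ with hVdef
  have hX : X i = ∑ j, C (V i j) * ev r (a j) := by
    have h1 : V * Matrix.vandermonde a = 1 :=
      Matrix.nonsing_inv_mul _ (isUnit_iff_ne_zero.2 hV)
    unfold ev
    simp_rw [Finset.mul_sum]
    rw [Finset.sum_comm]
    have h2 : ∀ l : Fin (r + 1), ∑ j, C (V i j) * (C (a j ^ (l : ℕ)) * X l) =
        C ((V * Matrix.vandermonde a) i l) * (X l : MvPolynomial (Fin (r + 1)) K) := by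
      intro l
      rw [Matrix.mul_apply, map_sum, Finset.sum_mul]
      refine Finset.sum_congr rfl fun j _ => ?_
      rw [Matrix.vandermonde_apply, MvPolynomial.C_mul, mul_assoc]
    simp_rw [h2, h1]
    rw [Finset.sum_eq_single i]
    · simp
    · intro l _ hl
      rw [Matrix.one_apply_ne (Ne.symm hl), C_0, zero_mul]
    · simp
  have hc : ∀ j : Fin (r + 1), C (V i j) * ev r (a j) = 0 ∨ w v (ev r (a j0)) ≤ w v (C (V i j) * ev r (a j)) := by
    intro j
    by_cases h0 : V i j = 0
    · left; rw [h0, C_0, zero_mul]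
    · right
      rw [h.C_mul v h0 (ev_isHomogeneous K r _) (ev_ne_zero K r _)]
      exact hj0 j (Finset.mem_univ _)
  have h3 := h.sum_ge v (m := 1) (c := w v (ev r (a j0))) Finset.univ
    (fun j => C (V i j) * ev r (a j)) (fun j => (ev_isHomogeneous K r _).C_mul _) hc
  rw [← hX] at h3
  rcases h3 with h3 | h3
  · exact X_ne_zero i h3
  · rw [hi] at h3
    exact absurd h3 (not_le.2 (hpos j0))

lemma card_pts [CharZero k] {g : Polynomial k} (hg : Squarefree g)
    (hs : (g.map (algebraMap k K)).Splits) : (pts g K).card = g.natDegree := by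
  classical
  have hsep : g.Separable := PerfectField.separable_iff_squarefree.2 hg
  have h1 : (g.aroots K).Nodup := Polynomial.nodup_roots hsep.map
  unfold pts
  rw [Multiset.toFinset_card_of_nodup h1, Polynomial.aroots_def]
  have h2 := Polynomial.splits_iff_card_roots.1 hs
  rw [h2, Polynomial.natDegree_map]

lemma upper_liouville [CharZero k] (h : IsProfile k r w) {g : Polynomial k} (hg : Squarefree g)
    (hs : (g.map (algebraMap k K)).Splits) :
    ∑ v, ∑ a ∈ pts g K, w v (ev r a) ≤ g.natDegree := by
  classical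
  have hsep : g.Separable := PerfectField.separable_iff_squarefree.2 hg
  have hnd : (g.aroots K).Nodup := Polynomial.nodup_roots hsep.map
  have hlc : algebraMap k K g.leadingCoeff ≠ 0 := by
    rw [Ne, map_eq_zero]
    exact Polynomial.leadingCoeff_ne_zero.2 hg.ne_zero
  set q := g.natDegree with hq
  set R : MvPolynomial (Fin (r + 1)) k := (g.map C).resultant (gen k r) q r with hR
  have hprod : g.map (algebraMap k K) = Polynomial.C (algebraMap k K g.leadingCoeff) *
      ∏ a ∈ pts g K, (Polynomial.X - Polynomial.C a) := by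
    have h1 := hs.eq_prod_roots
    rw [Polynomial.leadingCoeff_map] at h1
    conv_lhs => rw [h1]
    congr 1
    unfold pts
    rw [Finset.prod_eq_multiset_prod, Multiset.toFinset_val, Multiset.dedup_eq_self.2 hnd]
  have hmapR : map (algebraMap k K) R = C ((algebraMap k K g.leadingCoeff) ^ r) * ∏ a ∈ pts g K, ev r a := by
    rw [hR, ← Polynomial.resultant_map_map, map_gen, Polynomial.map_map]
    have h1 : (map (algebraMap k K)).comp C = (C : K →+* MvPolynomial (Fin (r + 1)) K).comp (algebraMap k K) := by
      ext x; simp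
    rw [h1, ← Polynomial.map_map, hprod, Polynomial.map_mul, Polynomial.map_C, Polynomial.map_prod,
      Polynomial.resultant_C_mul_left, map_pow]
    congr 1
    have h4 : ∏ a ∈ pts g K, Polynomial.map (C : K →+* MvPolynomial (Fin (r + 1)) K)
        (Polynomial.X - Polynomial.C a) = ∏ a ∈ pts g K, (Polynomial.X - Polynomial.C (C a)) :=
      Finset.prod_congr rfl fun a _ => by rw [Polynomial.map_sub, Polynomial.map_X, Polynomial.map_C]
    rw [h4]
    have h2 : (∏ a ∈ pts g K, (Polynomial.X - Polynomial.C (C a : MvPolynomial (Fin (r + 1)) K))).natDegree = q := by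
      rw [Polynomial.natDegree_prod_of_monic _ _ fun j _ => Polynomial.monic_X_sub_C _,
        Finset.sum_congr rfl (fun j _ => Polynomial.natDegree_X_sub_C _), Finset.sum_const, smul_eq_mul,
        mul_one, card_pts hg hs]
    have h3 := Polynomial.resultant_prod_left (pts g K)
      (fun a => Polynomial.X - Polynomial.C (C a : MvPolynomial (Fin (r + 1)) K)) (gen K r) r (by simp)
      (gen_natDegree K r).le
    rw [h2] at h3
    rw [h3]
    refine Finset.prod_congr rfl fun a _ => ?_
    rw [Polynomial.natDegree_X_sub_C, Polynomial.resultant_X_sub_C_left _ _ _ (gen_natDegree K r).le, gen_eval]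
  have hprodh : (∏ a ∈ pts g K, ev r a).IsHomogeneous q := by
    have := IsHomogeneous.prod (pts g K) (fun a => ev r a) (fun _ => 1) (fun a _ => ev_isHomogeneous K r a)
    rwa [Finset.sum_const, smul_eq_mul, mul_one, card_pts hg hs] at this
  have hprod0 : ∏ a ∈ pts g K, ev r a ≠ 0 := Finset.prod_ne_zero_iff.2 fun a _ => ev_ne_zero K r a
  have hRh : R.IsHomogeneous q := by
    apply IsHomogeneous.of_map (f := algebraMap k K) (algebraMap k K).injective
    rw [hmapR]
    exact hprodh.C_mul _
  have hR0 : R ≠ 0 := by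
    intro h0
    rw [h0, map_zero] at hmapR
    exact mul_ne_zero (by rw [Ne, C_eq_zero]; exact pow_ne_zero _ hlc) hprod0 hmapR.symm
  have h1 := h.liouville R hRh hR0
  refine le_trans (le_of_eq ?_) h1
  refine Finset.sum_congr rfl fun v _ => ?_
  rw [hmapR, h.C_mul v (pow_ne_zero _ hlc) hprodh hprod0]
  have h2 := h.prod v (pts g K) (fun a => ev r a) (fun a => ev_isHomogeneous K r a) (fun a => ev_ne_zero K r a)
    (fun _ => 1)
  simp only [pow_one, Nat.cast_one, one_mul] at h2
  exact h2.symm

theorem upper [CharZero k] [CharZero K] (hr : 2 ≤ r) (h : IsProfile k r w) {g : Polynomial k}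
    (hg : Squarefree g) (hs : (g.map (algebraMap k K)).Splits) :
    ∑ v, (∑ a ∈ pts g K, w v (ev r a) + w v (disc K r)) ≤ min g.natDegree r + (2 * r - 2) := by
  classical
  rw [Finset.sum_add_distrib]
  have hD := h.disc_le (by omega)
  rcases le_total g.natDegree r with hq | hq
  · have h1 := upper_liouville h hg hs
    rw [min_eq_left hq]
    linarith
  · rw [min_eq_right hq]
    have hT : ∀ v, ∃ p : Fin r → K, Function.Injective p ∧
        ∑ a ∈ pts g K, w v (ev r a) = ∑ i, w v (ev r (p i)) := by
      intro v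
      set E := (pts g K).filter (fun a => w v (ev r a) ≠ 0) with hE
      have hEc : E.card ≤ r := by
        by_contra hcon
        push Not at hcon
        obtain ⟨E', hE', hE'c⟩ := Finset.exists_subset_card_eq (n := r + 1) (s := E) hcon
        have e := (E'.equivFinOfCardEq hE'c).symm
        obtain ⟨j, hj⟩ := h.exists_zero v (fun j => (e j).1) (Subtype.val_injective.comp e.injective)
        have := hE' (e j).2
        rw [hE, Finset.mem_filter] at this
        exact this.2 hj
      obtain ⟨T, hT1, hT2, hT3⟩ := Finset.exists_subsuperset_card_eq (Finset.filter_subset _ _ : E ⊆ pts g K) hEc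
        (by rw [card_pts hg hs]; exact hq)
      have e := (T.equivFinOfCardEq hT3).symm
      refine ⟨fun j => (e j).1, Subtype.val_injective.comp e.injective, ?_⟩
      have h3 : ∑ a ∈ pts g K, w v (ev r a) = ∑ a ∈ T, w v (ev r a) := by
        symm
        apply Finset.sum_subset hT2
        intro a ha haT
        by_contra h0
        exact haT (hT1 (by rw [Finset.mem_filter]; exact ⟨ha, h0⟩))
      rw [h3, Equiv.sum_comp e (fun x => w v (ev r x.1))]
      exact (Finset.sum_coe_sort T (fun a => w v (ev r a))).symm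
    choose p hp1 hp2 using hT
    have h3 := main_ineq hr h p hp1
    rw [← Finset.sum_congr rfl fun v _ => hp2 v] at h3
    set L := ∑ v, ∑ a ∈ pts g K, w v (ev r a)
    set D := ∑ v, w v (disc K r)
    have hr' : (2 : ℝ) ≤ r := by exact_mod_cast hr
    have hN : (0 : ℝ) < 2 * r - 2 := by linarith
    have h4 : D ≤ D / (2 * r - 2) + (2 * r - 3) := by
      rw [← sub_le_iff_le_add, le_div_iff₀ hN]
      nlinarith
    linarith

end upper

section lower

variable {k K : Type*} [Field k] [Field K] [Algebra k K] [CharZero K] [IsAlgClosed K] {r : ℕ}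
  {ι : Type*} [Fintype ι]

omit [IsAlgClosed K] in
lemma od_th_ev_self {p : Fin r → K} (hp : Function.Injective p) (i : Fin r) :
    od (th p (ev r (p i))) = 1 := by
  rw [th_ev hp]
  refine le_antisymm ?_ ?_
  · have : coeff (Finsupp.single i 1) (X i : MvPolynomial (Fin r) K) ≠ 0 := by simp
    have := od_le this
    simpa using this
  · apply le_od (X_ne_zero i)
    intro a ha
    have : a = 0 := by
      rw [← Finsupp.degree_eq_zero_iff]
      omega
    rw [this]
    simp

omit [CharZero K] [IsAlgClosed K] in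
lemma od_th_ev_of_ne {p : Fin r → K} (hp : Function.Injective p) {a : K} (ha : ∀ i, p i ≠ a) :
    od (th p (ev r a)) = 0 := by
  apply od_eq_zero
  have h1 : (Py p).map (eval (0 : Fin r → K)) = ∏ j, (Polynomial.X - Polynomial.C (p j)) := by
    symm
    apply eq_map_Py hp
    · exact Polynomial.monic_prod_of_monic _ _ fun j _ => Polynomial.monic_X_sub_C _
    · rw [Polynomial.natDegree_prod_of_monic _ _ fun j _ => Polynomial.monic_X_sub_C _]
      simp
    · intro i
      rw [Polynomial.eval_prod, eval_X, Pi.zero_apply]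
      exact Finset.prod_eq_zero (Finset.mem_univ i) (by simp)
  have h2 : th p (ev r a) = (Py p).eval (C a) := by
    rw [← gen_eval, ← gen_map_th hp, Polynomial.eval_map]
    have h3 : (C a : MvPolynomial (Fin r) K) =
        (th p : MvPolynomial (Fin (r + 1)) K →+* MvPolynomial (Fin r) K) (C a) := by
      simp
    rw [h3, Polynomial.eval₂_at_apply]
    rfl
  have h3 : coeff 0 (th p (ev r a)) = ((Py p).map (eval (0 : Fin r → K))).eval a := by
    rw [h2, ← constantCoeff_eq, ← eval_zero]
    have h4 : a = eval (0 : Fin r → K) (C a) := by simp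
    conv_rhs => rw [h4]
    rw [Polynomial.eval_map, Polynomial.eval₂_at_apply]
  rw [h3, h1, Polynomial.eval_prod, Finset.prod_ne_zero_iff]
  intro i _
  rw [Polynomial.eval_sub, Polynomial.eval_X, Polynomial.eval_C, sub_ne_zero]
  exact (ha i).symm

lemma mult_th_ev (hr : 2 ≤ r) {p : Fin r → K} (hp : Function.Injective p) (a : K) :
    multiplicity (dl p) (th p (ev r a)) = 0 := by
  rw [multiplicity_eq_zero]
  rintro ⟨c, hc⟩
  have h0 := th_ne_zero hp (ev_isHomogeneous K r a) (ev_ne_zero K r a)
  have h1 := th_totalDegree (p := p) (ev_isHomogeneous K r a)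
  have hc0 : c ≠ 0 := by
    rintro rfl
    rw [mul_zero] at hc
    exact h0 hc
  rw [hc, totalDegree_mul_of_isDomain (prime_dl hr hp).ne_zero hc0, dl_totalDegree hr hp] at h1
  omega

theorem lower_closed [CharZero k] (hr : 2 ≤ r) {g : Polynomial k} (hg : Squarefree g) (hι : 2 ≤ Fintype.card ι) :
    ∃ w : ι → MvPolynomial (Fin (r + 1)) K → ℝ, IsProfile k r w ∧
      ∑ v, (∑ a ∈ pts g K, w v (ev r a) + w v (disc K r)) = min g.natDegree r + (2 * r - 2) := by
  classical
  obtain ⟨v₁, v₂, hv⟩ := Fintype.exists_pair_of_one_lt_card (α := ι) (by omega)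
  have hinf : Infinite K := IsAlgClosed.instInfinite
  have hs : (g.map (algebraMap k K)).Splits := IsAlgClosed.splits _
  -- the roots of the centre
  obtain ⟨T, hTc, hT⟩ : ∃ T : Finset K, T.card = r ∧ (pts g K ∩ T).card = min g.natDegree r := by
    rcases le_total g.natDegree r with hq | hq
    · obtain ⟨T, hT1, hT2⟩ := Infinite.exists_superset_card_eq (pts g K) r (by rw [card_pts hg hs]; exact hq)
      exact ⟨T, hT2, by rw [Finset.inter_eq_left.2 hT1, card_pts hg hs, min_eq_left hq]⟩
    · obtain ⟨T, hT1, hT2⟩ := Finset.exists_subset_card_eq (n := r) (s := pts g K) (by rw [card_pts hg hs]; exact hq)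
      exact ⟨T, hT2, by rw [Finset.inter_eq_right.2 hT1, hT2, min_eq_right hq]⟩
  have e := (T.equivFinOfCardEq hTc).symm
  set p : Fin r → K := fun j => (e j).1 with hpdef
  have hp : Function.Injective p := Subtype.val_injective.comp e.injective
  have hrange : ∀ a, a ∈ T ↔ ∃ i, p i = a := by
    intro a
    constructor
    · intro ha
      exact ⟨e.symm ⟨a, ha⟩, by rw [hpdef]; simp⟩
    · rintro ⟨i, rfl⟩
      exact (e i).2
  refine ⟨wx p v₁ v₂, wx_isProfile hr hp hv, ?_⟩
  have hev : ∀ v a, wx p v₁ v₂ v (ev r a) = if v = v₁ then (if a ∈ T then 1 else 0) else 0 := by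
    intro v a
    unfold wx
    split_ifs with h1 h2 h2
    · obtain ⟨i, rfl⟩ := (hrange a).1 h2
      rw [od_th_ev_self hp]; simp
    · rw [od_th_ev_of_ne hp]
      · simp
      · intro i hi
        exact h2 ((hrange a).2 ⟨i, hi⟩)
    · rw [mult_th_ev hr hp]; simp
    · rfl
  have hdisc : ∀ v, wx p v₁ v₂ v (disc K r) = if v = v₂ then 2 * (r : ℝ) - 2 else 0 := by
    intro v
    unfold wx
    rw [th_disc (by omega) hp]
    split_ifs with h1 h2 h2
    · exact absurd (h1.symm.trans h2) hv
    · rw [od_eq_zero (dl_coeff_zero hr hp)]; simp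
    · have : multiplicity (dl p) (dl p) = 1 := by
        apply multiplicity_self
      rw [this]; simp
    · rfl
  rw [Finset.sum_add_distrib]
  simp_rw [hev, hdisc]
  rw [Finset.sum_ite_eq' Finset.univ v₂, if_pos (Finset.mem_univ _)]
  congr 1
  rw [Finset.sum_comm]
  have h1 : ∀ a ∈ pts g K, (∑ v, if v = v₁ then (if a ∈ T then (1 : ℝ) else 0) else 0) = if a ∈ T then 1 else 0 := by
    intro a _
    rw [Finset.sum_ite_eq' Finset.univ v₁, if_pos (Finset.mem_univ _)]
  rw [Finset.sum_congr rfl h1, Finset.sum_ite_mem, Finset.sum_const, hT]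
  simp

end lower

section lower'

variable {k K : Type*} [Field k] [Field K] [Algebra k K] [CharZero K] {r : ℕ} {ι : Type*} [Fintype ι]

omit [CharZero K] in
/-- Restriction of a profile to a smaller field of constants. -/
lemma IsProfile.restrict {K' : Type*} [Field K'] [Algebra k K'] [Algebra K K'] [IsScalarTower k K K']
    {w : ι → MvPolynomial (Fin (r + 1)) K' → ℝ} (h : IsProfile k r w) :
    IsProfile k r (fun v (f : MvPolynomial (Fin (r + 1)) K) => w v (map (algebraMap K K') f)) := by
  have hinj : Function.Injective (map (σ := Fin (r + 1)) (algebraMap K K')) :=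
    map_injective _ (algebraMap K K').injective
  have h0 : ∀ f : MvPolynomial (Fin (r + 1)) K, f ≠ 0 → map (algebraMap K K') f ≠ 0 := by
    intro f hf h0
    exact hf (hinj (by rw [h0, map_zero]))
  refine ⟨?_, ?_, ?_, ?_, ?_, ?_⟩
  · intro v m f hf hf0
    exact h.nonneg v m _ (hf.map _) (h0 _ hf0)
  · intro v m n f g hf hg hf0 hg0
    show w v (map _ (f * g)) = _
    rw [map_mul]
    exact h.mul v m n _ _ (hf.map _) (hg.map _) (h0 _ hf0) (h0 _ hg0)
  · intro v m f g hf hg hf0 hg0 hfg
    show _ ≤ w v (map _ (f + g))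
    have := h0 _ hfg
    rw [map_add] at this ⊢
    exact h.add v m _ _ (hf.map _) (hg.map _) (h0 _ hf0) (h0 _ hg0) this
  · intro v a ha
    show w v (map _ (C a)) = 0
    rw [map_C]
    exact h.const v _ ((map_ne_zero _).2 ha)
  · intro v
    obtain ⟨i, hi⟩ := h.coord v
    refine ⟨i, ?_⟩
    show w v (map _ (X i)) = 0
    rw [map_X, hi]
  · intro m n f M hf hli hM
    have h1 := h.subspace m n f (fun v => (M v).map (algebraMap K K')) hf hli (by
      intro v
      have h2 : ((M v).map (algebraMap K K')).det = algebraMap K K' (M v).det :=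
        (RingHom.map_det (algebraMap K K') (M v)).symm
      rw [h2]
      exact (map_ne_zero _).2 (hM v))
    refine le_trans (le_of_eq ?_) h1
    refine Finset.sum_congr rfl fun v _ => Finset.sum_congr rfl fun i _ => ?_
    show w v (map _ (∑ j, C (M v i j) * map (algebraMap k K) (f j))) = _
    congr 1
    rw [map_sum]
    refine Finset.sum_congr rfl fun j _ => ?_
    rw [map_mul, map_C, MvPolynomial.map_map, ← IsScalarTower.algebraMap_eq k K K']
    rfl

theorem lower [CharZero k] (hr : 2 ≤ r) {g : Polynomial k} (hg : Squarefree g)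
    (hs : (g.map (algebraMap k K)).Splits) (hι : 2 ≤ Fintype.card ι) :
    ∃ w : ι → MvPolynomial (Fin (r + 1)) K → ℝ, IsProfile k r w ∧
      ∑ v, (∑ a ∈ pts g K, w v (ev r a) + w v (disc K r)) = min g.natDegree r + (2 * r - 2) := by
  classical
  obtain ⟨w, hw, hsum⟩ := lower_closed (k := k) (K := AlgebraicClosure K) (ι := ι) hr hg hι
  refine ⟨_, hw.restrict (K := K), ?_⟩
  rw [← hsum]
  refine Finset.sum_congr rfl fun v _ => ?_
  have h1 : map (algebraMap K (AlgebraicClosure K)) (disc K r) = disc (AlgebraicClosure K) r := map_disc (by omega)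
  have h2 : ∀ a : K, map (algebraMap K (AlgebraicClosure K)) (ev r a) =
      ev r (algebraMap K (AlgebraicClosure K) a) := by
    intro a
    unfold ev
    rw [map_sum]
    refine Finset.sum_congr rfl fun i _ => ?_
    rw [map_mul, map_C, map_X, map_pow]
  have h3 : pts g (AlgebraicClosure K) = (pts g K).image (algebraMap K (AlgebraicClosure K)) := by
    symm
    apply Finset.eq_of_subset_of_card_le
    · intro b hb
      obtain ⟨a, ha, rfl⟩ := Finset.mem_image.1 hb
      unfold pts at ha ⊢
      rw [Multiset.mem_toFinset, Polynomial.mem_aroots] at ha ⊢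
      refine ⟨ha.1, ?_⟩
      rw [Polynomial.aeval_algebraMap_apply, ha.2, map_zero]
    · rw [Finset.card_image_of_injective _ (algebraMap K (AlgebraicClosure K)).injective, card_pts hg hs,
        card_pts hg (IsAlgClosed.splits _)]
  rw [h3, Finset.sum_image (fun a _ b _ hab => (algebraMap K (AlgebraicClosure K)).injective hab)]
  simp_rw [h1, h2]

end lower'

end Pool.Agent.Helper36.SB
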