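import Pool.Agent.Helper36.SB.Sound
import Pool.Agent.Helper61.AD.Ht
import Pool.Agent.Helper61.AD.Fin2
import Pool.Agent.Helper61.AD.Roots
import Pool.Agent.Helper61.AD.Deg
import Pool.Agent.Helper52.Vojta.NormEval
import Pool.Agent.Helper52.Vojta.NormLocal

/-!
# Project SB: the two sides of Vojta's inequality for a point of degree `r` in terms of its form
-/

set_option autoImplicit false

namespace Pool.Agent.Helper36.SB

open NumberField Filter Polynomial Module
open Pool.Agent.Helper64.Vojta (Pl nv sn above mem_above above_unique nv_nonneg nv_mul nv_one nv_zero nv_pos)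
open Pool.Agent.V2 (vn vH vn_pos vH_eq gsum FinS finS_vn gsum_le gsum_add gsum_neg gsum_sum)
open Pool.Agent.Helper61.AD (cf)

universe u

theorem exists_splitting {k : Type u} [Field k] [NumberField k] (P : k[X]) :
    ∃ (N : Type u) (_ : Field N) (_ : NumberField N) (_ : Algebra k N),
      (P.map (algebraMap k N)).Splits := by
  have h0 : CharZero P.SplittingField :=
    charZero_of_injective_algebraMap (algebraMap k P.SplittingField).injective
  have h1 : FiniteDimensional ℚ P.SplittingField := Module.Finite.trans k P.SplittingField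
  exact ⟨P.SplittingField, inferInstance, { to_charZero := h0, to_finiteDimensional := h1 },
    inferInstance, SplittingField.splits P⟩

theorem conj_sum {k L N : Type u} [Field k] [NumberField k] [Field L] [NumberField L] [Field N]
    [NumberField N] [Algebra k L] [Algebra k N] (σ : L →ₐ[k] N) (ν : Pl k) (y : L) :
    (finrank k L : ℝ) * ∑ w ∈ above N ν, Real.log (sn w ![σ y, 1]) =
      finrank k N * ∑ w ∈ above L ν, Real.log (sn w ![y, 1]) := by
  have hfd : FiniteDimensional k L := FiniteDimensional.right ℚ k L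
  have hfdN : FiniteDimensional k N := FiniteDimensional.right ℚ k N
  let _ : Algebra L N := σ.toRingHom.toAlgebra
  have : IsScalarTower k L N := IsScalarTower.of_algebraMap_eq fun a => (σ.commutes a).symm
  have hfr : (finrank k N : ℝ) = finrank k L * finrank L N := by
    exact_mod_cast (finrank_mul_finrank k L N).symm
  have ht := Pool.Agent.Helper61.AD.sum_above_tower (k := k) (K := L) (N := N) {ν}
    (fun w => Real.log (sn w ![σ y, 1]))
  rw [Finset.sum_singleton, Pool.Agent.Helper52.Vojta.sum_upW (L' := L)] at ht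
  rw [Finset.sum_singleton] at ht
  rw [ht, hfr, mul_assoc]
  congr 1
  rw [Finset.mul_sum]
  refine Finset.sum_congr rfl fun v _ => ?_
  have hv : (![σ y, 1] : Fin 2 → N) = fun j => algebraMap L N ((![y, 1] : Fin 2 → L) j) := by
    funext j
    fin_cases j
    · rfl
    · exact (map_one (algebraMap L N)).symm
  rw [hv, Pool.Agent.Helper52.Vojta.sum_log_sn (by norm_num)]

theorem vec_ne {N : Type*} [Field N] (y : N) : (![y, 1] : Fin 2 → N) ≠ 0 := fun h => by
  have := congrFun h 1
  simp at this

theorem cf_ne {k : Type*} [Field k] {r : ℕ} {P : k[X]} (hP : P.Monic) (hd : P.natDegree = r) :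
    cf r P ≠ 0 := by
  intro h
  have h1 : P.coeff r = 0 := congrFun h (Fin.last r)
  have h2 : P.coeff r = 1 := by rw [← hd]; exact hP
  rw [h1] at h2
  exact zero_ne_one h2

theorem cf_prod_ne {N : Type*} [Field N] {r : ℕ} (x : Fin r → N) : cf r (∏ i, (X - C (x i))) ≠ 0 := by
  apply cf_ne (Polynomial.monic_prod_of_monic _ _ fun j _ => Polynomial.monic_X_sub_C _)
  rw [Polynomial.natDegree_prod_of_monic _ _ fun j _ => Polynomial.monic_X_sub_C _]
  simp

theorem gauss_abs (r : ℕ) : ∃ c : ℝ, 0 ≤ c ∧ ∀ (N : Type u) [Field N] [NumberField N] (w : Pl N)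
    (x : Fin r → N),
    |∑ i, Real.log (sn w ![x i, 1]) - Real.log (vn w (cf r (∏ i, (X - C (x i)))))| ≤ c := by
  obtain ⟨c1, hc1, h1⟩ := Pool.Agent.Helper61.AD.gauss_inf.{u} r
  obtain ⟨c2, hc2, h2⟩ := Pool.Agent.Helper61.AD.easy_inf.{u} r
  refine ⟨Real.log c1 + Real.log c2, add_nonneg (Real.log_nonneg hc1) (Real.log_nonneg hc2), ?_⟩
  intro N _ _ w x
  have l1 := Real.log_nonneg hc1
  have l2 := Real.log_nonneg hc2
  have hpos : ∀ i, 0 < sn w ![x i, 1] := fun i => vn_pos w (vec_ne (x i))
  have hpos' : 0 < ∏ i, sn w ![x i, 1] := Finset.prod_pos fun i _ => hpos i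
  have hv : 0 < vn w (cf r (∏ i, (X - C (x i)))) := vn_pos w (cf_prod_ne x)
  rw [← Real.log_prod fun i _ => (hpos i).ne', abs_le]
  rcases w with w | w
  · have e1 := Real.log_le_log hpos' (h1 N w x)
    have e2 := Real.log_le_log hv (h2 N w x)
    rw [Real.log_mul (by linarith) hv.ne'] at e1
    rw [Real.log_mul (by linarith) hpos'.ne'] at e2
    constructor <;> linarith
  · have e1 := Real.log_le_log hpos' (Pool.Agent.Helper61.AD.gauss_fin w x)
    have e2 := Real.log_le_log hv (Pool.Agent.Helper61.AD.easy_fin w x)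
    constructor <;> linarith

/-- The local height of a point of degree `r` is the local height of its form, up to a bounded function. -/
theorem local_gauss (r : ℕ) (hr : 0 < r) : ∃ c : ℝ, 0 ≤ c ∧ ∀ (k L : Type u) [Field k] [NumberField k]
    [Field L] [NumberField L] [Algebra k L], finrank k L = r → ∀ y : L, (minpoly k y).natDegree = r →
    ∀ ν : Pl k, |∑ w ∈ above L ν, Real.log (sn w ![y, 1]) - Real.log (vn ν (cf r (minpoly k y)))| ≤ c := by
  classical
  obtain ⟨c, hc, h⟩ := gauss_abs.{u} r
  refine ⟨c, hc, ?_⟩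
  intro k L _ _ _ _ _ hL y hy ν
  have hfd : FiniteDimensional k L := FiniteDimensional.right ℚ k L
  have hint : IsIntegral k y := IsIntegral.of_finite k y
  have hmon : (minpoly k y).Monic := minpoly.monic hint
  obtain ⟨N, iF, iN, iA, hsp⟩ := exists_splitting (minpoly k y)
  have hfdN : FiniteDimensional k N := FiniteDimensional.right ℚ k N
  obtain ⟨x, -, hx, -⟩ := Pool.Agent.Helper61.AD.exists_enum (N := N) (minpoly k y) hmon
    (minpoly.irreducible hint) hsp hy
  have hroot : ∀ i, aeval (x i) (minpoly k y) = 0 := by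
    intro i
    rw [← eval_map_algebraMap, hx, eval_prod]
    exact Finset.prod_eq_zero (Finset.mem_univ i) (by simp)
  have hr' : (0 : ℝ) < r := by exact_mod_cast hr
  have hN' : (0 : ℝ) < finrank k N := by exact_mod_cast finrank_pos
  have h1 : ∀ i, ∑ w ∈ above N ν, Real.log (sn w ![x i, 1]) =
      (finrank k N * ∑ w ∈ above L ν, Real.log (sn w ![y, 1])) / r := by
    intro i
    obtain ⟨σ, hσ⟩ := Pool.Agent.Helper61.AD.LA.exists_hom y (by rw [hy, hL]) (x i) (hroot i)
    have h2 := conj_sum σ ν y
    rw [hσ, hL] at h2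
    rw [eq_div_iff hr'.ne', mul_comm, h2]
  have h2 : ∑ w ∈ above N ν, ∑ i, Real.log (sn w ![x i, 1]) =
      finrank k N * ∑ w ∈ above L ν, Real.log (sn w ![y, 1]) := by
    rw [Finset.sum_comm, Finset.sum_congr rfl fun i _ => h1 i, Finset.sum_const, Finset.card_univ,
      Fintype.card_fin, nsmul_eq_mul]
    field_simp
  have h3 : ∑ w ∈ above N ν, Real.log (vn w (cf r (∏ i, (X - C (x i))))) =
      finrank k N * Real.log (vn ν (cf r (minpoly k y))) := by
    have e1 := Pool.Agent.Helper52.Vojta.sum_log_sn (L' := N) (Nat.succ_pos r) ν (cf r (minpoly k y))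
    have e2 : (fun i => algebraMap k N (cf r (minpoly k y) i)) = cf r (∏ i, (X - C (x i))) := by
      funext j
      rw [← hx]
      simp [cf]
    rw [e2] at e1
    exact e1
  have h4 : |∑ w ∈ above N ν, (∑ i, Real.log (sn w ![x i, 1]) -
      Real.log (vn w (cf r (∏ i, (X - C (x i))))))| ≤ finrank k N * c := by
    refine (Finset.abs_sum_le_sum_abs _ _).trans ?_
    refine (Finset.sum_le_sum fun w _ => h N w x).trans ?_
    rw [Finset.sum_const, nsmul_eq_mul]
    have : ((above N ν).card : ℝ) ≤ finrank k N := by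
      exact_mod_cast Pool.Agent.Helper64.Vojta.card_above_le ν
    exact mul_le_mul_of_nonneg_right this hc
  rw [Finset.sum_sub_distrib, h2, h3, ← mul_sub, abs_mul, abs_of_pos hN'] at h4
  exact le_of_mul_le_mul_left h4 hN'

/-- The height of the point is at most the height of its form plus a constant. -/
theorem ht_ge {k : Type u} [Field k] [NumberField k] (r : ℕ) (hr : 0 < r) :
    ∃ c : ℝ, ∀ (L : Type u) [Field L] [NumberField L] [Algebra k L], finrank k L = r → ∀ y : L,
      (minpoly k y).natDegree = r → Height.logHeight ![y, 1] ≤ vH (cf r (minpoly k y)) + c := by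
  classical
  obtain ⟨c0, hc0, hgauss⟩ := Pool.Agent.Helper61.AD.gauss_inf.{u} r
  refine ⟨finrank ℚ k * Real.log c0, ?_⟩
  intro L _ _ _ hL y hy
  have hfd : FiniteDimensional k L := FiniteDimensional.right ℚ k L
  have hint : IsIntegral k y := IsIntegral.of_finite k y
  have hmonic : (minpoly k y).Monic := minpoly.monic hint
  obtain ⟨N, iF, iN, iA, hsp⟩ := exists_splitting (minpoly k y)
  have hfdN : FiniteDimensional k N := FiniteDimensional.right ℚ k N
  have hfdL : FiniteDimensional ℚ k := inferInstance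
  obtain ⟨x, -, hx, -⟩ := Pool.Agent.Helper61.AD.exists_enum (N := N) (minpoly k y) hmonic
    (minpoly.irreducible hint) hsp hy
  have hcf0 : cf r (minpoly k y) ≠ 0 := cf_ne hmonic hy
  have hcfN : cf r (∏ i, (X - C (x i))) = fun j => algebraMap k N (cf r (minpoly k y) j) := by
    funext j
    rw [← hx]
    simp [cf]
  have hcfN0 : cf r (∏ i, (X - C (x i))) ≠ 0 := cf_prod_ne x
  have hvH : vH (cf r (∏ i, (X - C (x i)))) = finrank k N * vH (cf r (minpoly k y)) := by
    rw [vH_eq hcfN0, vH_eq hcf0, hcfN]
    exact Pool.Agent.Helper52.Vojta.logHeight_algebraMap hcf0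
  have hroot : ∀ i, aeval (x i) (minpoly k y) = 0 := by
    intro i
    rw [← eval_map_algebraMap, hx, eval_prod]
    exact Finset.prod_eq_zero (Finset.mem_univ i) (by simp)
  have hx0 : ∀ i, (![x i, 1] : Fin 2 → N) ≠ 0 := fun i => vec_ne (x i)
  have hy0 : (![y, 1] : Fin 2 → L) ≠ 0 := vec_ne y
  have hht : ∀ i, r * vH (![x i, 1] : Fin 2 → N) = finrank k N * Height.logHeight ![y, 1] := by
    intro i
    obtain ⟨σ, hs⟩ := Pool.Agent.Helper61.AD.LA.exists_hom y (by rw [hy, hL]) (x i) (hroot i)
    let _ : Algebra L N := σ.toRingHom.toAlgebra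
    have : IsScalarTower k L N := IsScalarTower.of_algebraMap_eq fun a => (σ.commutes a).symm
    have hv : (![x i, 1] : Fin 2 → N) = fun j => algebraMap L N ((![y, 1] : Fin 2 → L) j) := by
      funext j
      fin_cases j
      · exact hs.symm
      · exact (map_one (algebraMap L N)).symm
    have hfr : (finrank k N : ℝ) = r * finrank L N := by
      rw [← hL]
      exact_mod_cast (finrank_mul_finrank k L N).symm
    rw [vH_eq (hx0 i), hv, Pool.Agent.Helper52.Vojta.logHeight_algebraMap hy0, hfr]
    ring
  have hprodpos : ∀ w : Pl N, 0 < ∏ i, sn w ![x i, 1] := fun w =>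
    Finset.prod_pos fun i _ => vn_pos w (hx0 i)
  have hlogprod : ∀ w : Pl N, Real.log (∏ i, sn w ![x i, 1]) = ∑ i, Real.log (vn w ![x i, 1]) :=
    fun w => Real.log_prod fun i _ => (vn_pos w (hx0 i)).ne'
  have hc0' : 0 ≤ Real.log c0 := Real.log_nonneg hc0
  have hfs1 : FinS (fun w : Pl N => Real.log (vn w (cf r (∏ i, (X - C (x i)))))) := finS_vn hcfN0
  have hfs2 : ∀ i ∈ (Finset.univ : Finset (Fin r)),
      FinS (fun w : Pl N => Real.log (vn w ![x i, 1])) := fun i _ => finS_vn (hx0 i)
  have hfs3 : FinS (fun w : Pl N => ∑ i, Real.log (vn w ![x i, 1])) := FinS.sum _ hfs2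
  have hle : gsum (fun w : Pl N => (∑ i, Real.log (vn w ![x i, 1])) +
      -(Real.log (vn w (cf r (∏ i, (X - C (x i))))))) ≤ finrank ℚ N * Real.log c0 := by
    refine gsum_le (hfs3.add hfs1.neg) (Real.log c0) ?_ ?_
    · intro v
      have h1 := hgauss N v x
      have h2 := Real.log_le_log (hprodpos (.inl v)) h1
      rw [Real.log_mul (by linarith) (vn_pos (.inl v) hcfN0).ne', hlogprod] at h2
      have h3 : (1 : ℝ) ≤ v.mult := by exact_mod_cast v.mult_pos
      have h4 : Real.log c0 ≤ v.mult * Real.log c0 := by nlinarith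
      linarith
    · intro v
      have h1 := Pool.Agent.Helper61.AD.gauss_fin v x
      have h2 := Real.log_le_log (hprodpos (.inr v)) h1
      rw [hlogprod] at h2
      linarith
  rw [gsum_add hfs3 hfs1.neg, gsum_neg, gsum_sum _ hfs2] at hle
  have hsum : ∑ i, gsum (fun w : Pl N => Real.log (vn w ![x i, 1])) =
      finrank k N * Height.logHeight ![y, 1] := by
    have hr' : (0 : ℝ) < r := by exact_mod_cast hr
    have h1 : ∀ i : Fin r, gsum (fun w : Pl N => Real.log (vn w ![x i, 1])) =
        (finrank k N * Height.logHeight ![y, 1]) / r := by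
      intro i
      rw [eq_div_iff hr'.ne', ← hht i, mul_comm]
      rfl
    rw [Finset.sum_congr rfl fun i _ => h1 i, Finset.sum_const, Finset.card_univ, Fintype.card_fin,
      nsmul_eq_mul]
    field_simp
  rw [hsum] at hle
  have hvH' : gsum (fun w : Pl N => Real.log (vn w (cf r (∏ i, (X - C (x i)))))) =
      finrank k N * vH (cf r (minpoly k y)) := hvH
  rw [hvH'] at hle
  have hpos : (0 : ℝ) < finrank k N := by exact_mod_cast finrank_pos
  have hfr : (finrank ℚ N : ℝ) = finrank k N * finrank ℚ k := by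
    rw [mul_comm]
    exact_mod_cast (finrank_mul_finrank ℚ k N).symm
  rw [hfr] at hle
  have hfin : (finrank k N : ℝ) * Height.logHeight ![y, 1] ≤
      finrank k N * (vH (cf r (minpoly k y)) + finrank ℚ k * Real.log c0) := by
    linarith
  exact le_of_mul_le_mul_left hfin hpos

/-- The two heights differ by a bounded amount. -/
theorem ht_abs {k : Type u} [Field k] [NumberField k] (r : ℕ) (hr : 0 < r) :
    ∃ c : ℝ, ∀ (L : Type u) [Field L] [NumberField L] [Algebra k L], finrank k L = r → ∀ y : L,
      (minpoly k y).natDegree = r → |Height.logHeight ![y, 1] - vH (cf r (minpoly k y))| ≤ c := by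
  classical
  obtain ⟨c1, h1⟩ := ht_ge (k := k) r hr
  obtain ⟨c2, h2⟩ := Pool.Agent.Helper61.AD.HTA.ht_le (k := k) r hr ((r + 1) ^ r)
  refine ⟨|c1| + |c2|, ?_⟩
  intro L _ _ _ hL y hy
  have hfd : FiniteDimensional k L := FiniteDimensional.right ℚ k L
  have hint : IsIntegral k y := IsIntegral.of_finite k y
  have hmon : (minpoly k y).Monic := minpoly.monic hint
  have e1 := h1 L hL y hy
  have hfr := Pool.Agent.Helper61.AD.finrank_adjoin_roots (Ω := AlgebraicClosure k) r (minpoly k y)
    hmon.ne_zero hy.le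
  set N := IntermediateField.adjoin k ((minpoly k y).rootSet (AlgebraicClosure k)) with hN
  have hfdN : FiniteDimensional k N := hfr.1
  have h0 : CharZero N := charZero_of_injective_algebraMap (algebraMap k N).injective
  have h3 : FiniteDimensional ℚ N := Module.Finite.trans k N
  have hNF : NumberField N := { to_charZero := h0, to_finiteDimensional := h3 }
  have hsp : ((minpoly k y).map (algebraMap k N)).Splits := by
    refine IntermediateField.splits_of_splits (IsAlgClosed.splits _) fun z hz => ?_
    exact IntermediateField.subset_adjoin _ _ hz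
  obtain ⟨x, -, hx, -⟩ := Pool.Agent.Helper61.AD.exists_enum (N := N) (minpoly k y) hmon
    (minpoly.irreducible hint) hsp hy
  have e2 := h2 L N hL hfr.2 y hy x hx
  rw [abs_le]
  have a1 := le_abs_self c1
  have a2 := le_abs_self c2
  have a3 := abs_nonneg c1
  have a4 := abs_nonneg c2
  constructor <;> linarith

end Pool.Agent.Helper36.SB
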