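import Mathlib

/-!
# Project SB: a basis of the polynomials of degree at most `m` adapted to the order at the origin and to
the multiplicity of a polynomial `d` of degree `N` with nonzero constant term
-/

set_option autoImplicit false

namespace Pool.Agent.Helper36.SB

open MvPolynomial

section

variable {K : Type*} [Field K] {r : ℕ}

/-- The order at the origin. -/
noncomputable def od (f : MvPolynomial (Fin r) K) : ℕ := (f : MvPowerSeries (Fin r) K).order.toNat

lemma od_coe {f : MvPolynomial (Fin r) K} (hf : f ≠ 0) :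
    ((od f : ℕ) : ℕ∞) = (f : MvPowerSeries (Fin r) K).order := by
  unfold od
  exact MvPowerSeries.ne_zero_iff_order_finite.1 (fun h => hf (coe_injective (Fin r) K (by rw [h, coe_zero])))

lemma od_le {f : MvPolynomial (Fin r) K} {a : Fin r →₀ ℕ} (h : coeff a f ≠ 0) : od f ≤ a.degree := by
  have hf : f ≠ 0 := by rintro rfl; simp at h
  have h1 : MvPowerSeries.coeff a (f : MvPowerSeries (Fin r) K) ≠ 0 := by rwa [coeff_coe]
  have := MvPowerSeries.order_le h1
  rw [← od_coe hf] at this
  exact_mod_cast this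

lemma le_od {f : MvPolynomial (Fin r) K} (hf : f ≠ 0) {n : ℕ} (h : ∀ a : Fin r →₀ ℕ, a.degree < n → coeff a f = 0) :
    n ≤ od f := by
  have := MvPowerSeries.nat_le_order (f := (f : MvPowerSeries (Fin r) K)) (n := n)
    (fun a ha => by rw [coeff_coe]; exact h a ha)
  rw [← od_coe hf] at this
  exact_mod_cast this

lemma exists_od {f : MvPolynomial (Fin r) K} (hf : f ≠ 0) : ∃ a : Fin r →₀ ℕ, coeff a f ≠ 0 ∧ a.degree = od f := by
  by_contra hcon
  push Not at hcon
  have : od f + 1 ≤ od f := by
    apply le_od hf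
    intro a ha
    by_contra h
    have h1 := hcon a h
    have h2 := od_le h
    omega
  omega

lemma od_mul {f g : MvPolynomial (Fin r) K} (hf : f ≠ 0) (hg : g ≠ 0) : od (f * g) = od f + od g := by
  have h := MvPowerSeries.order_mul (f : MvPowerSeries (Fin r) K) (g : MvPowerSeries (Fin r) K)
  rw [← coe_mul, ← od_coe hf, ← od_coe hg, ← od_coe (mul_ne_zero hf hg)] at h
  exact_mod_cast h

lemma od_add {f g : MvPolynomial (Fin r) K} (hfg : f + g ≠ 0) :
    min (od f) (od g) ≤ od (f + g) := by
  apply le_od hfg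
  intro a ha
  rw [coeff_add]
  have h1 : coeff a f = 0 := by
    by_contra h
    have := od_le h
    omega
  have h2 : coeff a g = 0 := by
    by_contra h
    have := od_le h
    omega
  rw [h1, h2, add_zero]

lemma od_eq_zero {f : MvPolynomial (Fin r) K} (h : coeff 0 f ≠ 0) : od f = 0 := by
  have := od_le h
  simpa using this

/-! ### the map `Phi` -/

/-- The linear map sending the monomial `y^a` to `y^a d^⌊(m - |a|)/N⌋`. -/
noncomputable def Phi (d : MvPolynomial (Fin r) K) (N m : ℕ) :
    MvPolynomial (Fin r) K →ₗ[K] MvPolynomial (Fin r) K :=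
  (basisMonomials (Fin r) K).constr K (fun a => monomial a 1 * d ^ ((m - a.degree) / N))

lemma Phi_apply (d : MvPolynomial (Fin r) K) (N m : ℕ) (f : MvPolynomial (Fin r) K) :
    Phi d N m f = ∑ a ∈ f.support, C (coeff a f) * (monomial a 1 * d ^ ((m - a.degree) / N)) := by
  conv_lhs => rw [f.as_sum]
  rw [map_sum]
  refine Finset.sum_congr rfl fun a _ => ?_
  have h1 : monomial a (coeff a f) = (coeff a f) • (basisMonomials (Fin r) K) a := by
    rw [coe_basisMonomials, smul_monomial, smul_eq_mul, mul_one]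
  rw [h1, map_smul, Phi, Module.Basis.constr_basis, smul_eq_C_mul]

lemma coeff_Phi_low {d : MvPolynomial (Fin r) K} {N m : ℕ} {f : MvPolynomial (Fin r) K} {a : Fin r →₀ ℕ}
    (h : ∀ a', coeff a' f ≠ 0 → a.degree ≤ a'.degree) :
    coeff a (Phi d N m f) = coeff a f * coeff 0 d ^ ((m - a.degree) / N) := by
  rw [Phi_apply, coeff_sum]
  have key : ∀ a' ∈ f.support, coeff a (C (coeff a' f) * (monomial a' 1 * d ^ ((m - a'.degree) / N))) =
      if a' = a then coeff a f * coeff 0 d ^ ((m - a.degree) / N) else 0 := by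
    intro a' ha'
    rw [coeff_C_mul, coeff_monomial_mul']
    by_cases haa : a' = a
    · subst haa
      rw [if_pos le_rfl, if_pos rfl, tsub_self, one_mul]
      congr 1
      rw [← constantCoeff_eq, map_pow, constantCoeff_eq]
    · rw [if_neg haa, if_neg, mul_zero]
      intro hle
      apply haa
      have h1 := h a' (mem_support_iff.1 ha')
      -- `a' ≤ a` and `|a| ≤ |a'|`
      obtain ⟨b, hb⟩ := le_iff_exists_add.1 hle
      have h2 : a.degree = a'.degree + b.degree := by rw [hb, map_add]
      have h3 : b.degree = 0 := by omega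
      rw [Finsupp.degree_eq_zero_iff] at h3
      rw [hb, h3, add_zero]
  rw [Finset.sum_congr rfl key, Finset.sum_ite_eq']
  split_ifs with h1
  · rfl
  · rw [notMem_support_iff.1 h1, zero_mul]

variable {d : MvPolynomial (Fin r) K} {N : ℕ}

lemma Phi_ne_zero (h0 : coeff 0 d ≠ 0) {m : ℕ} {f : MvPolynomial (Fin r) K} (hf : f ≠ 0) :
    Phi d N m f ≠ 0 ∧ od (Phi d N m f) = od f := by
  obtain ⟨a, ha, had⟩ := exists_od hf
  have h1 : coeff a (Phi d N m f) = coeff a f * coeff 0 d ^ ((m - a.degree) / N) := by
    apply coeff_Phi_low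
    intro a' ha'
    rw [had]
    exact od_le ha'
  have h2 : coeff a (Phi d N m f) ≠ 0 := by
    rw [h1]
    exact mul_ne_zero ha (pow_ne_zero _ h0)
  have h3 : Phi d N m f ≠ 0 := by
    intro h
    rw [h] at h2
    simp at h2
  refine ⟨h3, le_antisymm ?_ ?_⟩
  · rw [← had]; exact od_le h2
  · apply le_od h3
    intro b hb
    rw [coeff_Phi_low]
    · have : coeff b f = 0 := by
        by_contra h
        have := od_le h
        omega
      rw [this, zero_mul]
    · intro a' ha'
      have := od_le ha'
      omega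

lemma Phi_injective (h0 : coeff 0 d ≠ 0) (m : ℕ) : Function.Injective (Phi d N m) := by
  rw [injective_iff_map_eq_zero]
  intro f hf
  by_contra h
  exact (Phi_ne_zero h0 h).1 hf

lemma Phi_degree (hd : d.totalDegree ≤ N) {m : ℕ} {f : MvPolynomial (Fin r) K}
    (hf : f.totalDegree ≤ m) : (Phi d N m f).totalDegree ≤ m := by
  rw [Phi_apply]
  refine (totalDegree_finsetSum _ _).trans ?_
  rw [Finset.sup_le_iff]
  intro a ha
  have h1 : a.degree ≤ m := (le_totalDegree ha).trans hf
  refine (totalDegree_mul _ _).trans ?_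
  rw [totalDegree_C, zero_add]
  refine (totalDegree_mul _ _).trans ?_
  have h2 : (monomial a (1 : K)).totalDegree ≤ a.degree := totalDegree_monomial_le a 1
  have h3 : (d ^ ((m - a.degree) / N)).totalDegree ≤ (m - a.degree) / N * N :=
    (totalDegree_pow _ _).trans (Nat.mul_le_mul_left _ hd)
  have h4 : (m - a.degree) / N * N ≤ m - a.degree := Nat.div_mul_le_self _ _
  omega

lemma finite_restrict (m : ℕ) : Module.Finite K (restrictTotalDegree (Fin r) K m) := by
  have hfin : Finite {n : Fin r →₀ ℕ | (n.sum fun _ e => e) ≤ m} := by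
    refine Set.Finite.subset (Set.Finite.image (fun g : Fin r → ℕ => Finsupp.equivFunOnFinite.symm g)
      (Set.finite_Iic (fun _ : Fin r => m))) ?_
    intro n hn
    refine ⟨n, ?_, by ext; simp⟩
    rw [Set.mem_Iic, Pi.le_def]
    intro i
    rw [Set.mem_ofPred_eq] at hn
    refine le_trans ?_ hn
    by_cases hi : i ∈ n.support
    · exact Finset.single_le_sum (f := fun i => n i) (fun _ _ => Nat.zero_le _) hi
    · rw [Finsupp.notMem_support_iff.1 hi]; exact Nat.zero_le _
  exact Module.Finite.of_basis (basisRestrictSupport K {n : Fin r →₀ ℕ | (n.sum fun _ e => e) ≤ m})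

lemma Phi_surj (hd : d.totalDegree ≤ N) (h0 : coeff 0 d ≠ 0) {m : ℕ} {f : MvPolynomial (Fin r) K}
    (hf : f.totalDegree ≤ m) : ∃ g, g.totalDegree ≤ m ∧ Phi d N m g = f := by
  have := finite_restrict (K := K) (r := r) m
  let φ : restrictTotalDegree (Fin r) K m →ₗ[K] restrictTotalDegree (Fin r) K m :=
    (Phi d N m).restrict (fun g hg => by
      rw [mem_restrictTotalDegree] at hg ⊢
      exact Phi_degree hd hg)
  have hinj : Function.Injective φ := by
    intro a b hab
    apply Subtype.ext
    apply Phi_injective h0 m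
    exact congrArg Subtype.val hab
  obtain ⟨g, hg⟩ := (LinearMap.injective_iff_surjective.1 hinj) ⟨f, (mem_restrictTotalDegree _ _ _).2 hf⟩
  exact ⟨g.1, (mem_restrictTotalDegree _ _ _).1 g.2, congrArg Subtype.val hg⟩

lemma Phi_shift (hN : 0 < N) {m t : ℕ} (ht : t * N ≤ m) {g : MvPolynomial (Fin r) K}
    (hg : g.totalDegree ≤ m - t * N) : d ^ t * Phi d N (m - t * N) g = Phi d N m g := by
  rw [Phi_apply, Phi_apply, Finset.mul_sum]
  refine Finset.sum_congr rfl fun a ha => ?_
  have h1 : a.degree ≤ m - t * N := (le_totalDegree ha).trans hg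
  have h2 : (m - a.degree) / N = (m - t * N - a.degree) / N + t := by
    rw [← Nat.add_mul_div_right _ _ hN]
    congr 1
    omega
  rw [h2, pow_add]
  ring

/-- The coordinate bounds. -/
lemma coord_bounds (hN : 0 < N) (hd : d.totalDegree = N) (h0 : coeff 0 d ≠ 0) {m : ℕ}
    {g : MvPolynomial (Fin r) K} (hg : g.totalDegree ≤ m) {a : Fin r →₀ ℕ} (ha : coeff a g ≠ 0) :
    od (Phi d N m g) + N * 0 ≤ a.degree ∧ ∀ t, d ^ t ∣ Phi d N m g → a.degree + N * t ≤ m := by
  have hg0 : g ≠ 0 := by rintro rfl; simp at ha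
  refine ⟨?_, ?_⟩
  · rw [(Phi_ne_zero h0 hg0).2]
    simpa using od_le ha
  · rintro t ⟨f', hf'⟩
    have hP := (Phi_ne_zero (N := N) (m := m) h0 hg0).1
    have hf'0 : f' ≠ 0 := by
      rintro rfl
      rw [mul_zero] at hf'
      exact hP hf'
    have hd0 : d ≠ 0 := by rintro rfl; simp at h0
    have hdeg : (Phi d N m g).totalDegree = t * N + f'.totalDegree := by
      rw [hf', totalDegree_mul_of_isDomain (pow_ne_zero _ hd0) hf'0]
      congr 1
      clear hf'
      induction t with
      | zero => simp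
      | succ t ih =>
        rw [pow_succ, totalDegree_mul_of_isDomain (pow_ne_zero _ hd0) hd0, ih, hd]
        ring
    have hle := Phi_degree (d := d) (N := N) hd.le hg
    rw [hdeg] at hle
    have ht : t * N ≤ m := by omega
    obtain ⟨g', hg', hPg'⟩ := Phi_surj (d := d) (N := N) hd.le h0 (m := m - t * N) (f := f') (by omega)
    have h1 := Phi_shift (d := d) hN ht hg'
    rw [hPg', ← hf'] at h1
    have h2 := Phi_injective h0 m h1
    rw [h2] at ha
    have h3 : a.degree ≤ m - t * N := (le_totalDegree (mem_support_iff.2 ha)).trans hg'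
    have h4 : N * t = t * N := mul_comm _ _
    omega

end

end Pool.Agent.Helper36.SB
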