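import Pool.Agent.Helper36.SB.Sym
import Pool.Agent.Helper36.SB.Val

/-!
# Project SB: the extremal profile
-/

set_option autoImplicit false

namespace Pool.Agent.Helper36.SB

open MvPolynomial

section minors

variable {K : Type*} [Field K]

/-- Linearly independent rows have a nonzero maximal minor. -/
lemma exists_minor {ι : Type*} {n : ℕ} (G : Fin n → ι → K) (hG : LinearIndependent K G) :
    ∃ e : Fin n → ι, (Matrix.of fun i j => G i (e j)).det ≠ 0 := by
  let c : ι → (Fin n → K) := fun a i => G i a
  have hspan : Submodule.span K (Set.range c) = ⊤ := by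
    by_contra hne
    obtain ⟨f, hf0, hf⟩ := Submodule.exists_le_ker_of_lt_top _ (lt_top_iff_ne_top.2 hne)
    have h1 : ∀ a, ∑ i, G i a * f (Pi.single i 1) = 0 := by
      intro a
      have h2 : f (c a) = 0 := hf (Submodule.subset_span ⟨a, rfl⟩)
      rw [LinearMap.pi_apply_eq_sum_univ f (c a)] at h2
      rw [← h2]
      refine Finset.sum_congr rfl fun i _ => ?_
      rw [smul_eq_mul]
      congr 2
      funext j
      by_cases hij : i = j
      · subst hij; simp
      · simp [hij, Ne.symm hij]
    have h3 : ∑ i, f (Pi.single i 1) • G i = 0 := by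
      funext a
      rw [Finset.sum_apply]
      simp only [Pi.smul_apply, smul_eq_mul, Pi.zero_apply]
      rw [← h1 a]
      exact Finset.sum_congr rfl fun i _ => mul_comm _ _
    have h4 := Fintype.linearIndependent_iff.1 hG _ h3
    apply hf0
    apply LinearMap.pi_ext'
    intro i
    apply LinearMap.ext_ring
    simpa using h4 i
  obtain ⟨g, hg1, hg2, hg3⟩ := Submodule.exists_fun_fin_finrank_span_eq K (Set.range c)
  have hn : Module.finrank K (Submodule.span K (Set.range c)) = n := by
    rw [hspan, finrank_top, Module.finrank_fin_fun]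
  have hg1' : ∀ i, ∃ a, c a = g i := fun i => hg1 i
  choose a ha using hg1'
  refine ⟨fun j => a (Fin.cast hn.symm j), ?_⟩
  have hli : LinearIndependent K (fun j : Fin n => g (Fin.cast hn.symm j)) :=
    hg3.comp _ (Fin.cast_injective hn.symm)
  have h5 : (Matrix.of fun i j => G i (a (Fin.cast hn.symm j)) : Matrix (Fin n) (Fin n) K).col =
      fun j => g (Fin.cast hn.symm j) := by
    funext j i
    have := congrFun (ha (Fin.cast hn.symm j)) i
    simpa [c] using this
  have h6 : IsUnit (Matrix.of fun i j => G i (a (Fin.cast hn.symm j)) : Matrix (Fin n) (Fin n) K) := by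
    rw [← Matrix.linearIndependent_cols_iff_isUnit, h5]
    exact hli
  exact ((Matrix.isUnit_iff_isUnit_det _).1 h6).ne_zero

lemma exists_perm {n : ℕ} (A : Matrix (Fin n) (Fin n) K) (hA : A.det ≠ 0) :
    ∃ σ : Equiv.Perm (Fin n), ∀ i, A i (σ i) ≠ 0 := by
  rw [Matrix.det_apply'] at hA
  obtain ⟨σ, _, hσ⟩ := Finset.exists_ne_zero_of_sum_ne_zero hA
  refine ⟨σ⁻¹, fun i => ?_⟩
  have h1 := (mul_ne_zero_iff.1 hσ).2
  rw [Finset.prod_ne_zero_iff] at h1
  have := h1 (σ⁻¹ i) (Finset.mem_univ _)
  have h2 : σ (σ⁻¹ i) = i := σ.apply_symm_apply i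
  rwa [h2] at this

lemma exists_match {ι : Type*} {n : ℕ} (G : Fin n → ι → K) (hG : LinearIndependent K G)
    (M M' : Matrix (Fin n) (Fin n) K) (hM : M.det ≠ 0) (hM' : M'.det ≠ 0) :
    ∃ (e : Fin n → ι) (σ τ : Equiv.Perm (Fin n)), (∀ i, ∑ j, M i j * G j (e (σ i)) ≠ 0) ∧
      ∀ i, ∑ j, M' i j * G j (e (τ i)) ≠ 0 := by
  obtain ⟨e, he⟩ := exists_minor G hG
  obtain ⟨σ, hσ⟩ := exists_perm (M * Matrix.of fun i j => G i (e j)) (by
    rw [Matrix.det_mul]; exact mul_ne_zero hM he)
  obtain ⟨τ, hτ⟩ := exists_perm (M' * Matrix.of fun i j => G i (e j)) (by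
    rw [Matrix.det_mul]; exact mul_ne_zero hM' he)
  exact ⟨e, σ, τ, fun i => by simpa [Matrix.mul_apply] using hσ i,
    fun i => by simpa [Matrix.mul_apply] using hτ i⟩

/-- Linear independence of polynomials is preserved by extension of the ground field. -/
lemma linearIndependent_map {k : Type*} [Field k] [Algebra k K] {τ : Type*} {n : ℕ}
    (f : Fin n → MvPolynomial τ k) (hf : LinearIndependent k f) :
    LinearIndependent K (fun j => map (algebraMap k K) (f j)) := by
  have hG : LinearIndependent k (fun (j : Fin n) (a : τ →₀ ℕ) => coeff a (f j)) := by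
    rw [Fintype.linearIndependent_iff] at hf ⊢
    intro c hc
    apply hf c
    ext a
    have := congrFun hc a
    rw [Finset.sum_apply] at this
    simpa [coeff_sum, coeff_smul] using this
  obtain ⟨e, he⟩ := exists_minor _ hG
  rw [Fintype.linearIndependent_iff]
  intro c hc
  have hdet : ((Matrix.of fun i j => coeff (e j) (f i)).map (algebraMap k K)).det ≠ 0 := by
    rw [← RingHom.mapMatrix_apply, ← RingHom.map_det]
    exact (map_ne_zero _).2 he
  have h1 : Matrix.vecMul c ((Matrix.of fun i j => coeff (e j) (f i)).map (algebraMap k K)) = 0 := by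
    funext j
    have h2 := congrArg (coeff (e j)) hc
    rw [coeff_sum, coeff_zero] at h2
    simp only [coeff_smul, coeff_map, smul_eq_mul] at h2
    rw [Pi.zero_apply, ← h2]
    rfl
  have h3 := Matrix.eq_zero_of_vecMul_eq_zero hdet h1
  intro i
  exact congrFun h3 i

end minors

section profile

variable {k K : Type*} [Field k] [Field K] [Algebra k K] [CharZero K] [IsAlgClosed K] {r : ℕ}
  {ι : Type*} [Fintype ι] [DecidableEq ι]

/-- The extremal profile. -/
noncomputable def wx (p : Fin r → K) (v₁ v₂ : ι) (v : ι) (f : MvPolynomial (Fin (r + 1)) K) : ℝ :=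
  if v = v₁ then (od (th p f) : ℝ) else
    if v = v₂ then (2 * (r : ℝ) - 2) * (multiplicity (dl p) (th p f) : ℝ) else 0

omit [IsAlgClosed K] in
lemma dl_coeff_zero (hr : 2 ≤ r) {p : Fin r → K} (hp : Function.Injective p) : coeff 0 (dl p) ≠ 0 := by
  -- the polynomial at `y = 0` is the product of the `T - p_i`
  have h1 : (Py p).map (eval (0 : Fin r → K)) = ∏ j, (Polynomial.X - Polynomial.C (p j)) := by
    symm
    apply eq_map_Py hp
    · exact Polynomial.monic_prod_of_monic _ _ fun j _ => Polynomial.monic_X_sub_C _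
    · rw [Polynomial.natDegree_prod_of_monic _ _ fun j _ => Polynomial.monic_X_sub_C _]
      simp
    · intro i
      rw [Polynomial.eval_prod, eval_X, Pi.zero_apply]
      exact Finset.prod_eq_zero (Finset.mem_univ i) (by simp)
  have h2 : eval (0 : Fin r → K) (dl p) = (∏ j, (Polynomial.X - Polynomial.C (p j))).discr := by
    rw [← h1]
    unfold dl
    exact discr_map _ _ (by rw [Py_natDegree hp]; omega) (by
      rw [(Py_monic hp).leadingCoeff, map_one]; exact one_ne_zero)
  have h3 : coeff 0 (dl p) = eval (0 : Fin r → K) (dl p) := by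
    rw [eval_zero, constantCoeff_eq]
  rw [h3, h2]
  intro h0
  have h4 := discr_prod (by omega) p
  rw [h0, mul_zero] at h4
  have h5 := h4.symm
  rw [Finset.prod_eq_zero_iff] at h5
  obtain ⟨a, _, ha⟩ := h5
  rw [Finset.prod_eq_zero_iff] at ha
  obtain ⟨b, hb, hab⟩ := ha
  exact (Finset.ne_of_mem_erase hb) (hp (sub_eq_zero.1 hab).symm)

omit [CharZero K] [IsAlgClosed K] in
/-- Substituting polynomials of degree at most one does not raise the degree of forms. -/
lemma th_totalDegree {p : Fin r → K} {m : ℕ} {f : MvPolynomial (Fin (r + 1)) K} (hf : f.IsHomogeneous m) :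
    (th p f).totalDegree ≤ m := by
  have hc : ∀ n, ((Py p).coeff n).totalDegree ≤ 1 := by
    intro n
    unfold Py
    rw [Polynomial.coeff_add]
    refine (totalDegree_add _ _).trans (max_le ?_ ?_)
    · have h1 : (∏ i, (Polynomial.X - Polynomial.C (C (p i) : MvPolynomial (Fin r) K))) =
          (∏ i, (Polynomial.X - Polynomial.C (p i))).map C := by
        rw [Polynomial.map_prod]; simp
      rw [h1, Polynomial.coeff_map, totalDegree_C]
      exact Nat.zero_le _
    · rw [Polynomial.finsetSum_coeff]
      refine (totalDegree_finsetSum _ _).trans ?_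
      rw [Finset.sup_le_iff]
      intro i _
      rw [Polynomial.coeff_C_mul, Polynomial.coeff_map]
      refine (totalDegree_mul _ _).trans ?_
      rw [totalDegree_X, totalDegree_C]
  unfold th
  rw [aeval_def, eval₂_eq']
  refine (totalDegree_finsetSum _ _).trans ?_
  rw [Finset.sup_le_iff]
  intro a ha
  refine (totalDegree_mul _ _).trans ?_
  have h1 : (algebraMap K (MvPolynomial (Fin r) K) (coeff a f)).totalDegree = 0 := totalDegree_C _
  rw [h1, zero_add]
  refine (totalDegree_finsetProd _ _).trans ?_
  have h2 : ∑ i, a i = m := by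
    have h3 : a.degree = m := by
      by_contra hne
      exact (mem_support_iff.1 ha) (hf.coeff_eq_zero hne)
    rw [← h3, Finsupp.degree_eq_sum]
  rw [← h2]
  refine Finset.sum_le_sum fun i _ => ?_
  refine (totalDegree_pow _ _).trans ?_
  calc a i * ((Py p).coeff (i : ℕ)).totalDegree ≤ a i * 1 := Nat.mul_le_mul_left _ (hc _)
    _ = a i := mul_one _

omit [IsAlgClosed K] in
lemma dl_totalDegree (hr : 2 ≤ r) {p : Fin r → K} (hp : Function.Injective p) :
    (dl p).totalDegree = 2 * r - 2 := by
  refine le_antisymm ?_ (le_totalDegree_dl hr hp)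
  rw [← th_disc (by omega) hp]
  exact th_totalDegree (disc_isHomogeneous K r (by omega))

lemma finite_mult (hr : 2 ≤ r) {p : Fin r → K} (hp : Function.Injective p) {f : MvPolynomial (Fin r) K}
    (hf : f ≠ 0) : FiniteMultiplicity (dl p) f :=
  FiniteMultiplicity.of_prime_left (prime_dl hr hp) hf

/-- The subspace inequality for the two valuations. -/
lemma two_val (hr : 2 ≤ r) {p : Fin r → K} (hp : Function.Injective p) {m n : ℕ}
    (f : Fin n → MvPolynomial (Fin (r + 1)) K) (hf : ∀ j, (f j).IsHomogeneous m)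
    (hli : LinearIndependent K f) (M M' : Matrix (Fin n) (Fin n) K) (hM : M.det ≠ 0) (hM' : M'.det ≠ 0) :
    ∑ i, od (th p (∑ j, C (M i j) * f j)) +
      ∑ i, (2 * r - 2) * multiplicity (dl p) (th p (∑ j, C (M' i j) * f j)) ≤ m * n := by
  have hN : 0 < 2 * r - 2 := by omega
  have hd := dl_totalDegree hr hp
  have h0 := dl_coeff_zero hr hp
  -- the coordinates
  have hg : ∀ j, ∃ g, g.totalDegree ≤ m ∧ Phi (dl p) (2 * r - 2) m g = th p (f j) := fun j =>
    Phi_surj hd.le h0 (th_totalDegree (hf j))
  choose g hgd hg using hg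
  have hG : LinearIndependent K (fun (j : Fin n) (a : Fin r →₀ ℕ) => coeff a (g j)) := by
    rw [Fintype.linearIndependent_iff] at hli ⊢
    intro c hc
    have h1 : ∑ j, c j • g j = 0 := by
      ext a
      have := congrFun hc a
      rw [Finset.sum_apply] at this
      simpa [coeff_sum, coeff_smul] using this
    have h2 : th p (∑ j, c j • f j) = 0 := by
      have h3 := congrArg (Phi (dl p) (2 * r - 2) m) h1
      rw [map_sum, map_zero] at h3
      rw [map_sum, ← h3]
      refine Finset.sum_congr rfl fun j _ => ?_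
      rw [map_smul, map_smul, hg]
    have h4 : ∑ j, c j • f j = 0 := by
      by_contra hne
      refine th_ne_zero hp (m := m) ?_ hne h2
      refine IsHomogeneous.sum _ _ _ fun j _ => ?_
      rw [smul_eq_C_mul]
      exact (hf j).C_mul _
    exact hli c h4
  have hcomb : ∀ (A : Matrix (Fin n) (Fin n) K) (i : Fin n),
      th p (∑ j, C (A i j) * f j) = Phi (dl p) (2 * r - 2) m (∑ j, A i j • g j) := by
    intro A i
    rw [map_sum, map_sum]
    refine Finset.sum_congr rfl fun j _ => ?_
    rw [map_smul, hg, ← smul_eq_C_mul, map_smul]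
  have hcoef : ∀ (A : Matrix (Fin n) (Fin n) K) (i : Fin n) (a : Fin r →₀ ℕ),
      coeff a (∑ j, A i j • g j) = ∑ j, A i j * coeff a (g j) := by
    intro A i a
    rw [coeff_sum]
    exact Finset.sum_congr rfl fun j _ => by rw [coeff_smul, smul_eq_mul]
  have hdeg : ∀ (A : Matrix (Fin n) (Fin n) K) (i : Fin n), (∑ j, A i j • g j).totalDegree ≤ m := by
    intro A i
    refine (totalDegree_finsetSum _ _).trans ?_
    rw [Finset.sup_le_iff]
    intro j _
    exact (totalDegree_smul_le _ _).trans (hgd j)
  obtain ⟨e, σ, τ, hσ, hτ⟩ := exists_match _ hG M M' hM hM'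
  have h1 : ∀ i, od (th p (∑ j, C (M i j) * f j)) ≤ (e (σ i)).degree := by
    intro i
    rw [hcomb]
    have := (coord_bounds hN hd h0 (hdeg M i) (a := e (σ i)) (by rw [hcoef]; exact hσ i)).1
    simpa using this
  have h2 : ∀ i, (e (τ i)).degree + (2 * r - 2) * multiplicity (dl p) (th p (∑ j, C (M' i j) * f j)) ≤ m := by
    intro i
    rw [hcomb]
    exact (coord_bounds hN hd h0 (hdeg M' i) (a := e (τ i)) (by rw [hcoef]; exact hτ i)).2 _
      (pow_multiplicity_dvd _ _)
  calc ∑ i, od (th p (∑ j, C (M i j) * f j)) +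
      ∑ i, (2 * r - 2) * multiplicity (dl p) (th p (∑ j, C (M' i j) * f j))
      ≤ ∑ i, (e (σ i)).degree + ∑ i, (2 * r - 2) * multiplicity (dl p) (th p (∑ j, C (M' i j) * f j)) :=
        Nat.add_le_add_right (Finset.sum_le_sum fun i _ => h1 i) _
    _ = ∑ i, (e (τ i)).degree + ∑ i, (2 * r - 2) * multiplicity (dl p) (th p (∑ j, C (M' i j) * f j)) := by
        rw [Equiv.sum_comp σ (fun i => (e i).degree), Equiv.sum_comp τ (fun i => (e i).degree)]
    _ = ∑ i, ((e (τ i)).degree + (2 * r - 2) * multiplicity (dl p) (th p (∑ j, C (M' i j) * f j))) := by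
        rw [Finset.sum_add_distrib]
    _ ≤ ∑ _i : Fin n, m := Finset.sum_le_sum fun i _ => h2 i
    _ = m * n := by rw [Finset.sum_const, Finset.card_univ, Fintype.card_fin, smul_eq_mul, mul_comm]

lemma wx_isProfile (hr : 2 ≤ r) {p : Fin r → K} (hp : Function.Injective p) {v₁ v₂ : ι} (hv : v₁ ≠ v₂) :
    IsProfile k r (wx p v₁ v₂) where
  nonneg := by
    intro v m f _ _
    unfold wx
    have : (2 : ℝ) ≤ r := by exact_mod_cast hr
    split_ifs
    · positivity
    · have h1 : (0 : ℝ) ≤ 2 * r - 2 := by linarith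
      positivity
    · exact le_rfl
  mul := by
    intro v m n f g hf hg hf0 hg0
    have h1 := th_ne_zero hp hf hf0
    have h2 := th_ne_zero hp hg hg0
    unfold wx
    rw [map_mul]
    split_ifs
    · rw [od_mul h1 h2]; push_cast; ring
    · rw [multiplicity_mul (prime_dl hr hp) (finite_mult hr hp (mul_ne_zero h1 h2))]
      push_cast; ring
    · ring
  add := by
    intro v m f g hf hg hf0 hg0 hfg
    have h1 := th_ne_zero hp hf hf0
    have h2 := th_ne_zero hp hg hg0
    have h3 := th_ne_zero hp (hf.add hg) hfg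
    have hr' : (2 : ℝ) ≤ r := by exact_mod_cast hr
    unfold wx
    rw [map_add] at h3 ⊢
    split_ifs
    · have := od_add h3
      rw [← Nat.cast_min]
      exact_mod_cast this
    · have h4 := min_le_emultiplicity_add (p := dl p) (a := th p f) (b := th p g)
      rw [(finite_mult hr hp h1).emultiplicity_eq_multiplicity,
        (finite_mult hr hp h2).emultiplicity_eq_multiplicity,
        (finite_mult hr hp h3).emultiplicity_eq_multiplicity] at h4
      have h5 : min (multiplicity (dl p) (th p f)) (multiplicity (dl p) (th p g)) ≤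
          multiplicity (dl p) (th p f + th p g) := by
        rcases min_le_iff.1 h4 with h | h
        · exact min_le_iff.2 (Or.inl (by exact_mod_cast h))
        · exact min_le_iff.2 (Or.inr (by exact_mod_cast h))
      have h6 : (0 : ℝ) ≤ 2 * r - 2 := by linarith
      rw [← mul_min_of_nonneg _ _ h6]
      apply mul_le_mul_of_nonneg_left _ h6
      rw [← Nat.cast_min]
      exact_mod_cast h5
    · simp
  const := by
    intro v a ha
    unfold wx
    have h1 : th p (C a) = C a := by
      exact (th p).commutes a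
    rw [h1]
    split_ifs
    · rw [od_eq_zero]
      · simp
      · simpa using ha
    · have : multiplicity (dl p) (C a : MvPolynomial (Fin r) K) = 0 := by
        rw [multiplicity_eq_zero]
        intro hdvd
        exact (prime_dl hr hp).not_isUnit (isUnit_of_dvd_unit hdvd ((IsUnit.mk0 a ha).map C))
      rw [this]; simp
    · rfl
  coord := by
    intro v
    refine ⟨Fin.last r, ?_⟩
    unfold wx
    rw [th_last hp]
    split_ifs
    · rw [od_eq_zero]
      · simp
      · simp
    · have : multiplicity (dl p) (1 : MvPolynomial (Fin r) K) = 0 := by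
        rw [multiplicity_eq_zero]
        intro hdvd
        exact (prime_dl hr hp).not_isUnit (isUnit_of_dvd_unit hdvd isUnit_one)
      rw [this]; simp
    · rfl
  subspace := by
    intro m n f M hf hli hM
    have h1 := two_val hr hp (fun j => map (algebraMap k K) (f j)) (fun j => (hf j).map _)
      (linearIndependent_map f hli) (M v₁) (M v₂) (hM v₁) (hM v₂)
    have h2 : ∑ v, ∑ i, wx p v₁ v₂ v (∑ j, C (M v i j) * map (algebraMap k K) (f j)) =
        (∑ i, (od (th p (∑ j, C (M v₁ i j) * map (algebraMap k K) (f j))) : ℝ)) +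
        ∑ i, (2 * (r : ℝ) - 2) *
          (multiplicity (dl p) (th p (∑ j, C (M v₂ i j) * map (algebraMap k K) (f j))) : ℝ) := by
      rw [← Finset.add_sum_erase _ _ (Finset.mem_univ v₁)]
      congr 1
      · refine Finset.sum_congr rfl fun i _ => ?_
        rw [wx, if_pos rfl]
      · rw [← Finset.add_sum_erase _ _ (Finset.mem_erase.2 ⟨hv.symm, Finset.mem_univ v₂⟩)]
        rw [Finset.sum_eq_zero (s := (Finset.univ.erase v₁).erase v₂), add_zero]
        · refine Finset.sum_congr rfl fun i _ => ?_
          rw [wx, if_neg hv.symm, if_pos rfl]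
        · intro v hvv
          refine Finset.sum_eq_zero fun i _ => ?_
          rw [wx, if_neg (Finset.ne_of_mem_erase (Finset.mem_of_mem_erase hvv)),
            if_neg (Finset.ne_of_mem_erase hvv)]
    rw [h2]
    have h3 : ((2 * r - 2 : ℕ) : ℝ) = 2 * (r : ℝ) - 2 := by
      rw [Nat.cast_sub (by omega)]; push_cast; ring
    rw [← h3]
    exact_mod_cast h1

end profile

end Pool.Agent.Helper36.SB
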