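import Pool.Agent.Helper36.SB.Sub
import Pool.Agent.Helper36.SB.Gal
import Pool.Agent.Helper36.SB.Fin
import Pool.Agent.Helper61.AD.PerPoint

/-!
# Project SB: every generic sequence of rational points of `P^r` has a limit profile
-/

set_option autoImplicit false

namespace Pool.Agent.Helper36.SB

open NumberField Filter MvPolynomial
open Pool.Agent.Helper64.Vojta (Pl nv sn above mem_above above_unique nv_nonneg nv_mul nv_one nv_zero nv_pos)
open Pool.Agent.V2

section generic

variable {k L : Type*} [Field k] [NumberField k] [Field L] [NumberField L] [Algebra k L] {d : ℕ}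

/-- A generic sequence of `k`-points is not on a hypersurface defined over `L`. -/
theorem Gen.extend {U : Ultrafilter ℕ} {P : ℕ → Fin d → k} (hG : Gen U P) :
    Gen U (fun n i => algebraMap k L (P n i)) := by
  classical
  intro N s hs hs0
  obtain ⟨e, he⟩ := exists_coeff_ne_zero hs0
  set b := Module.finBasis k L with hb
  obtain ⟨j, hj⟩ : ∃ j, b.coord j (s.coeff e) ≠ 0 := by
    by_contra hcon
    push Not at hcon
    apply he
    apply b.ext_elem
    intro j
    simpa using hcon j
  set t : MvPolynomial (Fin d) k := ∑ a ∈ s.support, monomial a (b.coord j (s.coeff a)) with ht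
  have htc : ∀ a, t.coeff a = b.coord j (s.coeff a) := by
    intro a
    rw [ht, coeff_sum]
    simp only [coeff_monomial]
    rw [Finset.sum_ite_eq']
    split_ifs with h
    · rfl
    · rw [notMem_support_iff.1 h, map_zero]
  have ht0 : t ≠ 0 := by
    intro h
    apply hj
    rw [← htc, h, coeff_zero]
  have hth : t.IsHomogeneous N := by
    rw [ht]
    refine IsHomogeneous.sum _ _ _ fun a ha => ?_
    apply isHomogeneous_monomial
    by_contra hne
    exact (mem_support_iff.1 ha) (hs.coeff_eq_zero hne)
  filter_upwards [hG N t hth ht0] with n hn h0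
  apply hn
  have h1 : b.coord j (eval (fun i => algebraMap k L (P n i)) s) = eval (P n) t := by
    rw [eval_eq' (fun i => algebraMap k L (P n i)) s, map_sum, ht, map_sum]
    refine Finset.sum_congr rfl fun a _ => ?_
    rw [eval_monomial]
    have h2 : ∏ i, algebraMap k L (P n i) ^ a i = algebraMap k L (∏ i, P n i ^ a i) := by
      rw [map_prod]
      exact Finset.prod_congr rfl fun i _ => (map_pow _ _ _).symm
    rw [h2, mul_comm, ← Algebra.smul_def, map_smul, smul_eq_mul, mul_comm]
    congr 1
    rw [Finsupp.prod_fintype _ _ (fun i => pow_zero _)]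
  rw [← h1, h0, map_zero]

end generic

section galois

variable {k L : Type*} [Field k] [NumberField k] [Field L] [NumberField L] [Algebra k L] {d : ℕ}

/-- The limits at conjugate places. -/
theorem lw_gal {U : Ultrafilter ℕ} {P : ℕ → Fin d → k} (hd : 0 < d)
    (hG : Gen U (fun n i => algebraMap k L (P n i)))
    (hH : Tendsto (fun n => vH (fun i => algebraMap k L (P n i))) (U : Filter ℕ) atTop)
    {w w' : Pl L} (σ : L ≃ₐ[k] L) (hσ : ∀ x, nv w' (σ x) = nv w x) {N : ℕ}
    {s : MvPolynomial (Fin d) L} (hs : s.IsHomogeneous N) (hs0 : s ≠ 0) :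
    lw U (fun n i => algebraMap k L (P n i)) w' (map (σ : L →+* L) s) =
      lw U (fun n i => algebraMap k L (P n i)) w s := by
  have hinj : Function.Injective (map (σ := Fin d) (σ : L →+* L)) := map_injective _ σ.injective
  apply lw_unique hd hG hH w' (hs.map _) (by
    intro h
    exact hs0 (hinj (by rw [h, map_zero])))
  refine (lw_tendsto' hd hG hH w hs hs0).congr fun n => ?_
  congr 1
  unfold wf
  have h1 : vn w' (fun i => algebraMap k L (P n i)) = vn w (fun i => algebraMap k L (P n i)) := by
    unfold vn
    congr 1
    funext i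
    rw [← hσ, σ.commutes]
  have h2 : eval (fun i => algebraMap k L (P n i)) (map (σ : L →+* L) s) =
      σ (eval (fun i => algebraMap k L (P n i)) s) := by
    rw [eval_map, eval_eq', eval₂_eq', map_sum]
    refine Finset.sum_congr rfl fun a _ => ?_
    rw [map_mul, map_prod]
    congr 1
    refine Finset.prod_congr rfl fun i _ => ?_
    rw [map_pow, σ.commutes]
  rw [h1, h2, hσ]

theorem vH_algebraMap {r : ℕ} {x : Fin (r + 1) → k} (hx : x ≠ 0) :
    vH (fun i => algebraMap k L (x i)) = Module.finrank k L * Height.logHeight x := by
  have h1 : (fun i => algebraMap k L (x i)) ≠ 0 := by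
    intro h
    apply hx
    funext i
    have := congrFun h i
    simpa using this
  rw [vH_eq h1, Pool.Agent.Helper52.Vojta.logHeight_algebraMap hx]

/-- Soundness: the limits along `U` form a profile. -/
theorem profile_of_sequence [IsGalois k L] {r : ℕ} (S : Finset (Pl k)) (w₀ : S → Pl L)
    (hw₀ : ∀ v : S, w₀ v ∈ above L v.1) {U : Ultrafilter ℕ} {P : ℕ → Fin (r + 1) → k} (hG : Gen U P)
    (hh : Tendsto (fun n => Height.logHeight (P n)) (U : Filter ℕ) atTop) :
    IsProfile k r (fun (v : S) (f : MvPolynomial (Fin (r + 1)) L) =>
      ((above L v.1).card : ℝ) * lw U (fun n i => algebraMap k L (P n i)) (w₀ v) f) ∧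
    ∀ (v : S) (m : ℕ) (f : MvPolynomial (Fin (r + 1)) L), f.IsHomogeneous m → f ≠ 0 →
      Tendsto (fun n => ((above L v.1).card : ℝ) / Module.finrank k L *
        (m * Real.log (sn (w₀ v) (fun i => algebraMap k L (P n i))) -
          Real.log (nv (w₀ v) (eval (fun i => algebraMap k L (P n i)) f))) / Height.logHeight (P n))
        (U : Filter ℕ) (nhds (((above L v.1).card : ℝ) *
          lw U (fun n i => algebraMap k L (P n i)) (w₀ v) f)) := by
  classical
  have hd : 0 < r + 1 := Nat.succ_pos r
  have hG' : Gen U (fun n i => algebraMap k L (P n i)) := hG.extend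
  have hPne := hG.ne_zero hd
  have hfr : (0 : ℝ) < Module.finrank k L := by exact_mod_cast Module.finrank_pos
  have hH : Tendsto (fun n => vH (fun i => algebraMap k L (P n i))) (U : Filter ℕ) atTop := by
    refine (hh.const_mul_atTop hfr).congr' ?_
    filter_upwards [hPne] with n hn
    exact (vH_algebraMap hn).symm
  refine ⟨?_, ?_⟩
  · refine ⟨?_, ?_, ?_, ?_, ?_, ?_⟩
    · intro v m f hf hf0
      exact mul_nonneg (Nat.cast_nonneg _) (lw_nonneg hd hG' hH _ hf hf0)
    · intro v m n f g hf hg hf0 hg0
      show _ * lw U _ _ (f * g) = _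
      rw [lw_mul hd hG' hH _ hf hg hf0 hg0, mul_add]
    · intro v m f g hf hg hf0 hg0 hfg
      show min (_ * lw U _ _ f) (_ * lw U _ _ g) ≤ _ * lw U _ _ (f + g)
      rw [← mul_min_of_nonneg _ _ (Nat.cast_nonneg _)]
      exact mul_le_mul_of_nonneg_left (lw_add hd hG' hH _ hf hg hf0 hg0 hfg) (Nat.cast_nonneg _)
    · intro v a ha
      show _ * lw U _ _ (C a) = 0
      rw [lw_const hd hG' hH _ ha, mul_zero]
    · intro v
      obtain ⟨i, hi⟩ := lw_coord hd hG' hH (w₀ v)
      refine ⟨i, ?_⟩
      show _ * lw U _ _ (X i) = 0
      rw [hi, mul_zero]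
    · intro m n f M hf hli hM
      -- the automorphisms
      have hex : ∀ w' : Pl L, ∃ A : Matrix (Fin n) (Fin n) L, A.det ≠ 0 ∧ ∀ v : S, w' ∈ above L v.1 →
          ∀ i, lw U (fun n i => algebraMap k L (P n i)) w'
            (∑ j, C (A i j) * map (algebraMap k L) (f j)) =
          lw U (fun n i => algebraMap k L (P n i)) (w₀ v)
            (∑ j, C (M v i j) * map (algebraMap k L) (f j)) := by
        intro w'
        by_cases h : ∃ v : S, w' ∈ above L v.1
        · obtain ⟨v, hv⟩ := h
          obtain ⟨σ, hσ⟩ := exists_gal (hw₀ v) hv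
          refine ⟨(M v).map σ, ?_, ?_⟩
          · have h1 : ((M v).map σ).det = σ ((M v).det) := by
              have := RingHom.map_det (σ : L →+* L) (M v)
              exact this.symm
            rw [h1]
            exact (map_ne_zero σ).2 (hM v)
          · intro v' hv' i
            have hvv : v = v' := Subtype.ext (above_unique (mem_above.1 hv) (mem_above.1 hv'))
            subst hvv
            have hrow : (fun j => M v i j) ≠ 0 := by
              intro h0
              exact hM v (Matrix.det_eq_zero_of_row_eq_zero i fun j => congrFun h0 j)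
            have hli' := linearIndependent_map (K := L) f hli
            have hs0 : ∑ j, C (M v i j) * map (algebraMap k L) (f j) ≠ 0 := comb_ne_zero hli' hrow
            have hs : (∑ j, C (M v i j) * map (algebraMap k L) (f j)).IsHomogeneous m :=
              comb_isHomogeneous (fun j => (hf j).map _) _
            rw [← lw_gal hd hG' hH σ hσ hs hs0]
            congr 1
            rw [map_sum]
            refine Finset.sum_congr rfl fun j _ => ?_
            rw [map_mul, map_C, MvPolynomial.map_map]
            have h3 : (σ : L →+* L).comp (algebraMap k L) = algebraMap k L := by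
              ext x
              exact σ.commutes x
            rw [h3]
            rfl
        · exact ⟨1, by rw [Matrix.det_one]; exact one_ne_zero, fun v hv => absurd ⟨v, hv⟩ h⟩
      choose A hA1 hA2 using hex
      have hdisj : (↑(Finset.univ : Finset S) : Set S).PairwiseDisjoint (fun v : S => above L v.1) := by
        intro v _ v' _ hne
        rw [Function.onFun, Finset.disjoint_left]
        intro w' h1 h2
        exact hne (Subtype.ext (above_unique (mem_above.1 h1) (mem_above.1 h2)))
      have h1 := subspace_lw hd hG' hH (Finset.univ.biUnion fun v : S => above L v.1)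
        (fun j => map (algebraMap k L) (f j)) (fun j => (hf j).map _) (linearIndependent_map (K := L) f hli)
        A (fun w' _ => hA1 w')
      rw [Finset.sum_biUnion hdisj] at h1
      refine le_trans (le_of_eq ?_) h1
      refine Finset.sum_congr rfl fun v _ => ?_
      rw [Finset.sum_congr rfl (fun w' hw' => Finset.sum_congr rfl fun i _ => hA2 w' v hw' i), Finset.sum_const,
        nsmul_eq_mul, Finset.mul_sum]
  · intro v m f hf hf0
    have h1 := (lw_tendsto' hd hG' hH (w₀ v) hf hf0).const_mul ((above L v.1).card : ℝ)
    refine h1.congr' ?_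
    filter_upwards [hPne] with n hn
    rw [vH_algebraMap hn]
    unfold wf
    have h2 : vn (w₀ v) (fun i => algebraMap k L (P n i)) = sn (w₀ v) (fun i => algebraMap k L (P n i)) := rfl
    rw [h2]
    by_cases h0 : Height.logHeight (P n) = 0
    · rw [h0]; simp
    · field_simp

end galois

end Pool.Agent.Helper36.SB
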