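import Pool.Agent.Helper36.SB.Lim

/-!
# Project SB: the subspace inequality for the limits (after helper21's block AR5)
-/

set_option autoImplicit false

namespace Pool.Agent.Helper36.SB

open NumberField Filter MvPolynomial
open Pool.Agent.Helper64.Vojta (Pl nv nv_nonneg nv_mul nv_one nv_zero nv_pos)
open Pool.Agent.V2

variable {k : Type*} [Field k] [NumberField k] {d : ℕ}

theorem log_nv_le_lb {s : MvPolynomial (Fin d) k} (hs0 : s ≠ 0) {N : ℕ} (hs : s.IsHomogeneous N)
    (x : Fin d → k) (hx0 : x ≠ 0) (v : Pl k) :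
    nv v (eval x s) ≤ Real.exp (lb s v) * vn v x ^ N := by
  by_cases hx : eval x s = 0
  · rw [hx, nv_zero]
    have := vn_pos v hx0
    positivity
  · have h1 := log_nv_eval_le' hs x hx0 hx v
    have h2 := vn_pos v hx0
    rw [← Real.exp_log (nv_pos v hx)]
    calc Real.exp (Real.log (nv v (eval x s))) ≤ Real.exp (N * Real.log (vn v x) + lb s v) :=
          Real.exp_le_exp.mpr h1
      _ = Real.exp (lb s v) * vn v x ^ N := by
          rw [Real.exp_add, Real.exp_nat_mul, Real.exp_log h2, mul_comm]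

theorem comb_isHomogeneous {n N : ℕ} {f : Fin n → MvPolynomial (Fin d) k} (hf : ∀ j, (f j).IsHomogeneous N)
    (c : Fin n → k) : (∑ j, C (c j) * f j).IsHomogeneous N :=
  IsHomogeneous.sum _ _ _ fun j _ => (hf j).C_mul _

omit [NumberField k] in
theorem comb_ne_zero {n : ℕ} {f : Fin n → MvPolynomial (Fin d) k} (hli : LinearIndependent k f)
    {c : Fin n → k} (hc : c ≠ 0) : ∑ j, C (c j) * f j ≠ 0 := by
  intro h
  apply hc
  funext i
  refine Fintype.linearIndependent_iff.1 hli c ?_ i
  rw [← h]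
  exact Finset.sum_congr rfl fun j _ => smul_eq_C_mul _ _

theorem subspace_lw {n N : ℕ} (hd : 0 < d) {U : Ultrafilter ℕ} {F : ℕ → Fin d → k} (hG : Gen U F)
    (hH : Tendsto (fun n => vH (F n)) (U : Filter ℕ) atTop) (T : Finset (Pl k))
    (f : Fin n → MvPolynomial (Fin d) k) (hf : ∀ j, (f j).IsHomogeneous N) (hli : LinearIndependent k f)
    (M : Pl k → Matrix (Fin n) (Fin n) k) (hM : ∀ v ∈ T, (M v).det ≠ 0) :
    ∑ v ∈ T, ∑ i, lw U F v (∑ j, C (M v i j) * f j) ≤ N * n := by
  classical
  by_contra hcon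
  push Not at hcon
  set lam : Pl k → Fin n → ℝ := fun v i => lw U F v (∑ j, C (M v i j) * f j) with hlam
  set σ : ℝ := ∑ v ∈ T, ∑ i, lam v i with hσ
  have hσN : (N : ℝ) * n < σ := hcon
  have hm : 0 < n := by
    rcases Nat.eq_zero_or_pos n with h | h
    · subst h
      simp [hσ] at hσN
    · exact h
  have hTc : 0 < T.card := by
    rw [Finset.card_pos]
    by_contra h
    rw [Finset.not_nonempty_iff_eq_empty] at h
    have : σ = 0 := by rw [hσ, h]; simp
    rw [this] at hσN
    have : (0 : ℝ) ≤ (N : ℝ) * n := by positivity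
    linarith
  have hm' : (0 : ℝ) < n := by exact_mod_cast hm
  have hTc' : (0 : ℝ) < T.card := by exact_mod_cast hTc
  have hrow : ∀ v ∈ T, ∀ i, (fun j => M v i j) ≠ 0 := by
    intro v hv i h0
    apply hM v hv
    exact Matrix.det_eq_zero_of_row_eq_zero i fun j => congrFun h0 j
  let Fr : Frm k (Fin n) :=
    { S := T.toRight
      L := fun v => if v ∈ T then M v else 1
      hL := fun v => by
        by_cases h : v ∈ T
        · rw [if_pos h]; exact hM v h
        · rw [if_neg h, Matrix.det_one]; exact one_ne_zero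
      hS := fun v hv => by
        have h : Sum.inr v ∉ T := fun h => hv (Finset.mem_toRight.mpr h)
        rw [if_neg h] }
  let c : Pl k → Fin n → ℝ := fun v i => if v ∈ T then -lam v i + σ / (n * T.card) else 0
  have hcT : ∀ v, v ∈ T → ∀ i, c v i = -lam v i + σ / (n * T.card) := fun v h i => by
    simp only [c, h, if_true]
  have hcN : ∀ v, v ∉ T → ∀ i, c v i = 0 := fun v h i => by simp only [c, h, if_false]
  have hFT : ∀ v, v ∈ T → Fr.L v = M v := fun v h => by simp only [Fr, h, if_true]
  have hFN : ∀ v, v ∉ T → Fr.L v = 1 := fun v h => by simp only [Fr, h, if_false]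
  have hcE : ExpS Fr.S c := fun v hv => by
    have h : Sum.inr v ∉ T := fun h => hv (Finset.mem_toRight.mpr h)
    funext i
    exact hcN _ h i
  have hdeg : deg c = 0 := by
    unfold deg
    rw [AR5.gsum_supp T _ fun v hv => Finset.sum_eq_zero fun i _ => hcN v hv i]
    have h1 : ∀ v ∈ T, ∑ i, c v i = -(∑ i, lam v i) + σ / T.card := by
      intro v hv
      simp_rw [hcT v hv]
      rw [Finset.sum_add_distrib, Finset.sum_neg_distrib, Finset.sum_const, Finset.card_univ,
        Fintype.card_fin, nsmul_eq_mul]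
      congr 1
      field_simp
    rw [Finset.sum_congr rfl h1, Finset.sum_add_distrib, Finset.sum_neg_distrib,
      ← hσ, Finset.sum_const, nsmul_eq_mul]
    field_simp
    ring
  -- the points
  let y : ℕ → Fin n → k := fun j i => eval (F j) (f i)
  have hf0 : ∀ i, f i ≠ 0 := fun i => hli.ne_zero i
  let BB : Pl k → ℝ := fun v => ∑ i, lb (f i) v
  have hBBf : FinS BB := FinS.sum Finset.univ fun i _ => finS_lb (hf0 i)
  have hBB0 : ∀ v, 0 ≤ BB v := fun v => Finset.sum_nonneg fun i _ => lb_nonneg (f i) v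
  have hBBle : ∀ i v, lb (f i) v ≤ BB v := fun i v =>
    Finset.single_le_sum (f := fun i => lb (f i) v) (fun i _ => lb_nonneg (f i) v) (Finset.mem_univ i)
  set κ : ℝ := σ / n - N with hκ
  have hκ0 : 0 < κ := by
    rw [hκ, sub_pos, lt_div_iff₀ hm']
    linarith
  set ε : ℝ := κ / (4 * T.card) with hε
  have hε0 : 0 < ε := by positivity
  have e2 : ∀ᶠ j in (U : Filter ℕ), ∀ v : T, ∀ i, eval (F j) (∑ j, C (M v i j) * f j) ≠ 0 :=
    Filter.eventually_all.mpr fun v => Filter.eventually_all.mpr fun i =>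
      hG N _ (comb_isHomogeneous hf _) (comb_ne_zero hli (hrow v.1 v.2 i))
  have e3 : ∀ᶠ j in (U : Filter ℕ), ∀ v : T, ∀ i,
      lam v i - ε < wf v.1 N (∑ j, C (M v i j) * f j) (F j) / vH (F j) :=
    Filter.eventually_all.mpr fun v => Filter.eventually_all.mpr fun i =>
      (lw_tendsto' hd hG hH v.1 (comb_isHomogeneous hf _)
        (comb_ne_zero hli (hrow v.1 v.2 i))).eventually_const_lt (by
        show lam v i - ε < lam v i
        linarith)
  have e4 : ∀ᶠ j in (U : Filter ℕ), 1 ≤ vH (F j) := hH.eventually_ge_atTop 1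
  have e5 : ∀ᶠ j in (U : Filter ℕ), 4 * gsum BB / κ ≤ vH (F j) := hH.eventually_ge_atTop _
  have e6 : ∀ᶠ j in (U : Filter ℕ), eval (F j) (f ⟨0, hm⟩) ≠ 0 := hG N _ (hf _) (hf0 _)
  have hmain : ∀ᶠ j in (U : Filter ℕ), y j ≠ 0 ∧
      tH Fr (sc (vH (F j)) c) (y j) ≤ -(κ / 2) * vH (F j) := by
    filter_upwards [e2, e3, e4, e5, e6, hG.ne_zero hd] with j h2 h3 h4 h5 h6' hFj
    have hy : y j ≠ 0 := fun h => h6' (congrFun h ⟨0, hm⟩)
    refine ⟨hy, ?_⟩
    have hj0 : 0 < vH (F j) := by linarith
    rw [div_le_iff₀ hκ0] at h5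
    have hvn : ∀ v, 0 < vn v (F j) := fun v => vn_pos v hFj
    have hloc : ∀ v, Real.log (tn Fr (sc (vH (F j)) c) v (y j)) ≤
        N * Real.log (vn v (F j)) + (BB v +
          (if v ∈ T then (ε - σ / (n * T.card)) * vH (F j) else 0)) := by
      intro v
      rw [Real.log_le_iff_le_exp (tn_pos _ _ _ hy)]
      refine tn_le _ _ _ _ (Real.exp_pos _).le fun i => ?_
      by_cases hv : v ∈ T
      · rw [if_pos hv, hFT v hv]
        have h6 : Matrix.mulVec (M v) (y j) i = eval (F j) (∑ j, C (M v i j) * f j) := by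
          rw [map_sum]
          simp [Matrix.mulVec, dotProduct, y]
        rw [h6]
        have h7 := h2 ⟨v, hv⟩ i
        have h8 := h3 ⟨v, hv⟩ i
        rw [lt_div_iff₀ hj0] at h8
        have h9 : sc (vH (F j)) c v i = vH (F j) * (-lam v i + σ / (n * T.card)) := by
          show vH (F j) * c v i = _
          rw [hcT v hv]
        rw [h9, ← Real.exp_log (nv_pos v h7), ← Real.exp_add]
        apply Real.exp_le_exp.mpr
        unfold wf at h8
        have h10 := hBB0 v
        have h11 : vH (F j) * (-lam v i + σ / (n * T.card)) =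
            -(lam v i * vH (F j)) + σ / (n * T.card) * vH (F j) := by ring
        rw [h11]
        have h12 : (lam v i - ε) * vH (F j) = lam v i * vH (F j) - ε * vH (F j) := by
          ring
        simp only at h8
        rw [h12] at h8
        have h13 : (ε - σ / (n * T.card)) * vH (F j) =
            ε * vH (F j) - σ / (n * T.card) * vH (F j) := by ring
        rw [h13]
        linarith
      · rw [if_neg hv, hFN v hv, Matrix.one_mulVec]
        have h9 : sc (vH (F j)) c v i = 0 := by
          show vH (F j) * c v i = _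
          rw [hcN v hv, mul_zero]
        rw [h9, neg_zero, Real.exp_zero, mul_one]
        refine (log_nv_le_lb (hf0 i) (hf i) (F j) hFj v).trans ?_
        rw [add_zero, Real.exp_add, Real.exp_nat_mul, Real.exp_log (hvn v), mul_comm]
        refine mul_le_mul_of_nonneg_left ?_ (pow_nonneg (hvn v).le _)
        exact Real.exp_le_exp.mpr (hBBle i v)
    have hfT : FinS (fun v : Pl k =>
        (if v ∈ T then (ε - σ / (n * T.card)) * vH (F j) else 0)) :=
      AR5.finS_supp T _ fun v hv => if_neg hv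
    have hg := gsum_mono (finS_tn Fr (sc (vH (F j)) c) (hcE.sc _) hy)
      (((finS_vn hFj).const_mul (N : ℝ)).add (hBBf.add hfT)) hloc
    rw [gsum_add ((finS_vn hFj).const_mul (N : ℝ)) (hBBf.add hfT), gsum_add hBBf hfT,
      gsum_const_mul, AR5.gsum_supp T _ (fun v hv => if_neg hv)] at hg
    have h6 : ∑ v ∈ T, (if v ∈ T then (ε - σ / (n * T.card)) * vH (F j) else 0) =
        (κ / 4 - σ / n) * vH (F j) := by
      rw [Finset.sum_congr rfl fun v hv => if_pos hv, Finset.sum_const, nsmul_eq_mul, hε]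
      field_simp
    rw [h6] at hg
    have h7 : gsum (fun v => Real.log (vn v (F j))) = vH (F j) := rfl
    rw [h7] at hg
    have h8 : tH Fr (sc (vH (F j)) c) (y j) =
        gsum (fun v => Real.log (tn Fr (sc (vH (F j)) c) v (y j))) := rfl
    rw [h8]
    refine hg.trans ?_
    have h9 : σ / n = κ + N := by rw [hκ]; ring
    rw [h9]
    nlinarith
  obtain ⟨W, hW, hyW⟩ := subspace Fr c hcE hdeg U (fun j => vH (F j)) hH (κ / 2) (by positivity) y
    hmain
  obtain ⟨g, hg0, hgW⟩ := Submodule.exists_le_ker_of_lt_top W (lt_top_iff_ne_top.mpr hW)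
  have hfy : ∀ z : Fin n → k, g z = ∑ i, g (Pi.single i 1) * z i := by
    intro z
    conv_lhs => rw [pi_eq_sum_univ' z]
    rw [map_sum]
    refine Finset.sum_congr rfl fun i _ => ?_
    rw [map_smul, smul_eq_mul, mul_comm]
  have hc0 : (fun i => g (Pi.single i 1)) ≠ 0 := by
    intro h0
    apply hg0
    apply LinearMap.ext
    intro z
    rw [hfy z]
    simp only [LinearMap.zero_apply]
    exact Finset.sum_eq_zero fun i _ => by rw [congrFun h0 i]; simp
  obtain ⟨j, hj1, hj2⟩ := ((hG N _ (comb_isHomogeneous hf _) (comb_ne_zero hli hc0)).and hyW).exists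
  apply hj1
  have h1 := hfy (y j)
  have h2 : g (y j) = 0 := LinearMap.mem_ker.mp (hgW hj2)
  rw [h2] at h1
  rw [map_sum]
  simp only [map_mul, eval_C]
  exact h1.symm

end Pool.Agent.Helper36.SB
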