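import Pool.Agent.Helper36.SB.Coord

/-!
# Project SB: the discriminant of a monic polynomial of degree `r ≥ 2` is prime, of total degree `2 r - 2`
-/

set_option autoImplicit false

namespace Pool.Agent.Helper36.SB

open MvPolynomial

/-- Substitution `y_i = ∏_j (p_i - x_j)`. -/
noncomputable def ps {K : Type*} [Field K] {r : ℕ} (p : Fin r → K) :
    MvPolynomial (Fin r) K →ₐ[K] MvPolynomial (Fin r) K :=
  aeval (fun i => ∏ j, (C (p i) - X j))

/-- Substitution of `x_j` for `x_i`. -/
noncomputable def su (K : Type*) [Field K] {r : ℕ} (i j : Fin r) :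
    MvPolynomial (Fin r) K →ₐ[K] MvPolynomial (Fin r) K :=
  aeval (Function.update X i (X j))

section

variable {K : Type*} [Field K] {r : ℕ} {p : Fin r → K}

lemma ps_Py (hp : Function.Injective p) :
    (Py p).map (ps p : MvPolynomial (Fin r) K →+* MvPolynomial (Fin r) K) =
      ∏ j, (Polynomial.X - Polynomial.C (X j)) := by
  symm
  apply eq_map_Py hp
  · exact Polynomial.monic_prod_of_monic _ _ fun j _ => Polynomial.monic_X_sub_C _
  · rw [Polynomial.natDegree_prod_of_monic _ _ fun j _ => Polynomial.monic_X_sub_C _]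
    simp
  · intro i
    rw [Polynomial.eval_prod]
    simp [ps]

lemma ps_dl (hr : 0 < r) (hp : Function.Injective p) :
    (-1) ^ (r * (r - 1) / 2) * ps p (dl p) = ∏ i, ∏ j ∈ Finset.univ.erase i, (X i - X j) := by
  rw [← discr_prod hr]
  congr 1
  unfold dl
  have h := discr_map (ps p : MvPolynomial (Fin r) K →+* MvPolynomial (Fin r) K) (Py p)
    (by rw [Py_natDegree hp]; exact hr) (by rw [(Py_monic hp).leadingCoeff, map_one]; exact one_ne_zero)
  rw [ps_Py hp] at h
  exact h

lemma exists_roots [IsAlgClosed K] (Q : Polynomial K) (hQ : Q.Monic) (hd : Q.natDegree = r) :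
    ∃ x : Fin r → K, Q = ∏ j, (Polynomial.X - Polynomial.C (x j)) := by
  have hs := IsAlgClosed.splits Q
  have hcard : Multiset.card Q.roots = r := by
    rw [← hd]
    exact (Polynomial.splits_iff_card_roots.1 hs)
  have hprod : Q = (Q.roots.map fun a => Polynomial.X - Polynomial.C a).prod := by
    conv_lhs => rw [hs.eq_prod_roots, hQ.leadingCoeff, map_one, one_mul]
  set l := Q.roots.toList with hl
  have hlen : l.length = r := by rw [hl, Multiset.length_toList, hcard]
  refine ⟨fun j => l.get (Fin.cast hlen.symm j), ?_⟩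
  rw [hprod, Finset.prod_eq_multiset_prod]
  congr 1
  have h1 : Finset.univ.val.map (fun j : Fin r => l.get (Fin.cast hlen.symm j)) = Q.roots := by
    rw [Fin.univ_val_map]
    have : List.ofFn (fun j : Fin r => l.get (Fin.cast hlen.symm j)) = l := by
      apply List.ext_get
      · simp [hlen]
      · intro n h1 h2
        simp
    rw [this, hl, Multiset.coe_toList]
  conv_lhs => rw [← h1]
  rw [Multiset.map_map]
  rfl

lemma ps_injective [IsAlgClosed K] (hp : Function.Injective p) : Function.Injective (ps p) := by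
  rw [injective_iff_map_eq_zero]
  intro g hg
  have : Infinite K := IsAlgClosed.instInfinite
  apply MvPolynomial.funext
  intro y
  rw [map_zero]
  obtain ⟨x, hx⟩ := exists_roots ((Py p).map (eval y)) ((Py_monic hp).map _) (by
    rw [(Py_monic hp).natDegree_map, Py_natDegree hp])
  have hy : ∀ i, y i = ∏ j, (p i - x j) := by
    intro i
    have h1 : ((Py p).map (eval y)).eval (p i) = y i := by
      have h2 : p i = eval y (C (p i)) := by simp
      rw [h2, Polynomial.eval_map, Polynomial.eval₂_at_apply, Py_eval hp, eval_X]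
    rw [← h1, hx, Polynomial.eval_prod]
    simp
  have h3 : eval x (ps p g) = eval y g := by
    unfold ps
    rw [← aeval_eq_eval, ← aeval_eq_eval, ← AlgHom.comp_apply, comp_aeval]
    congr 2
    funext i
    rw [hy i, map_prod]
    simp
  rw [← h3, hg, map_zero]

lemma ps_symm (g : MvPolynomial (Fin r) K) : (ps p g).IsSymmetric := by
  intro σ
  have : (rename σ : MvPolynomial (Fin r) K →ₐ[K] MvPolynomial (Fin r) K).comp (ps p) = ps p := by
    apply MvPolynomial.algHom_ext
    intro i
    simp only [ps, AlgHom.comp_apply, aeval_X, map_prod, map_sub, rename_C, rename_X]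
    exact Equiv.prod_comp σ (fun j => (C (p i) - X j : MvPolynomial (Fin r) K))
  exact DFunLike.congr_fun this g

lemma ps_surj (hp : Function.Injective p) {h : MvPolynomial (Fin r) K} (hs : h.IsSymmetric) :
    ∃ g, ps p g = h := by
  obtain ⟨q, hq⟩ := esymmAlgHom_fin_surjective K (le_refl r) ⟨h, hs⟩
  have hE : ∀ i : Fin r, ∃ E, ps p E = esymm (Fin r) K (i + 1) := by
    intro i
    refine ⟨(-1) ^ (i + 1 : ℕ) * (Py p).coeff (r - (i + 1)), ?_⟩
    have h1 : ps p ((Py p).coeff (r - (i + 1))) =
        ((Py p).map (ps p : MvPolynomial (Fin r) K →+* MvPolynomial (Fin r) K)).coeff (r - (i + 1)) := by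
      rw [Polynomial.coeff_map]; rfl
    have h2 := Multiset.prod_X_sub_C_coeff (Finset.univ.val.map (X : Fin r → MvPolynomial (Fin r) K))
      (k := r - (i + 1)) (by simp)
    rw [Multiset.map_map] at h2
    have h3 : (∏ j : Fin r, (Polynomial.X - Polynomial.C (X j : MvPolynomial (Fin r) K))) =
        (Multiset.map ((fun t => Polynomial.X - Polynomial.C t) ∘ X) Finset.univ.val).prod := rfl
    have h4 : r - (r - ((i : ℕ) + 1)) = i + 1 := by have := i.2; omega
    rw [map_mul, h1, ps_Py hp, h3, h2, ← esymm_eq_multiset_esymm]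
    simp only [Multiset.card_map, Finset.card_val, Finset.card_univ, Fintype.card_fin]
    rw [h4, map_pow, map_neg, map_one, ← mul_assoc, ← pow_add, ← two_mul, pow_mul]
    simp
  choose E hE using hE
  refine ⟨aeval E q, ?_⟩
  have h5 : ps p (aeval E q) = (aeval (fun i : Fin r => esymm (Fin r) K (i + 1))) q := by
    rw [← AlgHom.comp_apply, comp_aeval]
    congr 2
    funext i
    exact hE i
  rw [h5]
  have h6 := congrArg Subtype.val hq
  simp only at h6
  rw [← h6, esymmAlgHom, aeval_def, aeval_def]
  have h7 := MvPolynomial.map_aeval (fun i : Fin r => (⟨esymm (Fin r) K (i + 1), esymm_isSymmetric _ _ _⟩ :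
    symmetricSubalgebra (Fin r) K)) (algebraMap (symmetricSubalgebra (Fin r) K) (MvPolynomial (Fin r) K)) q
  simp only [aeval_def] at h7
  exact h7.symm

/-! ### divisibility by `x_i - x_j` -/

lemma sub_dvd_iff {i j : Fin r} {f : MvPolynomial (Fin r) K} : (X i - X j) ∣ f ↔ su K i j f = 0 := by
  constructor
  · rintro ⟨g, rfl⟩
    have h1 : su K i j (X i - X j) = 0 := by
      rw [map_sub]
      by_cases h : i = j
      · subst h; simp
      · unfold su
        rw [aeval_X, aeval_X, Function.update_self, Function.update_of_ne (Ne.symm h), sub_self]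
    rw [map_mul, h1, zero_mul]
  · intro h
    rw [← Ideal.mem_span_singleton, ← Ideal.Quotient.eq_zero_iff_mem]
    set q := Ideal.Quotient.mkₐ K (Ideal.span {(X i - X j : MvPolynomial (Fin r) K)})
    have h1 : q.comp (su K i j) = q := by
      apply MvPolynomial.algHom_ext
      intro l
      rw [AlgHom.comp_apply]
      unfold su
      rw [aeval_X]
      by_cases hl : l = i
      · subst hl
        rw [Function.update_self]
        symm
        rw [← sub_eq_zero, ← map_sub]
        exact Ideal.Quotient.eq_zero_iff_mem.2 (Ideal.mem_span_singleton_self _)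
      · rw [Function.update_of_ne hl]
    have h2 := DFunLike.congr_fun h1 f
    rw [AlgHom.comp_apply, h, map_zero] at h2
    exact h2.symm

lemma prime_sub {i j : Fin r} (hij : i ≠ j) : Prime (X i - X j : MvPolynomial (Fin r) K) := by
  refine ⟨?_, ?_, ?_⟩
  · rw [sub_ne_zero]
    exact fun h => hij (X_injective h)
  · intro h
    have h1 := h.map (su K i j)
    rw [sub_dvd_iff.1 (dvd_refl _)] at h1
    exact not_isUnit_zero h1
  · intro a b hab
    rw [sub_dvd_iff, map_mul, mul_eq_zero] at hab
    rw [sub_dvd_iff, sub_dvd_iff]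
    exact hab

/-- A symmetric polynomial divisible by `x_i - x_j` is divisible by its square. -/
lemma sq_dvd [CharZero K] {i j : Fin r} (hij : i ≠ j) {f : MvPolynomial (Fin r) K} (hf : f.IsSymmetric)
    (h : (X i - X j) ∣ f) : (X i - X j) ^ 2 ∣ f := by
  obtain ⟨g, hg⟩ := h
  have h1 := hf (Equiv.swap i j)
  rw [hg, map_mul, map_sub, rename_X, rename_X, Equiv.swap_apply_left, Equiv.swap_apply_right] at h1
  have h2 : rename (Equiv.swap i j) g = -g := by
    have h3 : (X i - X j : MvPolynomial (Fin r) K) ≠ 0 := (prime_sub hij).ne_zero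
    apply mul_left_cancel₀ h3
    linear_combination -h1
  have h3 : su K i j (rename (Equiv.swap i j) g) = su K i j g := by
    have : (su K i j).comp (rename (Equiv.swap i j)) = su K i j := by
      apply MvPolynomial.algHom_ext
      intro l
      rw [AlgHom.comp_apply, rename_X]
      unfold su
      rw [aeval_X, aeval_X]
      by_cases hl : l = i
      · subst hl
        rw [Equiv.swap_apply_left, Function.update_self, Function.update_of_ne (Ne.symm hij)]
      · by_cases hl' : l = j
        · subst hl'
          rw [Equiv.swap_apply_right, Function.update_self, Function.update_of_ne (Ne.symm hij)]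
        · rw [Equiv.swap_apply_of_ne_of_ne hl hl']
    exact DFunLike.congr_fun this g
  rw [h2, map_neg] at h3
  have h4 : su K i j g = 0 := by
    have h5 : (2 : MvPolynomial (Fin r) K) * su K i j g = 0 := by linear_combination -h3
    have h6 : (2 : MvPolynomial (Fin r) K) ≠ 0 := by
      have : (2 : MvPolynomial (Fin r) K) = C 2 := (map_ofNat C 2).symm
      rw [this, Ne, C_eq_zero]
      exact two_ne_zero
    exact (mul_eq_zero.1 h5).resolve_left h6
  rw [hg, sq]
  exact mul_dvd_mul_left _ (sub_dvd_iff.2 h4)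

lemma all_dvd {i j : Fin r} (hij : i ≠ j) {f : MvPolynomial (Fin r) K} (hf : f.IsSymmetric)
    (h : (X i - X j) ∣ f) {a b : Fin r} (hab : a ≠ b) : (X a - X b) ∣ f := by
  obtain ⟨σ, h1, h2⟩ : ∃ σ : Equiv.Perm (Fin r), σ i = a ∧ σ j = b := by
    refine ⟨Equiv.swap (Equiv.swap i a j) b * Equiv.swap i a, ?_, ?_⟩
    · rw [Equiv.Perm.mul_apply, Equiv.swap_apply_left]
      apply Equiv.swap_apply_of_ne_of_ne
      · intro h
        apply hij
        have := (Equiv.swap i a).injective (a₁ := i) (a₂ := j) (by rw [Equiv.swap_apply_left]; exact h)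
        exact this
      · exact hab
    · rw [Equiv.Perm.mul_apply, Equiv.swap_apply_left]
  obtain ⟨g, hg⟩ := h
  have h3 := hf σ
  rw [hg, map_mul, map_sub, rename_X, rename_X, h1, h2] at h3
  rw [hg, ← h3]
  exact dvd_mul_right _ _

lemma vand_dvd [CharZero K] {i j : Fin r} (hij : i ≠ j) {f : MvPolynomial (Fin r) K} (hf : f.IsSymmetric)
    (h : (X i - X j) ∣ f) : (∏ i, ∏ j ∈ Finset.univ.erase i, (X i - X j)) ∣ f := by
  have hcompl : ∀ i : Fin r, Finset.univ.erase i = {i}ᶜ := by
    intro i; ext j; simp
  simp_rw [hcompl]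
  have h0 := Finset.prod_prod_Ioi_mul_eq_prod_prod_off_diag
    (fun a b : Fin r => (X b - X a : MvPolynomial (Fin r) K))
  rw [← h0, Finset.prod_sigma']
  apply Finset.prod_dvd_of_isRelPrime
  · rintro ⟨a, b⟩ hab ⟨c, d⟩ hcd hne
    simp only [Finset.coe_sigma, Set.mem_sigma_iff, Finset.mem_coe, Finset.mem_univ, Finset.mem_Ioi,
      true_and] at hab hcd
    have key : IsRelPrime (X a - X b : MvPolynomial (Fin r) K) (X c - X d) := by
      rw [(prime_sub hab.ne).irreducible.isRelPrime_iff_not_dvd, sub_dvd_iff, map_sub]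
      unfold su
      rw [aeval_X, aeval_X, sub_eq_zero]
      intro h1
      by_cases hc : c = a
      · subst hc
        rw [Function.update_self, Function.update_of_ne hcd.ne'] at h1
        have h2 := X_injective h1
        apply hne
        rw [h2]
      · rw [Function.update_of_ne hc] at h1
        by_cases hd : d = a
        · subst hd
          rw [Function.update_self] at h1
          have h2 := X_injective h1
          rw [h2] at hcd
          exact absurd hcd (not_lt.2 hab.le)
        · rw [Function.update_of_ne hd] at h1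
          exact hcd.ne (X_injective h1)
    have hassoc : ∀ u v : Fin r, Associated (X u - X v : MvPolynomial (Fin r) K) (X v - X u) := by
      intro u v
      refine ⟨-1, ?_⟩
      simp
    have k2 : IsRelPrime (X a - X b : MvPolynomial (Fin r) K) (X d - X c) := by
      intro z h1 h2
      exact key h1 (h2.trans (hassoc d c).dvd)
    have k3 : IsRelPrime (X b - X a : MvPolynomial (Fin r) K) (X c - X d) := by
      intro z h1 h2
      exact key (h1.trans (hassoc b a).dvd) h2
    have k4 : IsRelPrime (X b - X a : MvPolynomial (Fin r) K) (X d - X c) := by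
      intro z h1 h2
      exact key (h1.trans (hassoc b a).dvd) (h2.trans (hassoc d c).dvd)
    simp only [Function.onFun]
    exact (IsRelPrime.mul_right key k2).mul_left (IsRelPrime.mul_right k3 k4)
  · rintro ⟨a, b⟩ hab
    simp only [Finset.mem_sigma, Finset.mem_univ, Finset.mem_Ioi, true_and] at hab
    have h1 := sq_dvd hab.ne hf (all_dvd hij hf h hab.ne)
    have h2 : ((X a - X b) * (X b - X a) : MvPolynomial (Fin r) K) = -(X a - X b) ^ 2 := by ring
    simp only
    rw [h2]
    exact (neg_dvd).2 h1

/-- `dl` divides every polynomial which vanishes when two roots coincide. -/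
lemma dl_dvd [CharZero K] [IsAlgClosed K] (hp : Function.Injective p) {i j : Fin r} (hij : i ≠ j)
    {f : MvPolynomial (Fin r) K} (h : su K i j (ps p f) = 0) : dl p ∣ f := by
  have hr : 0 < r := lt_of_le_of_lt (Nat.zero_le _) i.2
  obtain ⟨q, hq⟩ := vand_dvd hij (ps_symm (p := p) f) (sub_dvd_iff.2 h)
  have hV := ps_dl hr hp
  rw [← hV] at hq
  set c : MvPolynomial (Fin r) K := (-1) ^ (r * (r - 1) / 2) with hc
  have hc0 : c ≠ 0 := pow_ne_zero _ (neg_ne_zero.2 one_ne_zero)
  have hcs : ∀ σ : Equiv.Perm (Fin r), rename σ c = c := by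
    intro σ
    rw [hc, map_pow, map_neg, map_one]
  have hd0 : ps p (dl p) ≠ 0 := by
    intro h0
    rw [h0, mul_zero] at hV
    have h1 := hV.symm
    rw [Finset.prod_eq_zero_iff] at h1
    obtain ⟨a, _, ha⟩ := h1
    rw [Finset.prod_eq_zero_iff] at ha
    obtain ⟨b, hb, hab⟩ := ha
    exact (prime_sub (K := K) (Finset.ne_of_mem_erase hb).symm).ne_zero hab
  have hqs : (c * q).IsSymmetric := by
    intro σ
    have h1 := ps_symm (p := p) f σ
    rw [hq, map_mul, map_mul, hcs σ, ps_symm (p := p) (dl p) σ] at h1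
    rw [map_mul, hcs σ]
    apply mul_left_cancel₀ hd0
    linear_combination h1
  obtain ⟨g, hg⟩ := ps_surj hp hqs
  refine ⟨g, ?_⟩
  apply ps_injective hp
  rw [map_mul, hg, hq]
  ring

lemma su_ps_dl (hp : Function.Injective p) {i j : Fin r} (hij : i ≠ j) : su K i j (ps p (dl p)) = 0 := by
  have hr : 0 < r := lt_of_le_of_lt (Nat.zero_le _) i.2
  rw [← sub_dvd_iff]
  have h1 : (X i - X j : MvPolynomial (Fin r) K) ∣ (-1) ^ (r * (r - 1) / 2) * ps p (dl p) := by
    rw [ps_dl hr hp]
    exact (Finset.dvd_prod_of_mem _ (Finset.mem_erase.2 ⟨hij.symm, Finset.mem_univ j⟩)).trans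
      (Finset.dvd_prod_of_mem (fun i => ∏ j ∈ Finset.univ.erase i, (X i - X j)) (Finset.mem_univ i))
  rcases neg_one_pow_eq_or (MvPolynomial (Fin r) K) (r * (r - 1) / 2) with h2 | h2
  · rwa [h2, one_mul] at h1
  · rw [h2, neg_one_mul] at h1
    exact (dvd_neg).1 h1

/-- The discriminant is a prime element. -/
lemma prime_dl [CharZero K] [IsAlgClosed K] (hr : 2 ≤ r) (hp : Function.Injective p) : Prime (dl p) := by
  have hij : (⟨0, by omega⟩ : Fin r) ≠ ⟨1, by omega⟩ := by
    intro h
    have := congrArg Fin.val h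
    simp at this
  refine ⟨?_, ?_, ?_⟩
  · intro h0
    have hV := ps_dl (by omega) hp
    rw [h0, map_zero, mul_zero] at hV
    have h1 := hV.symm
    rw [Finset.prod_eq_zero_iff] at h1
    obtain ⟨a, _, ha⟩ := h1
    rw [Finset.prod_eq_zero_iff] at ha
    obtain ⟨b, hb, hab⟩ := ha
    exact (prime_sub (K := K) (Finset.ne_of_mem_erase hb).symm).ne_zero hab
  · intro h
    have h1 := (h.map (ps p)).map (su K ⟨0, by omega⟩ ⟨1, by omega⟩)
    rw [su_ps_dl hp hij] at h1
    exact not_isUnit_zero h1
  · rintro a b ⟨c, hc⟩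
    have h1 : su K ⟨0, by omega⟩ ⟨1, by omega⟩ (ps p (a * b)) = 0 := by
      rw [hc, map_mul, map_mul, su_ps_dl hp hij, zero_mul]
    rw [map_mul, map_mul, mul_eq_zero] at h1
    rcases h1 with h1 | h1
    · exact Or.inl (dl_dvd hp hij h1)
    · exact Or.inr (dl_dvd hp hij h1)

/-- The total degree of the discriminant is at least `2 r - 2`. -/
lemma le_totalDegree_dl [CharZero K] (hr : 2 ≤ r) (hp : Function.Injective p) :
    2 * r - 2 ≤ (dl p).totalDegree := by
  -- one root moves
  let a : Fin r → Polynomial K := fun j => if (j : ℕ) = 0 then Polynomial.X else Polynomial.C ((j : ℕ) : K)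
  have h0 : (⟨0, by omega⟩ : Fin r) ∈ Finset.univ := Finset.mem_univ _
  let φ : MvPolynomial (Fin r) K →ₐ[K] Polynomial K := aeval (fun i => ∏ j, (Polynomial.C (p i) - a j))
  have hdeg : ∀ i, (∏ j, (Polynomial.C (p i) - a j)).natDegree ≤ 1 := by
    intro i
    rw [← Finset.mul_prod_erase _ _ h0]
    refine Polynomial.natDegree_mul_le.trans ?_
    have h1 : (Polynomial.C (p i) - a ⟨0, by omega⟩).natDegree ≤ 1 := by
      simp only [a, if_true]
      refine (Polynomial.natDegree_sub_le _ _).trans ?_
      rw [Polynomial.natDegree_C, Polynomial.natDegree_X]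
      exact (max_eq_right (Nat.zero_le 1)).le
    have h2 : (∏ j ∈ Finset.univ.erase (⟨0, by omega⟩ : Fin r), (Polynomial.C (p i) - a j)).natDegree ≤ 0 := by
      refine (Polynomial.natDegree_prod_le _ _).trans ?_
      refine (Finset.sum_nonpos fun j hj => ?_)
      have h3 : (j : ℕ) ≠ 0 := fun h => (Finset.ne_of_mem_erase hj) (Fin.ext h)
      simp only [a, if_neg h3]
      rw [← Polynomial.C_sub, Polynomial.natDegree_C]
    omega
  have h1 : (φ (dl p)).natDegree ≤ (dl p).totalDegree * 1 :=
    MvPolynomial.aeval_natDegree_le (dl p) le_rfl _ hdeg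
  have h2 : (Py p).map (φ : MvPolynomial (Fin r) K →+* Polynomial K) =
      ∏ j, (Polynomial.X - Polynomial.C (a j)) := by
    symm
    apply eq_map_Py hp
    · exact Polynomial.monic_prod_of_monic _ _ fun j _ => Polynomial.monic_X_sub_C _
    · rw [Polynomial.natDegree_prod_of_monic _ _ fun j _ => Polynomial.monic_X_sub_C _]
      simp
    · intro i
      rw [Polynomial.eval_prod]
      simp [φ]
  have h3 : (-1) ^ (r * (r - 1) / 2) * φ (dl p) = ∏ i, ∏ j ∈ Finset.univ.erase i, (a i - a j) := by
    rw [← discr_prod (by omega)]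
    congr 1
    unfold dl
    have h := discr_map (φ : MvPolynomial (Fin r) K →+* Polynomial K) (Py p)
      (by rw [Py_natDegree hp]; omega) (by rw [(Py_monic hp).leadingCoeff, map_one]; exact one_ne_zero)
    rw [h2] at h
    exact h
  have hne : ∀ i j : Fin r, j ∈ Finset.univ.erase i → a i - a j ≠ 0 := by
    intro i j hj h
    have hij := (Finset.ne_of_mem_erase hj)
    simp only [a] at h
    split_ifs at h with h4 h5 h5
    · exact hij (Fin.ext (h5.trans h4.symm))
    · have := congrArg Polynomial.natDegree (sub_eq_zero.1 h)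
      simp at this
    · have := congrArg Polynomial.natDegree (sub_eq_zero.1 h)
      simp at this
    · rw [← Polynomial.C_sub, Polynomial.C_eq_zero, sub_eq_zero] at h
      exact hij (Fin.ext (by exact_mod_cast h.symm))
  have hd : ∀ i j : Fin r, (a i - a j).natDegree = if (i : ℕ) = 0 ∧ (j : ℕ) ≠ 0 ∨ (i : ℕ) ≠ 0 ∧ (j : ℕ) = 0 then 1 else 0 := by
    intro i j
    simp only [a]
    by_cases hi : (i : ℕ) = 0
    · by_cases hj : (j : ℕ) = 0
      · rw [if_pos hi, if_pos hj, sub_self, Polynomial.natDegree_zero, if_neg (by tauto)]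
      · rw [if_pos hi, if_neg hj, Polynomial.natDegree_X_sub_C, if_pos (by tauto)]
    · by_cases hj : (j : ℕ) = 0
      · rw [if_neg hi, if_pos hj, if_pos (by tauto), ← Polynomial.natDegree_neg, neg_sub,
          Polynomial.natDegree_X_sub_C]
      · rw [if_neg hi, if_neg hj, ← Polynomial.C_sub, Polynomial.natDegree_C, if_neg (by tauto)]
  have h4 : (∏ i, ∏ j ∈ Finset.univ.erase i, (a i - a j)).natDegree = 2 * r - 2 := by
    rw [Polynomial.natDegree_prod _ _ (fun i _ => Finset.prod_ne_zero_iff.2 (hne i))]
    have h5 : ∀ i : Fin r, (∏ j ∈ Finset.univ.erase i, (a i - a j)).natDegree =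
        if (i : ℕ) = 0 then r - 1 else 1 := by
      intro i
      rw [Polynomial.natDegree_prod _ _ (hne i)]
      simp only [hd]
      by_cases hi : (i : ℕ) = 0
      · rw [if_pos hi]
        rw [Finset.sum_congr rfl (fun j hj => if_pos (Or.inl ⟨hi, fun h =>
          (Finset.ne_of_mem_erase hj) (Fin.ext (h.trans hi.symm))⟩))]
        simp
      · rw [if_neg hi]
        rw [Finset.sum_eq_single_of_mem (⟨0, by omega⟩ : Fin r)
          (Finset.mem_erase.2 ⟨fun h => hi (by rw [← h]), h0⟩)]
        · rw [if_pos (Or.inr ⟨hi, rfl⟩)]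
        · intro j _ hj0
          have h6 : (j : ℕ) ≠ 0 := fun h => hj0 (Fin.ext h)
          rw [if_neg (by tauto)]
    rw [Finset.sum_congr rfl (fun i _ => h5 i), ← Finset.add_sum_erase _ _ h0]
    simp only [if_true]
    rw [Finset.sum_congr rfl (fun i hi => if_neg (fun h => (Finset.ne_of_mem_erase hi) (Fin.ext h)))]
    simp
    omega
  have h5 : (φ (dl p)).natDegree = 2 * r - 2 := by
    rw [← h4, ← h3]
    rcases neg_one_pow_eq_or (Polynomial K) (r * (r - 1) / 2) with h6 | h6
    · rw [h6, one_mul]
    · rw [h6, neg_one_mul, Polynomial.natDegree_neg]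
  rw [← h5]
  omega

end

end Pool.Agent.Helper36.SB
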