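import Pool.Agent.Helper36.SB.Lower

/-!
# Project SB: the upper bound for all profiles
-/

set_option autoImplicit false

namespace Pool.Agent.Helper36.SB

open MvPolynomial

section basics

variable {k K : Type*} [Field k] [Field K] [Algebra k K] {r : ℕ} {ι : Type*} [Fintype ι]
  {w : ι → MvPolynomial (Fin (r + 1)) K → ℝ}

lemma IsProfile.C_mul (h : IsProfile k r w) (v : ι) {a : K} (ha : a ≠ 0) {m : ℕ}
    {f : MvPolynomial (Fin (r + 1)) K} (hf : f.IsHomogeneous m) (hf0 : f ≠ 0) : w v (C a * f) = w v f := by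
  rw [h.mul v 0 m _ _ (isHomogeneous_C _ a) hf (by rwa [Ne, C_eq_zero]) hf0, h.const v a ha, zero_add]

lemma IsProfile.one (h : IsProfile k r w) (v : ι) : w v 1 = 0 := by
  rw [← C_1]; exact h.const v 1 one_ne_zero

lemma IsProfile.pow (h : IsProfile k r w) (v : ι) {m : ℕ} {f : MvPolynomial (Fin (r + 1)) K}
    (hf : f.IsHomogeneous m) (hf0 : f ≠ 0) (n : ℕ) : w v (f ^ n) = n * w v f := by
  induction n with
  | zero => rw [pow_zero, h.one]; simp
  | succ n ih =>
    rw [pow_succ, h.mul v (m * n) m _ _ (hf.pow n) hf (pow_ne_zero _ hf0) hf0, ih]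
    push_cast; ring

lemma IsProfile.prod (h : IsProfile k r w) (v : ι) {α : Type*} (s : Finset α)
    (f : α → MvPolynomial (Fin (r + 1)) K) (hf : ∀ i, (f i).IsHomogeneous 1) (hf0 : ∀ i, f i ≠ 0) (e : α → ℕ) :
    w v (∏ i ∈ s, f i ^ e i) = ∑ i ∈ s, e i * w v (f i) := by
  classical
  induction s using Finset.induction_on with
  | empty => rw [Finset.prod_empty, h.one]; simp
  | insert a s ha ih =>
    have h1 : (∏ i ∈ s, f i ^ e i).IsHomogeneous (∑ i ∈ s, 1 * e i) :=
      IsHomogeneous.prod _ _ _ fun i _ => (hf i).pow (e i)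
    have h2 : ∏ i ∈ s, f i ^ e i ≠ 0 := Finset.prod_ne_zero_iff.2 fun i _ => pow_ne_zero _ (hf0 i)
    rw [Finset.prod_insert ha, Finset.sum_insert ha, h.mul v _ _ _ _ ((hf a).pow (e a)) h1
      (pow_ne_zero _ (hf0 a)) h2, ih, h.pow v (hf a) (hf0 a)]

lemma map_gen : (gen k r).map (map (algebraMap k K)) = gen K r := by
  unfold gen
  rw [Polynomial.map_sum]
  refine Finset.sum_congr rfl fun i _ => ?_
  rw [Polynomial.map_monomial, map_X]

lemma map_disc (hr : 0 < r) : map (algebraMap k K) (disc k r) = disc K r := by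
  unfold disc
  have h := discr_map (map (algebraMap k K)) (gen k r) (by rw [gen_natDegree]; exact hr)
    (by rw [gen_leadingCoeff, map_X]; exact X_ne_zero _)
  rw [map_gen] at h
  exact h

lemma disc_ne_zero [CharZero K] (hr : 0 < r) : disc K r ≠ 0 := by
  intro h
  -- evaluate at the product of `T - i`
  have hp : Function.Injective (fun i : Fin r => ((i : ℕ) : K)) := by
    intro i j hij
    have h0 : ((i : ℕ) : K) = ((j : ℕ) : K) := hij
    exact Fin.ext (Nat.cast_injective h0)
  have h1 := th_disc hr hp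
  rw [h, map_zero] at h1
  have h2 : (Py fun i : Fin r => ((i : ℕ) : K)).map (eval (0 : Fin r → K)) =
      ∏ j : Fin r, (Polynomial.X - Polynomial.C ((j : ℕ) : K)) := by
    symm
    apply eq_map_Py hp
    · exact Polynomial.monic_prod_of_monic _ _ fun j _ => Polynomial.monic_X_sub_C _
    · rw [Polynomial.natDegree_prod_of_monic _ _ fun j _ => Polynomial.monic_X_sub_C _,
        Finset.sum_congr rfl (fun j _ => Polynomial.natDegree_X_sub_C _)]
      simp
    · intro i
      rw [Polynomial.eval_prod, eval_X, Pi.zero_apply]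
      exact Finset.prod_eq_zero (Finset.mem_univ i) (by simp)
  have h3 : eval (0 : Fin r → K) (dl fun i : Fin r => ((i : ℕ) : K)) =
      (∏ j : Fin r, (Polynomial.X - Polynomial.C ((j : ℕ) : K))).discr := by
    rw [← h2]
    unfold dl
    exact discr_map _ _ (by rw [Py_natDegree hp]; omega) (by
      rw [(Py_monic hp).leadingCoeff, map_one]; exact one_ne_zero)
  rw [← h1, map_zero] at h3
  have h4 := discr_prod hr (fun i : Fin r => ((i : ℕ) : K))
  rw [← h3, mul_zero] at h4
  have h5 := h4.symm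
  rw [Finset.prod_eq_zero_iff] at h5
  obtain ⟨a, _, ha⟩ := h5
  rw [Finset.prod_eq_zero_iff] at ha
  obtain ⟨b, hb, hab⟩ := ha
  exact (Finset.ne_of_mem_erase hb) (hp (sub_eq_zero.1 hab).symm)

/-- Liouville's inequality is the case `n = 1`. -/
lemma IsProfile.liouville (h : IsProfile k r w) {m : ℕ} (f : MvPolynomial (Fin (r + 1)) k)
    (hf : f.IsHomogeneous m) (hf0 : f ≠ 0) : ∑ v, w v (map (algebraMap k K) f) ≤ m := by
  have := h.subspace m 1 (fun _ => f) (fun _ => 1) (fun _ => hf)
    (by
      rw [Fintype.linearIndependent_iff]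
      intro c hc i
      rw [Fin.sum_univ_one] at hc
      have hi : i = 0 := Subsingleton.elim _ _
      rw [hi]
      exact (smul_eq_zero.1 hc).resolve_right hf0)
    (fun _ => by rw [Matrix.det_one]; exact one_ne_zero)
  simpa using this

lemma IsProfile.disc_le [CharZero K] [CharZero k] (hr : 0 < r) (h : IsProfile k r w) :
    ∑ v, w v (disc K r) ≤ 2 * r - 2 := by
  have h1 := h.liouville (disc k r) (disc_isHomogeneous k r hr) (disc_ne_zero hr)
  rw [map_disc hr] at h1
  have h3 : ((2 * r - 2 : ℕ) : ℝ) = 2 * (r : ℝ) - 2 := by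
    rw [Nat.cast_sub (by omega)]; push_cast; ring
  rwa [h3] at h1

end basics

section full

variable {k K : Type*} [Field k] [Field K] [Algebra k K] {r : ℕ} {ι : Type*} [Fintype ι]
  {w : ι → MvPolynomial (Fin (r + 1)) K → ℝ}

/-- The exponents of total degree `m`. -/
noncomputable def J (r m : ℕ) : Finset (Fin (r + 1) →₀ ℕ) := Finset.finsuppAntidiag Finset.univ m

lemma mem_J {m : ℕ} {d : Fin (r + 1) →₀ ℕ} : d ∈ J r m ↔ ∑ i, d i = m := by
  unfold J
  rw [Finset.mem_finsuppAntidiag]
  exact ⟨fun h => h.1, fun h => ⟨h, Finset.subset_univ _⟩⟩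

lemma coeff_of_notMem_J {m : ℕ} {f : MvPolynomial (Fin (r + 1)) K} (hf : f.IsHomogeneous m)
    {d : Fin (r + 1) →₀ ℕ} (hd : d ∉ J r m) : coeff d f = 0 := by
  apply hf.coeff_eq_zero
  rw [mem_J] at hd
  rwa [Finsupp.degree_eq_sum]

/-- The subspace inequality for the complete linear system of degree `m`. -/
lemma IsProfile.full (h : IsProfile k r w) (m : ℕ)
    (F : ι → Fin (J r m).card → MvPolynomial (Fin (r + 1)) K) (hF : ∀ v i, (F v i).IsHomogeneous m)
    (hli : ∀ v, LinearIndependent K (F v)) : ∑ v, ∑ i, w v (F v i) ≤ m * (J r m).card := by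
  classical
  set ee : Fin (J r m).card ≃ {x // x ∈ J r m} := (J r m).equivFin.symm with hee
  have hexp : ∀ v i, ∑ j, C ((Matrix.of fun i j => coeff (ee j).1 (F v i) :
      Matrix (Fin (J r m).card) (Fin (J r m).card) K) i j) *
      map (algebraMap k K) (monomial (ee j).1 1) = F v i := by
    intro v i
    ext d
    rw [coeff_sum]
    by_cases hd : d ∈ J r m
    · rw [Finset.sum_eq_single (ee.symm ⟨d, hd⟩)]
      · rw [Matrix.of_apply, Equiv.apply_symm_apply, map_monomial, map_one, coeff_C_mul, coeff_monomial,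
          if_pos rfl, mul_one]
      · intro j _ hj
        rw [map_monomial, coeff_C_mul, coeff_monomial, if_neg, mul_zero]
        intro h1
        apply hj
        rw [Equiv.eq_symm_apply]
        exact Subtype.ext h1
      · intro h1
        exact absurd (Finset.mem_univ _) h1
    · rw [coeff_of_notMem_J (hF v i) hd]
      refine Finset.sum_eq_zero fun j _ => ?_
      rw [map_monomial, coeff_C_mul, coeff_monomial, if_neg, mul_zero]
      intro h1
      exact hd (h1 ▸ (ee j).2)
  have hdet : ∀ v, (Matrix.of fun i j => coeff (ee j).1 (F v i) :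
      Matrix (Fin (J r m).card) (Fin (J r m).card) K).det ≠ 0 := by
    intro v
    have h1 : IsUnit (Matrix.of fun i j => coeff (ee j).1 (F v i) :
        Matrix (Fin (J r m).card) (Fin (J r m).card) K) := by
      rw [← Matrix.linearIndependent_rows_iff_isUnit, Fintype.linearIndependent_iff]
      intro c hc
      apply Fintype.linearIndependent_iff.1 (hli v) c
      ext d
      rw [coeff_sum, coeff_zero]
      by_cases hd : d ∈ J r m
      · have h2 := congrFun hc (ee.symm ⟨d, hd⟩)
        rw [Finset.sum_apply] at h2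
        simp only [Pi.smul_apply, Matrix.row_apply, Matrix.of_apply, Equiv.apply_symm_apply, smul_eq_mul,
          Pi.zero_apply] at h2
        rw [← h2]
        exact Finset.sum_congr rfl fun i _ => by rw [coeff_smul, smul_eq_mul]
      · refine Finset.sum_eq_zero fun i _ => ?_
        rw [coeff_smul, coeff_of_notMem_J (hF v i) hd, smul_zero]
    exact ((Matrix.isUnit_iff_isUnit_det _).1 h1).ne_zero
  have h1 := h.subspace m (J r m).card (fun j => monomial (ee j).1 1)
    (fun v => Matrix.of fun i j => coeff (ee j).1 (F v i)) (fun j => by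
      apply isHomogeneous_monomial
      rw [Finsupp.degree_eq_sum]
      exact mem_J.1 (ee j).2)
    (by
      have h2 : Function.Injective (fun j => (ee j).1) := Subtype.val_injective.comp ee.injective
      have h3 := (basisMonomials (Fin (r + 1)) k).linearIndependent.comp _ h2
      rw [coe_basisMonomials] at h3
      exact h3)
    hdet
  rw [Finset.sum_congr rfl fun v _ => Finset.sum_congr rfl fun i _ => congrArg (w v) (hexp v i)] at h1
  exact h1

lemma sum_J_coord (m : ℕ) (i j : Fin (r + 1)) : ∑ d ∈ J r m, d i = ∑ d ∈ J r m, d j := by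
  have hmem : ∀ d ∈ J r m, Finsupp.equivMapDomain (Equiv.swap i j) d ∈ J r m := by
    intro d hd
    rw [mem_J] at hd ⊢
    rw [← hd]
    simp only [Finsupp.equivMapDomain_apply]
    exact Equiv.sum_comp (Equiv.swap i j).symm (fun l => d l)
  have hinv : ∀ d : Fin (r + 1) →₀ ℕ,
      Finsupp.equivMapDomain (Equiv.swap i j) (Finsupp.equivMapDomain (Equiv.swap i j) d) = d := by
    intro d
    ext l
    simp [Finsupp.equivMapDomain_apply]
  refine Finset.sum_nbij' (fun d => Finsupp.equivMapDomain (Equiv.swap i j) d)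
    (fun d => Finsupp.equivMapDomain (Equiv.swap i j) d) hmem hmem (fun d _ => hinv d) (fun d _ => hinv d) ?_
  intro d _
  simp [Finsupp.equivMapDomain_apply]

lemma sum_J (m : ℕ) (i : Fin (r + 1)) : (r + 1) * ∑ d ∈ J r m, d i = m * (J r m).card := by
  have h1 : ∑ j : Fin (r + 1), ∑ d ∈ J r m, d j = (r + 1) * ∑ d ∈ J r m, d i := by
    rw [Finset.sum_congr rfl fun j _ => sum_J_coord m j i, Finset.sum_const, Finset.card_univ,
      Fintype.card_fin, smul_eq_mul]
  rw [← h1, Finset.sum_comm, Finset.sum_congr rfl fun d hd => mem_J.1 hd, Finset.sum_const, smul_eq_mul,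
    mul_comm]

lemma J_pos (m : ℕ) : 0 < (J r m).card := by
  rw [Finset.card_pos]
  refine ⟨Finsupp.single 0 m, ?_⟩
  rw [mem_J, Finset.sum_eq_single 0]
  · simp
  · intro j _ hj
    rw [Finsupp.single_apply, if_neg (Ne.symm hj)]
  · simp

end full

section adapted

variable {k K : Type*} [Field k] [Field K] [Algebra k K] [CharZero K] {r : ℕ} {ι : Type*} [Fintype ι]
  {w : ι → MvPolynomial (Fin (r + 1)) K → ℝ}

/-- The adapted family. -/
noncomputable def ad (p : Fin r → K) (d : Fin (r + 1) →₀ ℕ) : MvPolynomial (Fin (r + 1)) K :=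
  (∏ i : Fin r, ev r (p i) ^ d i.castSucc) * disc K r ^ (d (Fin.last r) / (2 * r - 2)) *
    X (Fin.last r) ^ (d (Fin.last r) % (2 * r - 2))

omit [CharZero K] in
lemma ad_isHomogeneous (hr : 2 ≤ r) (p : Fin r → K) {m : ℕ} {d : Fin (r + 1) →₀ ℕ} (hd : d ∈ J r m) :
    (ad p d).IsHomogeneous m := by
  have h1 : (∏ i : Fin r, ev r (p i) ^ d i.castSucc).IsHomogeneous (∑ i : Fin r, 1 * d i.castSucc) :=
    IsHomogeneous.prod _ _ _ fun i _ => (ev_isHomogeneous K r (p i)).pow _
  have h2 := ((h1.mul ((disc_isHomogeneous K r (by omega)).pow (d (Fin.last r) / (2 * r - 2)))).mul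
    ((isHomogeneous_X K (Fin.last r)).pow (d (Fin.last r) % (2 * r - 2))))
  unfold ad
  convert h2 using 1
  rw [mem_J, Fin.sum_univ_castSucc] at hd
  have h3 := Nat.div_add_mod (d (Fin.last r)) (2 * r - 2)
  simp only [one_mul]
  omega

lemma th_ad (hr : 2 ≤ r) {p : Fin r → K} (hp : Function.Injective p) {m : ℕ} {d : Fin (r + 1) →₀ ℕ}
    (hd : d ∈ J r m) : ∃ a : Fin r →₀ ℕ, (∀ i, a i = d i.castSucc) ∧
      th p (ad p d) = Phi (dl p) (2 * r - 2) m (monomial a 1) := by
  refine ⟨Finsupp.equivFunOnFinite.symm fun i => d i.castSucc, fun i => rfl, ?_⟩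
  set a : Fin r →₀ ℕ := Finsupp.equivFunOnFinite.symm fun i => d i.castSucc with ha
  have hdeg : m - a.degree = d (Fin.last r) := by
    rw [mem_J, Fin.sum_univ_castSucc] at hd
    rw [Finsupp.degree_eq_sum]
    simp only [ha, Finsupp.equivFunOnFinite_symm_apply_apply]
    omega
  have h1 : Phi (dl p) (2 * r - 2) m (monomial a 1) =
      monomial a 1 * dl p ^ (d (Fin.last r) / (2 * r - 2)) := by
    have : (monomial a (1 : K)) = (basisMonomials (Fin r) K) a := by rw [coe_basisMonomials]
    rw [this, Phi, Module.Basis.constr_basis, hdeg]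
    rw [coe_basisMonomials]
  rw [h1]
  unfold ad
  rw [map_mul, map_mul, map_pow, map_pow, th_disc (by omega) hp, th_last hp, one_pow, mul_one, map_prod]
  congr 1
  rw [monomial_eq, C_1, one_mul, Finsupp.prod_fintype _ _ (fun i => pow_zero _)]
  refine Finset.prod_congr rfl fun i _ => ?_
  rw [map_pow, th_ev hp]
  rfl

lemma ad_linearIndependent (hr : 2 ≤ r) {p : Fin r → K} (hp : Function.Injective p) (m : ℕ)
    (ee : Fin (J r m).card ≃ {x // x ∈ J r m}) : LinearIndependent K (fun i => ad p (ee i).1) := by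
  have h0 := dl_coeff_zero hr hp
  choose a ha1 ha2 using fun i => th_ad hr hp (ee i).2
  have hinj : Function.Injective a := by
    intro i j hij
    apply ee.injective
    apply Subtype.ext
    ext l
    refine Fin.lastCases ?_ (fun l => ?_) l
    · have h1 := mem_J.1 (ee i).2
      have h2 := mem_J.1 (ee j).2
      rw [Fin.sum_univ_castSucc] at h1 h2
      have h3 : ∑ l : Fin r, (ee i).1 l.castSucc = ∑ l : Fin r, (ee j).1 l.castSucc := by
        refine Finset.sum_congr rfl fun l _ => ?_
        rw [← ha1 i, ← ha1 j, hij]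
      omega
    · rw [← ha1 i, ← ha1 j, hij]
  have h1 : LinearIndependent K (fun i => monomial (a i) (1 : K)) := by
    have h3 := (basisMonomials (Fin r) K).linearIndependent.comp _ hinj
    rw [coe_basisMonomials] at h3
    exact h3
  have h2 : LinearIndependent K (fun i => Phi (dl p) (2 * r - 2) m (monomial (a i) (1 : K))) :=
    h1.map' (Phi (dl p) (2 * r - 2) m) (LinearMap.ker_eq_bot.2 (Phi_injective h0 m))
  have h3 : (fun i => Phi (dl p) (2 * r - 2) m (monomial (a i) (1 : K))) =
      (th p).toLinearMap ∘ (fun i => ad p (ee i).1) := by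
    funext i
    exact (ha2 i).symm
  rw [h3] at h2
  exact h2.of_comp _

lemma w_ad (hr : 2 ≤ r) (h : IsProfile k r w) (v : ι) (p : Fin r → K) (d : Fin (r + 1) →₀ ℕ) :
    ∑ i : Fin r, (d i.castSucc : ℝ) * w v (ev r (p i)) +
      ((d (Fin.last r) : ℝ) / (2 * r - 2) - 1) * w v (disc K r) ≤ w v (ad p d) := by
  have h1 : (∏ i : Fin r, ev r (p i) ^ d i.castSucc).IsHomogeneous (∑ i : Fin r, 1 * d i.castSucc) :=
    IsHomogeneous.prod _ _ _ fun i _ => (ev_isHomogeneous K r (p i)).pow _
  have h10 : (∏ i : Fin r, ev r (p i) ^ d i.castSucc) ≠ 0 :=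
    Finset.prod_ne_zero_iff.2 fun i _ => pow_ne_zero _ (ev_ne_zero K r (p i))
  have hd0 : disc K r ≠ 0 := disc_ne_zero (by omega)
  have hdh := disc_isHomogeneous K r (by omega)
  have h2 := hdh.pow (d (Fin.last r) / (2 * r - 2))
  have h3 := (isHomogeneous_X K (Fin.last r)).pow (d (Fin.last r) % (2 * r - 2))
  unfold ad
  rw [h.mul v _ _ _ _ (h1.mul h2) h3 (mul_ne_zero h10 (pow_ne_zero _ hd0)) (pow_ne_zero _ (X_ne_zero _)),
    h.mul v _ _ _ _ h1 h2 h10 (pow_ne_zero _ hd0), h.pow v hdh hd0,
    h.prod v _ _ (fun i => ev_isHomogeneous K r (p i)) (fun i => ev_ne_zero K r (p i))]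
  have h4 : 0 ≤ w v (X (Fin.last r) ^ (d (Fin.last r) % (2 * r - 2))) :=
    h.nonneg v _ _ h3 (pow_ne_zero _ (X_ne_zero _))
  have h5 : 0 ≤ w v (disc K r) := h.nonneg v _ _ hdh hd0
  have h6 : (d (Fin.last r) : ℝ) / (2 * r - 2) - 1 ≤ ((d (Fin.last r) / (2 * r - 2) : ℕ) : ℝ) := by
    have h7 : ((2 * r - 2 : ℕ) : ℝ) = 2 * (r : ℝ) - 2 := by
      rw [Nat.cast_sub (by omega)]; push_cast; ring
    have hpos : (0 : ℝ) < 2 * (r : ℝ) - 2 := by
      have : (2 : ℝ) ≤ r := by exact_mod_cast hr
      linarith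
    rw [sub_le_iff_le_add, div_le_iff₀ hpos, ← h7]
    have h8 := Nat.div_add_mod (d (Fin.last r)) (2 * r - 2)
    have h9 := Nat.mod_lt (d (Fin.last r)) (show 0 < 2 * r - 2 by omega)
    have h10 : d (Fin.last r) ≤ (d (Fin.last r) / (2 * r - 2) + 1) * (2 * r - 2) := by
      rw [add_mul, one_mul, mul_comm (d (Fin.last r) / (2 * r - 2))]
      omega
    exact_mod_cast h10
  have h7 := mul_le_mul_of_nonneg_right h6 h5
  linarith

/-- The asymptotic subspace inequality. -/
theorem main_ineq (hr : 2 ≤ r) (h : IsProfile k r w) (p : ι → Fin r → K)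
    (hp : ∀ v, Function.Injective (p v)) :
    ∑ v, ∑ i, w v (ev r (p v i)) + (∑ v, w v (disc K r)) / (2 * r - 2) ≤ r + 1 := by
  set L : ℝ := ∑ v, ∑ i, w v (ev r (p v i)) with hL
  set D : ℝ := ∑ v, w v (disc K r) with hD
  have hpos : (0 : ℝ) < 2 * (r : ℝ) - 2 := by
    have : (2 : ℝ) ≤ r := by exact_mod_cast hr
    linarith
  have key : ∀ m : ℕ, (m : ℝ) / (r + 1) * (L + D / (2 * r - 2) - (r + 1)) ≤ D := by
    intro m
    set ee : Fin (J r m).card ≃ {x // x ∈ J r m} := (J r m).equivFin.symm with hee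
    have h1 := h.full m (fun v i => ad (p v) (ee i).1) (fun v i => ad_isHomogeneous hr (p v) (ee i).2)
      (fun v => ad_linearIndependent hr (hp v) m ee)
    have hnpos : (0 : ℝ) < (J r m).card := by exact_mod_cast J_pos m
    have hA : ∀ i : Fin (r + 1), ∑ l : Fin (J r m).card, ((ee l).1 i : ℝ) = m * (J r m).card / (r + 1) := by
      intro i
      have h2 : ∑ l : Fin (J r m).card, (ee l).1 i = ∑ d ∈ J r m, d i := by
        rw [Equiv.sum_comp ee (fun x => x.1 i)]
        exact Finset.sum_coe_sort (J r m) (fun d => d i)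
      have h3 := sum_J m i
      have h4 : ((r : ℝ) + 1) * (∑ l : Fin (J r m).card, ((ee l).1 i : ℝ)) = m * (J r m).card := by
        rw [← Nat.cast_sum, h2]
        exact_mod_cast h3
      have h5 : (0 : ℝ) < (r : ℝ) + 1 := by positivity
      rw [eq_div_iff h5.ne', mul_comm]
      exact h4
    have h2 : ∀ v, (m * (J r m).card / (r + 1) : ℝ) * ∑ i, w v (ev r (p v i)) +
        (m * (J r m).card / (r + 1) / (2 * r - 2) - (J r m).card) * w v (disc K r) ≤ ∑ l, w v (ad (p v) (ee l).1) := by
      intro v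
      calc (m * (J r m).card / (r + 1) : ℝ) * ∑ i, w v (ev r (p v i)) +
          (m * (J r m).card / (r + 1) / (2 * r - 2) - (J r m).card) * w v (disc K r)
          = ∑ l : Fin (J r m).card, (∑ i : Fin r, ((ee l).1 i.castSucc : ℝ) * w v (ev r (p v i)) +
            (((ee l).1 (Fin.last r) : ℝ) / (2 * r - 2) - 1) * w v (disc K r)) := by
            rw [Finset.sum_add_distrib, Finset.sum_comm]
            congr 1
            · rw [Finset.mul_sum]
              refine Finset.sum_congr rfl fun i _ => ?_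
              rw [← Finset.sum_mul, hA]
            · rw [← Finset.sum_mul, Finset.sum_sub_distrib, ← Finset.sum_div, hA]
              simp
        _ ≤ ∑ l, w v (ad (p v) (ee l).1) := Finset.sum_le_sum fun l _ => w_ad hr h v (p v) _
    have h3 : (m * (J r m).card / (r + 1) : ℝ) * L + (m * (J r m).card / (r + 1) / (2 * r - 2) - (J r m).card) * D ≤ m * (J r m).card := by
      rw [hL, hD, Finset.mul_sum, Finset.mul_sum, ← Finset.sum_add_distrib]
      exact (Finset.sum_le_sum fun v _ => h2 v).trans h1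
    have h4 : (J r m).card * ((m : ℝ) / (r + 1) * (L + D / (2 * r - 2) - (r + 1))) ≤ (J r m).card * D := by
      have h5 : (0 : ℝ) < (r : ℝ) + 1 := by positivity
      have h6 : (J r m).card * ((m : ℝ) / (r + 1) * (L + D / (2 * r - 2) - (r + 1))) =
          (m * (J r m).card / (r + 1) : ℝ) * L + (m * (J r m).card / (r + 1) / (2 * r - 2) - (J r m).card) * D - m * (J r m).card + (J r m).card * D := by
        field_simp
        ring
      rw [h6]
      linarith
    exact le_of_mul_le_mul_left h4 hnpos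
  by_contra hcon
  push Not at hcon
  have hX : 0 < L + D / (2 * r - 2) - (r + 1) := by linarith
  have h5 : (0 : ℝ) < (r : ℝ) + 1 := by positivity
  obtain ⟨m, hm⟩ := exists_nat_gt (D * (r + 1) / (L + D / (2 * r - 2) - (r + 1)))
  have h6 := key m
  rw [div_lt_iff₀ hX] at hm
  rw [div_mul_eq_mul_div, div_le_iff₀ h5] at h6
  linarith

end adapted

end Pool.Agent.Helper36.SB
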